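import Pool.Agent.Z9.PDefs
import Pool.Agent.Z5.PadicSF

/-!
# DIM39: the valuation of `RR`, chord bound

The hinge sum for `v_q(RR p)` is convex in `4 p / q`, hence below its chord between consecutive
integers.
-/

open Finset

namespace Pool.Agent.Z9

open Pool.Agent.Z5 (SF)

variable {p q : ℕ}

theorem sum_hinge (A Q : ℝ) (hQ : 0 ≤ Q) (m : ℕ) (h : (m : ℝ) * Q / 2 ≤ A) :
    ∑ i ∈ Icc 1 m, max 0 (A - (i : ℝ) * Q / 2) = m * A - m * (m + 1) * Q / 4 := by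
  have h1 : ∀ i ∈ Icc 1 m, max 0 (A - (i : ℝ) * Q / 2) = A - (i : ℝ) * Q / 2 := by
    intro i hi
    have h2 : (i : ℝ) ≤ m := by exact_mod_cast (mem_Icc.1 hi).2
    have h3 : (i : ℝ) * Q ≤ m * Q := mul_le_mul_of_nonneg_right h2 hQ
    exact max_eq_right (by linarith)
  rw [Finset.sum_congr rfl h1]
  clear h1 h
  induction m with
  | zero => simp
  | succ m ih =>
    rw [Finset.sum_Icc_succ_top (by omega), ih]
    push_cast
    ring

theorem hinge8 (P Q : ℝ) (k : ℕ) (hQ : 0 ≤ Q) (h1 : (k : ℝ) * Q ≤ 4 * P) (h2 : 4 * P ≤ (k + 1) * Q) :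
    ∑ i ∈ Icc 1 (4 * k + 3), max 0 (8 * P - (i : ℝ) * Q / 2) ≤
      32 * k * P - Q * k * (4 * k + 1) + 3 * (4 * P - k * Q) := by
  have e0 := sum_hinge (8 * P) Q hQ (4 * k) (by push_cast; linarith)
  rw [Finset.sum_Icc_succ_top (by omega), Finset.sum_Icc_succ_top (by omega),
    Finset.sum_Icc_succ_top (by omega), e0]
  have g0 : 0 ≤ 4 * P - k * Q := by linarith
  have g1 : 4 * P - k * Q ≤ Q := by linarith
  have m1 : max 0 (8 * P - ((4 * k + 1 : ℕ) : ℝ) * Q / 2) ≤ (4 * P - k * Q) * 3 / 2 := by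
    push_cast
    refine max_le (by linarith) (by linarith)
  have m2 : max 0 (8 * P - ((4 * k + 1 + 1 : ℕ) : ℝ) * Q / 2) ≤ (4 * P - k * Q) * 2 / 2 := by
    push_cast
    refine max_le (by linarith) (by linarith)
  have m3 : max 0 (8 * P - ((4 * k + 2 + 1 : ℕ) : ℝ) * Q / 2) ≤ (4 * P - k * Q) * 1 / 2 := by
    push_cast
    refine max_le (by linarith) (by linarith)
  push_cast at m1 m2 m3 ⊢
  linarith

theorem hinge6 (P Q : ℝ) (k : ℕ) (hQ : 0 ≤ Q) (h1 : (k : ℝ) * Q ≤ 4 * P) (h2 : 4 * P ≤ (k + 1) * Q) :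
    ∑ i ∈ Icc 1 (3 * k + 2), max 0 (6 * P - (i : ℝ) * Q / 2) ≤
      18 * k * P - Q * (3 * k * (3 * k + 1)) / 4 + 3 / 2 * (4 * P - k * Q) := by
  have e0 := sum_hinge (6 * P) Q hQ (3 * k) (by push_cast; linarith)
  rw [Finset.sum_Icc_succ_top (by omega), Finset.sum_Icc_succ_top (by omega), e0]
  have g0 : 0 ≤ 4 * P - k * Q := by linarith
  have g1 : 4 * P - k * Q ≤ Q := by linarith
  have m1 : max 0 (6 * P - ((3 * k + 1 : ℕ) : ℝ) * Q / 2) ≤ (4 * P - k * Q) * 2 / 2 := by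
    push_cast
    refine max_le (by linarith) (by linarith)
  have m2 : max 0 (6 * P - ((3 * k + 1 + 1 : ℕ) : ℝ) * Q / 2) ≤ (4 * P - k * Q) * 1 / 2 := by
    push_cast
    refine max_le (by linarith) (by linarith)
  push_cast at m1 m2 ⊢
  linarith

/-- common part: `E` bounds `2 a / q ^ 2` -/
theorem chord_aux (hqp : q.Prime) (E : ℕ) (hE : 16 * p ≤ (E + 1) * q ^ 2) (h3 : 16 * p ≤ q ^ 3) :
    ((padicValNat q (RR p) : ℕ) : ℤ) ≤ 68 * ((4 * p / q : ℕ) : ℤ) * p + 24 * p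
      - 17 * q * (((4 * p / q : ℕ) : ℤ) * (((4 * p / q : ℕ) : ℤ) + 1) / 2) + 20 * E * p := by
  have : Fact q.Prime := ⟨hqp⟩
  obtain ⟨k, hk⟩ : ∃ k : ℕ, k = 4 * p / q := ⟨_, rfl⟩
  have h0 : 0 < q := hqp.pos
  have h1 : k * q ≤ 4 * p := by rw [hk]; exact Nat.div_mul_le_self _ _
  have h2 : 4 * p < (k + 1) * q := (Nat.div_lt_iff_lt_mul h0).mp (by rw [hk]; omega)
  have hv : padicValNat q (RR p) = padicValNat q (SF (8 * p)) + 2 * padicValNat q (SF (6 * p)) := by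
    unfold RR
    rw [padicValNat.mul (Z5.SF_pos _).ne' (pow_pos (Z5.SF_pos _) _).ne', padicValNat.pow]
  have h8 := Z5.padicVal_SF_le (q := q) (8 * p) (4 * k + 3) E (by omega) (by omega) (by
    have : (4 * k + 3 + 1) * q = 4 * ((k + 1) * q) := by ring
    omega)
  have h6 := Z5.padicVal_SF_le (q := q) (6 * p) (3 * k + 2) E (by omega) (by omega) (by
    have : (3 * k + 2 + 1) * q = 3 * ((k + 1) * q) := by ring
    omega)
  have h1R : (k : ℝ) * q ≤ 4 * p := by exact_mod_cast h1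
  have h2R : 4 * (p : ℝ) ≤ (k + 1) * q := by exact_mod_cast h2.le
  have hq0 : (0 : ℝ) ≤ q := Nat.cast_nonneg _
  have a8 := hinge8 (p : ℝ) (q : ℝ) k hq0 h1R h2R
  have a6 := hinge6 (p : ℝ) (q : ℝ) k hq0 h1R h2R
  push_cast at h8 h6
  rw [← hk]
  obtain ⟨T, hT⟩ : ∃ T : ℤ, T = (k : ℤ) * ((k : ℤ) + 1) / 2 := ⟨_, rfl⟩
  have hT2 : 2 * T = (k : ℤ) * ((k : ℤ) + 1) := by
    rw [hT]
    exact Int.mul_ediv_cancel' (even_iff_two_dvd.mp (Int.even_mul_succ_self _))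
  rw [← hT]
  have hT2R : 2 * (T : ℝ) = (k : ℝ) * ((k : ℝ) + 1) := by exact_mod_cast hT2
  have hT3 : (17 * (q : ℝ)) * (2 * (T : ℝ)) = (17 * (q : ℝ)) * ((k : ℝ) * ((k : ℝ) + 1)) := by
    rw [hT2R]
  have hfin : ((padicValNat q (RR p) : ℕ) : ℝ) ≤ 68 * (k : ℝ) * p + 24 * p - 17 * q * T
      + 20 * E * p := by
    rw [hv]
    push_cast
    nlinarith [h8, h6, a8, a6, hT3]
  have hc : ((((padicValNat q (RR p) : ℕ) : ℤ)) : ℝ) ≤ ((68 * (k : ℤ) * p + 24 * p - 17 * q * T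
      + 20 * E * p : ℤ) : ℝ) := by
    rw [Int.cast_natCast]
    refine hfin.trans (le_of_eq ?_)
    push_cast
    ring
  exact Int.cast_le.mp hc

theorem chord (hqp : q.Prime) (_hp : 1 ≤ p) (hpq : 16 * p < q ^ 2) (_h : 3 * q ≤ 4 * p) :
    let k : ℤ := (4 * p / q : ℕ)
    (padicValNat q (RR p) : ℤ) ≤ 68 * k * p + 24 * p - 17 * q * (k * (k + 1) / 2) := by
  intro k
  have h3 : q ^ 2 ≤ q ^ 3 := Nat.pow_le_pow_right hqp.pos (by norm_num)
  have h1 := chord_aux (p := p) hqp 0 (by omega) (by omega)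
  have h2 : (20 * (0 : ℕ) * p : ℤ) = 0 := by norm_num
  rw [h2, add_zero] at h1
  exact h1

theorem chord' (hqp : q.Prime) (_hp : 1 ≤ p) (hpq : 4 * p < q ^ 2) (h : 3 * q ≤ 4 * p) :
    let k : ℤ := (4 * p / q : ℕ)
    (padicValNat q (RR p) : ℤ) ≤ 68 * k * p + 24 * p - 17 * q * (k * (k + 1) / 2) + 60 * p := by
  intro k
  have h4 : 4 ≤ q := by
    by_contra hc
    have : q ^ 2 ≤ 3 * q := by nlinarith
    omega
  have h3 : 4 * q ^ 2 ≤ q ^ 3 := by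
    have : q ^ 3 = q * q ^ 2 := by ring
    rw [this]
    exact Nat.mul_le_mul_right _ h4
  have h1 := chord_aux (p := p) hqp 3 (by omega) (by omega)
  have h2 : (20 * (3 : ℕ) * p : ℤ) = 60 * p := by norm_num
  rw [h2] at h1
  exact h1

end Pool.Agent.Z9
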