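import Pool.Agent.Z9.ArchDefs
import Pool.Agent.Z5.ArchSer

/-!
# Bound of the coefficients of the power series, pole orders at most `10`
-/

open Finset

namespace Pool.Agent.Z9

open Pool.Agent.Z5

/-- `∑_{k < 10} |coeff k| r ^ k` with `r = 1 / 4` -/
noncomputable def pnorm (f : PowerSeries ℚ) : ℝ :=
  ∑ k ∈ range 10, |((PowerSeries.coeff k f : ℚ) : ℝ)| * (1 / 4 : ℝ) ^ k

theorem pnorm_nonneg (f : PowerSeries ℚ) : 0 ≤ pnorm f :=
  Finset.sum_nonneg fun _ _ => mul_nonneg (abs_nonneg _) (by positivity)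

theorem pnorm_mul_le (f g : PowerSeries ℚ) : pnorm (f * g) ≤ pnorm f * pnorm g := by
  unfold pnorm
  have h1 : ∀ k ∈ range 10, |((PowerSeries.coeff k (f * g) : ℚ) : ℝ)| * (1 / 4 : ℝ) ^ k ≤
      ∑ x ∈ HasAntidiagonal.antidiagonal k,
        (|((PowerSeries.coeff x.1 f : ℚ) : ℝ)| * (1 / 4 : ℝ) ^ x.1) *
          (|((PowerSeries.coeff x.2 g : ℚ) : ℝ)| * (1 / 4 : ℝ) ^ x.2) := by
    intro k _
    rw [PowerSeries.coeff_mul]
    push_cast
    refine (mul_le_mul_of_nonneg_right (Finset.abs_sum_le_sum_abs _ _) (by positivity)).trans ?_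
    rw [Finset.sum_mul]
    refine Finset.sum_le_sum fun x hx => ?_
    have hx' := HasAntidiagonal.mem_antidiagonal.mp hx
    rw [abs_mul, ← hx', pow_add]
    apply le_of_eq
    ring
  refine (Finset.sum_le_sum h1).trans ?_
  rw [Finset.sum_mul_sum, ← Finset.sum_product', Finset.sum_sigma']
  have h2 : ∑ x ∈ (range 10).sigma (fun k => HasAntidiagonal.antidiagonal k),
      (|((PowerSeries.coeff x.2.1 f : ℚ) : ℝ)| * (1 / 4 : ℝ) ^ x.2.1) *
          (|((PowerSeries.coeff x.2.2 g : ℚ) : ℝ)| * (1 / 4 : ℝ) ^ x.2.2) =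
      ∑ y ∈ ((range 10).sigma (fun k => HasAntidiagonal.antidiagonal k)).image (fun x => x.2),
      (|((PowerSeries.coeff y.1 f : ℚ) : ℝ)| * (1 / 4 : ℝ) ^ y.1) *
          (|((PowerSeries.coeff y.2 g : ℚ) : ℝ)| * (1 / 4 : ℝ) ^ y.2) := by
    rw [Finset.sum_image]
    rintro ⟨a, b⟩ hx ⟨a', b'⟩ hy hxy
    simp only [Finset.coe_sigma, Set.mem_sigma_iff, Finset.mem_coe,
      HasAntidiagonal.mem_antidiagonal] at hx hy
    simp only at hxy
    subst hxy
    have : a = a' := hx.2.symm.trans hy.2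
    subst this
    rfl
  rw [h2]
  refine Finset.sum_le_sum_of_subset_of_nonneg ?_ ?_
  · intro y hy
    rw [Finset.mem_image] at hy
    obtain ⟨⟨a, b⟩, hx, rfl⟩ := hy
    simp only [Finset.mem_sigma, HasAntidiagonal.mem_antidiagonal, Finset.mem_range] at hx
    rw [Finset.mem_product, Finset.mem_range, Finset.mem_range]
    constructor <;> (simp only; omega)
  · intro y _ _
    positivity

theorem abs_coeff_le (f : PowerSeries ℚ) {k : ℕ} (hk : k < 10) :
    |((PowerSeries.coeff k f : ℚ) : ℝ)| ≤ 4 ^ k * pnorm f := by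
  have h : |((PowerSeries.coeff k f : ℚ) : ℝ)| * (1 / 4 : ℝ) ^ k ≤ pnorm f := by
    unfold pnorm
    exact Finset.single_le_sum (f := fun k => |((PowerSeries.coeff k f : ℚ) : ℝ)| * (1 / 4 : ℝ) ^ k)
      (fun _ _ => mul_nonneg (abs_nonneg _) (by positivity)) (Finset.mem_range.mpr hk)
  have h4 : (4 : ℝ) ^ k * (1 / 4 : ℝ) ^ k = 1 := by rw [← mul_pow]; norm_num
  calc |((PowerSeries.coeff k f : ℚ) : ℝ)|
      = 4 ^ k * (|((PowerSeries.coeff k f : ℚ) : ℝ)| * (1 / 4 : ℝ) ^ k) := by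
        rw [mul_left_comm, h4, mul_one]
    _ ≤ _ := mul_le_mul_of_nonneg_left h (by positivity)

theorem pnorm_one : pnorm 1 = 1 := by
  unfold pnorm
  simp [Finset.sum_range_succ, PowerSeries.coeff_one]

theorem pnorm_C (c : ℚ) : pnorm (PowerSeries.C c) = |(c : ℝ)| := by
  unfold pnorm
  simp [Finset.sum_range_succ, PowerSeries.coeff_C]

theorem pnorm_C_add_X (c : ℚ) : pnorm (PowerSeries.C c + PowerSeries.X) = |(c : ℝ)| + 1 / 4 := by
  unfold pnorm
  simp [Finset.sum_range_succ, PowerSeries.coeff_C, PowerSeries.coeff_X]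

theorem pnorm_prod_le {ι : Type*} (s : Finset ι) (f : ι → PowerSeries ℚ) :
    pnorm (∏ i ∈ s, f i) ≤ ∏ i ∈ s, pnorm (f i) := by
  classical
  induction s using Finset.induction_on with
  | empty => simp [pnorm_one]
  | insert a s ha ih =>
    rw [Finset.prod_insert ha, Finset.prod_insert ha]
    exact (pnorm_mul_le _ _).trans (mul_le_mul_of_nonneg_left ih (pnorm_nonneg _))

theorem pnorm_inv_one_le {c : ℚ} (hc : (1 : ℝ) ≤ |(c : ℝ)|) :
    pnorm (PowerSeries.C c + PowerSeries.X)⁻¹ ≤ 1 / (|(c : ℝ)| - 1 / 4) := by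
  have hc0 : c ≠ 0 := by
    rintro rfl
    norm_num at hc
  unfold pnorm
  simp only [coeff_inv_C_add_X hc0]
  have h1 : ∀ k ∈ range 10, |(((-1) ^ k / c ^ (k + 1) : ℚ) : ℝ)| * (1 / 4 : ℝ) ^ k =
      (1 / |(c : ℝ)|) * (1 / (4 * |(c : ℝ)|)) ^ k := by
    intro k _
    push_cast
    rw [abs_div, abs_pow, abs_neg, abs_one, one_pow, abs_pow]
    rw [one_div_pow, one_div_pow, mul_pow, pow_succ]
    have : |(c : ℝ)| ≠ 0 := by positivity
    field_simp
  rw [Finset.sum_congr rfl h1, ← Finset.mul_sum]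
  have hx0 : 0 ≤ 1 / (4 * |(c : ℝ)|) := by positivity
  have hx1 : 1 / (4 * |(c : ℝ)|) < 1 := by
    rw [div_lt_one (by positivity)]; linarith
  have h2 : ∑ k ∈ range 10, (1 / (4 * |(c : ℝ)|)) ^ k ≤ (1 - 1 / (4 * |(c : ℝ)|))⁻¹ := by
    rw [← tsum_geometric_of_lt_one hx0 hx1]
    exact (summable_geometric_of_lt_one hx0 hx1).sum_le_tsum _ (fun _ _ => by positivity)
  refine (mul_le_mul_of_nonneg_left h2 (by positivity)).trans (le_of_eq ?_)
  have h3 : |(c : ℝ)| ≠ 0 := by positivity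
  have h4 : |(c : ℝ)| - 1 / 4 ≠ 0 := by linarith
  have h5 : 1 - 1 / (4 * |(c : ℝ)|) ≠ 0 := by linarith
  field_simp

theorem pnorm_inv_le {c : ℚ} (hc : (1 : ℝ) ≤ |(c : ℝ)|) (n : ℕ) :
    pnorm ((PowerSeries.C c + PowerSeries.X) ^ n)⁻¹ ≤ 1 / (|(c : ℝ)| - 1 / 4) ^ n := by
  induction n with
  | zero => simp [pnorm_one]
  | succ n ih =>
    rw [pow_succ, PowerSeries.mul_inv_rev]
    refine (pnorm_mul_le _ _).trans ?_
    have h1 := pnorm_inv_one_le hc
    have h2 : (0 : ℝ) < |(c : ℝ)| - 1 / 4 := by linarith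
    calc _ ≤ (1 / (|(c : ℝ)| - 1 / 4)) * (1 / (|(c : ℝ)| - 1 / 4) ^ n) :=
          mul_le_mul h1 ih (pnorm_nonneg _) (by positivity)
      _ = _ := by rw [pow_succ]; field_simp

theorem pnorm_dser_inv_le (L : ℕ) (e : ℕ → ℕ) (u : ℕ) :
    pnorm (dser L e u)⁻¹ ≤
      (∏ v ∈ (range (L + 1)).erase u, (|(v : ℝ) - u| - 1 / 4) ^ e v)⁻¹ := by
  unfold dser
  rw [inv_prod, ← Finset.prod_inv_distrib]
  refine (pnorm_prod_le _ _).trans ?_
  refine Finset.prod_le_prod (fun _ _ => pnorm_nonneg _) fun v hv => ?_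
  have hvu : v ≠ u := (Finset.mem_erase.mp hv).1
  have hc : (1 : ℝ) ≤ |(((v : ℚ) - u : ℚ) : ℝ)| := by
    have : (1 : ℤ) ≤ |(v : ℤ) - u| := Int.one_le_abs (by omega)
    push_cast
    exact_mod_cast this
  have := pnorm_inv_le hc (e v)
  push_cast at this
  rwa [one_div] at this

/-- one factor -/
theorem pnorm_factor_le (L u : ℕ) (x : ℚ) :
    pnorm (xser L u ^ 2 - PowerSeries.C (4 * x ^ 2)) ≤
      4 * ((|(L : ℝ) / 2 - u - x| + 1 / 4) * (|(L : ℝ) / 2 - u + x| + 1 / 4)) := by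
  have h : xser L u ^ 2 - PowerSeries.C (4 * x ^ 2) =
      PowerSeries.C 4 * ((PowerSeries.C ((L : ℚ) / 2 - u - x) + PowerSeries.X) *
        (PowerSeries.C ((L : ℚ) / 2 - u + x) + PowerSeries.X)) := by
    have h2 : (2 : PowerSeries ℚ) = PowerSeries.C 2 := by
      rw [map_ofNat]
    have h4 : PowerSeries.C (4 : ℚ) = PowerSeries.C 2 * PowerSeries.C 2 := by
      rw [← map_mul]; norm_num
    have hL : PowerSeries.C ((L : ℚ) - 2 * u) = PowerSeries.C 2 * PowerSeries.C ((L : ℚ) / 2 - u) := by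
      rw [← map_mul]; congr 1; ring
    have hx : PowerSeries.C (4 * x ^ 2) = PowerSeries.C 2 * PowerSeries.C 2 *
        (PowerSeries.C x * PowerSeries.C x) := by
      rw [← map_mul, ← map_mul, ← map_mul]; congr 1; ring
    have hm : PowerSeries.C ((L : ℚ) / 2 - u - x) = PowerSeries.C ((L : ℚ) / 2 - u) -
        PowerSeries.C x := map_sub _ _ _
    have hp : PowerSeries.C ((L : ℚ) / 2 - u + x) = PowerSeries.C ((L : ℚ) / 2 - u) +
        PowerSeries.C x := map_add _ _ _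
    unfold xser
    rw [h2, h4, hL, hx, hm, hp]
    ring
  rw [h]
  refine (pnorm_mul_le _ _).trans ?_
  rw [pnorm_C]
  have h3 := pnorm_mul_le (PowerSeries.C ((L : ℚ) / 2 - u - x) + PowerSeries.X)
    (PowerSeries.C ((L : ℚ) / 2 - u + x) + PowerSeries.X)
  rw [pnorm_C_add_X, pnorm_C_add_X] at h3
  push_cast at h3 ⊢
  rw [abs_of_pos (by norm_num : (0 : ℝ) < 4)]
  exact mul_le_mul_of_nonneg_left h3 (by norm_num)

/-- bound for one coefficient `co` of a product of `Y - y k`, `y k = 4 x k ^ 2` -/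
theorem abs_co_le {L : ℕ} {e : ℕ → ℕ} (he : IsProf L e) {ι κ : Type*} [Fintype ι]
    [DecidableEq ι] [Fintype κ] [DecidableEq κ] (x : ι → ℚ) (y : κ → ℚ) (i : ι) (j : κ) {u : ℕ}
    (hu : u ≤ L) {a : ℕ} (ha : 1 ≤ a) :
    |(co L e (lagQ (fun k => 4 * x k ^ 2) i * lagQ (fun k => 4 * y k ^ 2) j) u a : ℝ)|
      ≤ (4 : ℝ) ^ 10 * ((L : ℝ) + 1) * (∏ v ∈ (range (L + 1)).erase u, (|(v : ℝ) - u| - 1 / 4) ^ e v)⁻¹
        * (∏ k ∈ univ.erase i, (4 * ((|(L : ℝ) / 2 - u - x k| + 1 / 4)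
            * (|(L : ℝ) / 2 - u + x k| + 1 / 4))))
        * ∏ k ∈ univ.erase j, (4 * ((|(L : ℝ) / 2 - u - y k| + 1 / 4)
            * (|(L : ℝ) / 2 - u + y k| + 1 / 4))) := by
  have hD : 0 ≤ (∏ v ∈ (range (L + 1)).erase u, (|(v : ℝ) - u| - 1 / 4) ^ e v)⁻¹ :=
    (pnorm_nonneg _).trans (pnorm_dser_inv_le L e u)
  have hP1 : 0 ≤ ∏ k ∈ univ.erase i, (4 * ((|(L : ℝ) / 2 - u - x k| + 1 / 4)
            * (|(L : ℝ) / 2 - u + x k| + 1 / 4))) := Finset.prod_nonneg fun _ _ => by positivity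
  have hP2 : 0 ≤ ∏ k ∈ univ.erase j, (4 * ((|(L : ℝ) / 2 - u - y k| + 1 / 4)
            * (|(L : ℝ) / 2 - u + y k| + 1 / 4))) := Finset.prod_nonneg fun _ _ => by positivity
  unfold co
  split_ifs with h
  · have he6 := he.le u hu
    have hk : e u - a < 10 := by omega
    refine (abs_coeff_le _ hk).trans ?_
    have h64 : (4 : ℝ) ^ (e u - a) ≤ (4 : ℝ) ^ 10 :=
      pow_le_pow_right₀ (by norm_num) (by omega)
    have hx : pnorm (xser L u) ≤ (L : ℝ) + 1 := by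
      have hh : xser L u = PowerSeries.C 2 * (PowerSeries.C ((L : ℚ) / 2 - u) + PowerSeries.X) := by
        have h2 : (2 : PowerSeries ℚ) = PowerSeries.C 2 := by
          rw [map_ofNat]
        have hL : PowerSeries.C ((L : ℚ) - 2 * u) =
            PowerSeries.C 2 * PowerSeries.C ((L : ℚ) / 2 - u) := by
          rw [← map_mul]; congr 1; ring
        unfold xser
        rw [h2, hL]
        ring
      rw [hh]
      refine (pnorm_mul_le _ _).trans ?_
      rw [pnorm_C, pnorm_C_add_X]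
      push_cast
      have hu' : (u : ℝ) ≤ L := by exact_mod_cast hu
      have hu0 : (0 : ℝ) ≤ u := by positivity
      have : |(L : ℝ) / 2 - u| ≤ L / 2 := abs_le.mpr ⟨by linarith, by linarith⟩
      rw [abs_of_pos (by norm_num : (0 : ℝ) < 2)]
      linarith
    have hh : pnorm (hser L u (lagQ (fun k => 4 * x k ^ 2) i * lagQ (fun k => 4 * y k ^ 2) j)) ≤
        (∏ k ∈ univ.erase i, (4 * ((|(L : ℝ) / 2 - u - x k| + 1 / 4)
            * (|(L : ℝ) / 2 - u + x k| + 1 / 4))))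
        * ∏ k ∈ univ.erase j, (4 * ((|(L : ℝ) / 2 - u - y k| + 1 / 4)
            * (|(L : ℝ) / 2 - u + y k| + 1 / 4))) := by
      unfold hser
      rw [map_mul, aeval_lagQ, aeval_lagQ]
      refine (pnorm_mul_le _ _).trans ?_
      refine mul_le_mul ?_ ?_ (pnorm_nonneg _) hP1
      · refine (pnorm_prod_le _ _).trans ?_
        exact Finset.prod_le_prod (fun _ _ => pnorm_nonneg _) fun k _ => pnorm_factor_le L u (x k)
      · refine (pnorm_prod_le _ _).trans ?_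
        exact Finset.prod_le_prod (fun _ _ => pnorm_nonneg _) fun k _ => pnorm_factor_le L u (y k)
    have hl : pnorm (lser L e u (lagQ (fun k => 4 * x k ^ 2) i * lagQ (fun k => 4 * y k ^ 2) j)) ≤
        ((L : ℝ) + 1) * (∏ v ∈ (range (L + 1)).erase u, (|(v : ℝ) - u| - 1 / 4) ^ e v)⁻¹
        * ((∏ k ∈ univ.erase i, (4 * ((|(L : ℝ) / 2 - u - x k| + 1 / 4)
            * (|(L : ℝ) / 2 - u + x k| + 1 / 4))))
        * ∏ k ∈ univ.erase j, (4 * ((|(L : ℝ) / 2 - u - y k| + 1 / 4)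
            * (|(L : ℝ) / 2 - u + y k| + 1 / 4)))) := by
      unfold lser
      refine (pnorm_mul_le _ _).trans ?_
      refine mul_le_mul ?_ hh (pnorm_nonneg _) (by positivity)
      refine (pnorm_mul_le _ _).trans ?_
      exact mul_le_mul hx (pnorm_dser_inv_le L e u) (pnorm_nonneg _) (by positivity)
    refine (mul_le_mul h64 hl (pnorm_nonneg _) (by norm_num)).trans (le_of_eq ?_)
    ring
  · rw [Rat.cast_zero, abs_zero]
    positivity

end Pool.Agent.Z9
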