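import Pool.Agent.Z9.ArchData
import Pool.Agent.Z5.ArchNum

/-! The hypotheses `ArchHyp` for the reference densities `XX`, `ZZ` (pole order `10`, `M = 4`,
`s = s' = 6`), and the value of the archimedean constant.  Seat: helper6. -/

open Finset

namespace Pool.Agent.Z9

open Pool.Agent.Z5 (Ref NRef Repr Trm cellsOk tailOk HH GG Gam gF gR poleU poleV primF archConst
  gsum cellsOk_sound tailOk_sound csPos csNeg ggT ggT_eq lcomb lcomb_append lcomb_le lcNz lcUp
  nd' nd'_cast GG_abs enL_eq vL_eq logHi logLo)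

/-- the constant profile -/
def E10 : ℕ → ℕ := fun _ => 10

theorem poleU_ten (z : ℝ) : poleU 4 E10 z = -10 * Gam 2 z := by
  simp only [poleU, E10, Gam, Finset.sum_range_succ, Finset.sum_range_zero]
  push_cast
  ring_nf

theorem poleV_ten (z : ℝ) : poleV 4 E10 z = 10 * (GG (z + 2) - GG (z - 2)) := by
  simp only [poleV, E10, Finset.sum_range_succ, Finset.sum_range_zero]
  push_cast
  ring_nf

theorem XX_U (z : ℝ) : XX.U z = ∑ i ∈ range 6, (((cX.getD i 0 : ℕ) : ℝ) / 1000) *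
    (Gam (((eX.getD i 0 : ℕ) : ℝ) / 200) z - Gam (((eX.getD (i + 1) 0 : ℕ) : ℝ) / 200) z) := by
  rw [Pool.Agent.Z5.Ref.U_eq_Gam]
  refine Finset.sum_congr rfl fun i _ => ?_
  simp [XX]

theorem ZZ_U (z : ℝ) : ZZ.U z = ∑ i ∈ range 4, (((cZ.getD i 0 : ℕ) : ℝ) / 1000) *
    (Gam (((eZ.getD i 0 : ℕ) : ℝ) / 200) z - Gam (((eZ.getD (i + 1) 0 : ℕ) : ℝ) / 200) z) := by
  rw [Pool.Agent.Z5.Ref.U_eq_Gam]
  refine Finset.sum_congr rfl fun i _ => ?_
  simp [ZZ]

theorem gF_eq (z : ℝ) : gF 4 E10 XX ZZ z = gsum 200 1000 tsF z := by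
  have h3 : Gam 2 z = Gam (400 / 200) z := by norm_num
  rw [gF, XX_U, ZZ_U, poleU_ten, h3]
  simp only [Finset.sum_range_succ, Finset.sum_range_zero, gsum, tsF, Pool.Agent.Z5.Trm.co, List.map_cons,
    List.map_nil, List.sum_cons, List.sum_nil, eX, cX, eZ, cZ, List.getD_cons_zero,
    List.getD_cons_succ, Bool.false_eq_true, if_false, if_true]
  push_cast
  simp only [zero_div, Pool.Agent.Z5.Gam_zero]
  ring

theorem gR_eq (z : ℝ) : gR 4 E10 XX ZZ z = gsum 200 1000 tsR z := by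
  have h3 : Gam 2 z = Gam (400 / 200) z := by norm_num
  rw [gR, XX_U, ZZ_U, poleU_ten, h3]
  simp only [Finset.sum_range_succ, Finset.sum_range_zero, gsum, tsR, Pool.Agent.Z5.Trm.co, List.map_cons,
    List.map_nil, List.sum_cons, List.sum_nil, eX, cX, eZ, cZ, List.getD_cons_zero,
    List.getD_cons_succ, Bool.false_eq_true, if_false, if_true]
  push_cast
  simp only [zero_div, Pool.Agent.Z5.Gam_zero]
  ring

theorem gFm_eq (z : ℝ) : -gF 4 E10 XX ZZ z = gsum 200 1000 tsFm z := by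
  have h3 : Gam 2 z = Gam (400 / 200) z := by norm_num
  rw [gF, XX_U, ZZ_U, poleU_ten, h3]
  simp only [Finset.sum_range_succ, Finset.sum_range_zero, gsum, tsFm, Pool.Agent.Z5.Trm.co, List.map_cons,
    List.map_nil, List.sum_cons, List.sum_nil, eX, cX, eZ, cZ, List.getD_cons_zero,
    List.getD_cons_succ, Bool.false_eq_true, if_false, if_true]
  push_cast
  simp only [zero_div, Pool.Agent.Z5.Gam_zero]
  ring

/-- level of the `F` rows -/
noncomputable def lF10 : ℝ := -2777658 / 200000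
/-- level of the `ρ` rows -/
noncomputable def lR10 : ℝ := 3899960 / 200000
/-- allowance in the saturated zone -/
noncomputable def eta10 : ℝ := 6240 / 200000

theorem isProf_E10 : IsProf 3 E10 where
  pos := fun _ _ => by simp [E10]
  le := fun _ _ => by simp [E10]
  symm := fun _ _ => rfl
  even := by simp [E10]; decide

theorem archHyp_num : ArchHyp 4 E10 XX ZZ lF10 lR10 eta10 where
  hM := by norm_num
  prof := isProf_E10
  hX0 := by
    show (((eX.getD 0 0 : ℕ) : ℚ) / 200) = ((4 : ℕ) : ℚ) / 2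
    simp only [eX, List.getD_cons_zero]; norm_num
  hX1 := by
    show (((cX.getD 0 0 : ℕ) : ℚ) / 1000) = 1
    simp only [cX, List.getD_cons_zero]; norm_num
  hXB := by show 2 ≤ 6; norm_num
  hZ := by
    show (((eZ.getD 4 0 : ℕ) : ℚ) / 200) < ((4 : ℕ) : ℚ) / 2
    simp only [eZ, List.getD_cons_zero, List.getD_cons_succ]; norm_num
  hdeg := by
    show 4 * 6 + 2 * 6 < ∑ m ∈ range 4, E10 m
    simp [E10]
  hF := by
    intro z hz
    have hz' : ((1143 : ℕ) : ℝ) / ((200 : ℕ) : ℝ) ≤ z := by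
      refine le_trans (le_of_eq ?_) hz
      show _ = ((((eX.getD 1 0 : ℕ) : ℚ) / 200 : ℚ) : ℝ)
      simp only [eX, List.getD_cons_zero, List.getD_cons_succ]; push_cast; rfl
    rw [gF_eq]
    by_cases h : z ≤ ((6587 : ℕ) : ℝ) / ((200 : ℕ) : ℝ)
    · have := cellsOk_sound 200 1000 (by norm_num) (by norm_num) tsF 0 2777658 cellsF 1143 okF z hz' h
        (by simp [cellsF])
      refine this.trans (le_of_eq ?_)
      rw [lF10]; norm_num
    · have h' := (lt_of_not_ge h).le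
      have := tailOk_sound 200 1000 (by norm_num) (by norm_num) tsF 0 2777658 6587 (by norm_num) okT z h'
      have hlog : 0 ≤ Real.log (z / (((6587 : ℕ) : ℝ) / ((200 : ℕ) : ℝ))) := by
        apply Real.log_nonneg
        rw [le_div_iff₀ (by norm_num), one_mul]
        exact h'
      have hK : (0 : ℝ) ≤ 2 * ((csPos tsF : ℝ) - csNeg tsF) / (((200 : ℕ) : ℝ) * ((1000 : ℕ) : ℝ)) := by
        have : csNeg tsF ≤ csPos tsF := by decide +kernel
        have : (csNeg tsF : ℝ) ≤ csPos tsF := by exact_mod_cast this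
        apply div_nonneg <;> [linarith; positivity]
      have h2 := mul_nonneg hK hlog
      have h3 : (((0 : ℕ) : ℝ) - ((2777658 : ℕ) : ℝ)) / (((200 : ℕ) : ℝ) * ((1000 : ℕ) : ℝ)) = lF10 := by
        rw [lF10]; norm_num
      rw [h3] at this
      linarith
  hR := by
    intro z hz0 hz
    rw [gR_eq]
    have := cellsOk_sound 200 1000 (by norm_num) (by norm_num) tsR 3899960 0 cellsR 0 okR z
      (by simpa using hz0) (by
        refine hz.trans ?_
        show ((4 : ℕ) : ℝ) / 2 ≤ ((400 : ℕ) : ℝ) / ((200 : ℕ) : ℝ)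
        norm_num) (by simp [cellsR])
    refine this.trans (le_of_eq ?_)
    rw [lR10]; norm_num
  hη := by rw [eta10]; norm_num
  hS := by
    intro z hz0 hz
    have h0 : ((400 : ℕ) : ℝ) / ((200 : ℕ) : ℝ) ≤ z := by
      refine le_trans (le_of_eq ?_) hz0
      show _ = ((((eX.getD 0 0 : ℕ) : ℚ) / 200 : ℚ) : ℝ)
      simp only [eX, List.getD_cons_zero]; push_cast; rfl
    have h1 : z ≤ ((1143 : ℕ) : ℝ) / ((200 : ℕ) : ℝ) := by
      refine hz.trans (le_of_eq ?_)
      show ((((eX.getD 1 0 : ℕ) : ℚ) / 200 : ℚ) : ℝ) = _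
      simp only [eX, List.getD_cons_zero, List.getD_cons_succ]; push_cast; rfl
    have := cellsOk_sound 200 1000 (by norm_num) (by norm_num) tsFm 2783898 0 cellsS 400 okS z h0 h1
      (by simp [cellsS])
    rw [← gFm_eq] at this
    have h3 : lF10 - eta10 = -((((2783898 : ℕ) : ℝ) - ((0 : ℕ) : ℝ)) / (((200 : ℕ) : ℝ) * ((1000 : ℕ) : ℝ))) := by
      rw [lF10, eta10]; norm_num
    rw [h3]
    linarith

/-! ### The constant -/

/-- pole terms: `4 D² Dc k poleV (Z/D)`, `D = 200` -/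
def poleL (k : ℤ) (Z : ℕ) : List (ℤ × ℕ) :=
  [ggT (10 * k) (Z + 400), ggT (-(10 * k)) (nd' Z 400)]

theorem poleL_eq (k : ℤ) (Z : ℕ) :
    4 * ((200 : ℕ) : ℝ) ^ 2 * k * poleV 4 E10 ((Z : ℝ) / ((200 : ℕ) : ℝ)) =
      lcomb (poleL k Z) - (2 * Real.log ((200 : ℕ) : ℝ) + 3) * (10 * k * (4 * 400 * Z)) := by
  rw [poleV_ten]
  have e1 : GG ((Z : ℝ) / ((200 : ℕ) : ℝ) + 2) = GG (((Z + 400 : ℕ) : ℝ) / ((200 : ℕ) : ℝ)) := by
    congr 1; push_cast; ring
  have e2 : GG ((Z : ℝ) / ((200 : ℕ) : ℝ) - 2) = GG (((nd' Z 400 : ℕ) : ℝ) / ((200 : ℕ) : ℝ)) := by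
    rw [nd'_cast, ← GG_abs]
    congr 1
    rw [show (Z : ℝ) / ((200 : ℕ) : ℝ) - 2 = ((Z : ℝ) - ((400 : ℕ) : ℝ)) / ((200 : ℕ) : ℝ) by
      push_cast; ring, abs_div]
    simp
  rw [e1, e2]
  have h1 := ggT_eq 200 (by norm_num) (10 * k) (Z + 400)
  have h2 := ggT_eq 200 (by norm_num) (-(10 * k)) (nd' Z 400)
  have q2 : ((nd' Z 400 : ℕ) : ℝ) ^ 2 = ((Z : ℝ) - 400) ^ 2 := by rw [nd'_cast, sq_abs]; norm_num
  rw [q2] at h2
  simp only [lcomb, poleL, List.map_cons, List.map_nil, List.sum_cons, List.sum_nil]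
  push_cast at h1 h2 ⊢
  linear_combination h1 + h2

/-- all log terms of `4 D² Dc² archConst` -/
def constL : List (ℤ × ℕ) :=
  NX.enL NX (-1) ++ (NX.enL NZ (-1) ++ (NZ.enL NZ (-1) ++
  (NX.vL 2000 1143 ++ (NX.vL (-2000) 400 ++ (NZ.vL 1000 1143 ++ (NZ.vL (-1000) 400 ++
  (poleL (-1000000) 1143 ++ (poleL 1000000 400 ++
  [(34560000000000, 2), (36937600000000, 200)]))))))))

theorem massX : NX.mass NX.B = 1200000 := by decide +kernel

theorem massZ : NZ.mass NZ.B = 1200000 := by decide +kernel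

theorem constL_eq : 160000000000 * archConst 4 E10 XX ZZ lF10 lR10 eta10 =
    lcomb constL + 69067194456000 := by
  have e1 : (XX.ed 1 : ℝ) = ((1143 : ℕ) : ℝ) / ((200 : ℕ) : ℝ) := by
    show ((((eX.getD 1 0 : ℕ) : ℚ) / 200 : ℚ) : ℝ) = _
    simp only [eX, List.getD_cons_zero, List.getD_cons_succ]; push_cast; rfl
  have e0 : (XX.ed 0 : ℝ) = ((400 : ℕ) : ℝ) / ((200 : ℕ) : ℝ) := by
    show ((((eX.getD 0 0 : ℕ) : ℚ) / 200 : ℚ) : ℝ) = _
    simp only [eX, List.getD_cons_zero]; push_cast; rfl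
  have eXX := enL_eq (D := 200) (Dc := 1000) (by norm_num) (by norm_num) reprX reprX (-1)
  have eXZ := enL_eq (D := 200) (Dc := 1000) (by norm_num) (by norm_num) reprX reprZ (-1)
  have eZZ := enL_eq (D := 200) (Dc := 1000) (by norm_num) (by norm_num) reprZ reprZ (-1)
  have vX1 := vL_eq (D := 200) (Dc := 1000) (by norm_num) (by norm_num) reprX 2000 1143
  have vX0 := vL_eq (D := 200) (Dc := 1000) (by norm_num) (by norm_num) reprX (-2000) 400
  have vZ1 := vL_eq (D := 200) (Dc := 1000) (by norm_num) (by norm_num) reprZ 1000 1143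
  have vZ0 := vL_eq (D := 200) (Dc := 1000) (by norm_num) (by norm_num) reprZ (-1000) 400
  have p1 := poleL_eq (-1000000) 1143
  have p0 := poleL_eq 1000000 400
  rw [massX] at eXX vX1 vX0
  rw [massZ] at eZZ vZ1 vZ0
  rw [massX, massZ] at eXZ
  have hs : (XX.s : ℝ) = 6 := by show ((6 : ℕ) : ℝ) = 6; norm_num
  have hs' : (ZZ.s : ℝ) = 6 := by show ((6 : ℕ) : ℝ) = 6; norm_num
  have h4 : Real.log 4 = 2 * Real.log ((2 : ℕ) : ℝ) := by
    rw [show (4 : ℝ) = 2 ^ 2 by norm_num, Real.log_pow]; push_cast; ring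
  have hL : lcomb constL = lcomb (NX.enL NX (-1)) + lcomb (NX.enL NZ (-1)) +
      lcomb (NZ.enL NZ (-1)) + lcomb (NX.vL 2000 1143) + lcomb (NX.vL (-2000) 400) +
      lcomb (NZ.vL 1000 1143) + lcomb (NZ.vL (-1000) 400) + lcomb (poleL (-1000000) 1143) +
      lcomb (poleL 1000000 400) + 34560000000000 * Real.log ((2 : ℕ) : ℝ) +
      36937600000000 * Real.log ((200 : ℕ) : ℝ) := by
    unfold constL
    simp only [lcomb_append]
    simp only [lcomb, List.map_cons, List.map_nil, List.sum_cons, List.sum_nil]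
    push_cast
    ring
  rw [hL, archConst, primF, primF, e1, e0, hs, hs', h4, lF10, lR10, eta10]
  push_cast at *
  linear_combination eXX + eXZ + eZZ + vX1 + vX0 + vZ1 + vZ0 + p1 + p0

set_option maxRecDepth 1000000 in
theorem constL_nz : lcNz constL = true := by decide +kernel

set_option maxRecDepth 1000000 in
theorem constL_up : lcUp constL ≤ -18564199463491770115963903284 := by decide +kernel

/-- the archimedean constant -/
theorem archConst_num : archConst 4 E10 XX ZZ lF10 lR10 eta10 ≤ 20 := by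
  have h1 := lcomb_le constL constL_nz
  have h2 : (lcUp constL : ℝ) ≤ -18564199463491770115963903284 := by exact_mod_cast constL_up
  have h3 := constL_eq
  have h4 : lcomb constL * 2 ^ 48 ≤ -18564199463491770115963903284 := h1.trans h2
  nlinarith

/-- the certificate in the form used by the assembly -/
theorem exists_cert : ∃ (X Z : Ref) (lF lR η : ℝ), ArchHyp 4 (fun _ => 10) X Z lF lR η ∧ X.s = 6 ∧
    Z.s = 6 ∧ archConst 4 (fun _ => 10) X Z lF lR η ≤ 20 :=
  ⟨XX, ZZ, lF10, lR10, eta10, archHyp_num, rfl, rfl, archConst_num⟩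

end Pool.Agent.Z9
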