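import Pool.Agent.Z9.FEq
import Pool.Agent.Z5.DQDR

/-!
# The rational and the real determinant agree if the relation holds
-/

open Finset Matrix

namespace Pool.Agent.Z9

open Pool.Agent.Z5 (w evY F dser xser hser lser co rho Hs zt tot mono monoS dqdr_monoS)

variable {L : ℕ} {e : ℕ → ℕ}

theorem dqdr_row (he : IsProf L e) (a b : ℕ) (hd : 4 * a + 2 * b ≤ tot L e + 1) (α β : ℕ → ℚ) (θ : ℝ)
    (h : ∀ k ∈ Finset.Icc 1 4, zt (2 * k + 1) = α k + β k * θ) (i : Fin a) (j : Fin a ⊕ Fin b) :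
    F L e (mono a i * monoS a b j) = ((Ph L e α (mono a i * monoS a b j) : ℚ) : ℝ) +
      θ * ((G L e β (mono a i * monoS a b j) : ℚ) : ℝ) := by
  obtain ⟨k, hk, hk'⟩ := dqdr_monoS a b j
  have h1 : mono a i * monoS a b j = Polynomial.X ^ ((i : ℕ) + k) := by
    rw [hk', pow_add]
    rfl
  have hdeg : 2 * (Polynomial.X ^ ((i : ℕ) + k) : Polynomial ℚ).natDegree + 3 ≤ tot L e := by
    rw [Polynomial.natDegree_X_pow]
    have hi := i.2
    omega
  rw [h1, F_eq he _ hdeg, Finset.sum_congr rfl (fun k hk => by rw [h k hk])]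
  unfold Ph G
  push_cast
  rw [Finset.mul_sum, add_assoc, ← Finset.sum_add_distrib]
  congr 1
  exact Finset.sum_congr rfl fun k _ => by ring

/-- the row operations -/
noncomputable def dqdrP (a b : ℕ) (hab : a ≤ b) (θ : ℝ) :
    Matrix (Fin a ⊕ Fin b) (Fin a ⊕ Fin b) ℝ :=
  Matrix.fromBlocks 1 (Matrix.of fun (i : Fin a) (k : Fin b) =>
    if k = Fin.castLE hab i then θ else 0) 0 1

theorem dqdrP_det (a b : ℕ) (hab : a ≤ b) (θ : ℝ) : (dqdrP a b hab θ).det = 1 := by
  unfold dqdrP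
  rw [Matrix.det_fromBlocks_zero₂₁, Matrix.det_one, Matrix.det_one, mul_one]

theorem DQ_eq_DR (he : IsProf L e) (a b : ℕ) (hab : a ≤ b) (hd : 4 * a + 2 * b ≤ tot L e + 1)
    (α β : ℕ → ℚ) (θ : ℝ) (h : ∀ k ∈ Finset.Icc 1 4, zt (2 * k + 1) = α k + β k * θ) :
    ((DQ L e α β a b : ℚ) : ℝ) = DR L e β a b := by
  have h1 : ((DQ L e α β a b : ℚ) : ℝ) =
      ((Rat.castHom ℝ).mapMatrix (gmat L e α β (mono a) (mono b) (monoS a b))).det := by
    rw [← RingHom.map_det]
    rfl
  have h2 : rmat L e β (mono a) (mono b) (monoS a b) = dqdrP a b hab θ *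
      (Rat.castHom ℝ).mapMatrix (gmat L e α β (mono a) (mono b) (monoS a b)) := by
    ext i j
    rw [Matrix.mul_apply, Fintype.sum_sum_type]
    rcases i with i | i
    · have h3 : ∀ k : Fin a, dqdrP a b hab θ (Sum.inl i) (Sum.inl k) = if i = k then 1 else 0 := by
        intro k
        unfold dqdrP
        rw [Matrix.fromBlocks_apply₁₁, Matrix.one_apply]
      have h4 : ∀ k : Fin b, dqdrP a b hab θ (Sum.inl i) (Sum.inr k) =
          if k = Fin.castLE hab i then θ else 0 := by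
        intro k
        unfold dqdrP
        rw [Matrix.fromBlocks_apply₁₂, Matrix.of_apply]
      simp only [h3, h4, ite_mul, one_mul, zero_mul, Finset.sum_ite_eq, Finset.sum_ite_eq',
        Finset.mem_univ, if_true]
      exact dqdr_row he a b hd α β θ h i j
    · have h3 : ∀ k : Fin a, dqdrP a b hab θ (Sum.inr i) (Sum.inl k) = 0 := by
        intro k
        unfold dqdrP
        rw [Matrix.fromBlocks_apply₂₁, Matrix.zero_apply]
      have h4 : ∀ k : Fin b, dqdrP a b hab θ (Sum.inr i) (Sum.inr k) = if i = k then 1 else 0 := by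
        intro k
        unfold dqdrP
        rw [Matrix.fromBlocks_apply₂₂, Matrix.one_apply]
      simp only [h3, h4, ite_mul, one_mul, zero_mul, Finset.sum_ite_eq, Finset.sum_const_zero,
        Finset.mem_univ, if_true, zero_add]
      rfl
  unfold DR
  rw [h1, h2, Matrix.det_mul, dqdrP_det, one_mul]

end Pool.Agent.Z9
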