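import Pool.Agent.Z5.Defs

/-!
# Linear independence in `{1, ζ(3), ζ(5), ζ(7), ζ(9)}`: definitions

Pole orders are at most `10`.  A vector of coefficients is a function `β : ℕ → ℚ`; the index
`k ∈ {1, 2, 3, 4}` stands for `ζ(2 k + 1)` and `ρ_{2 k + 1}`.  The weight, the functional `F`, the
coefficients `co` and `rho` are those of `Pool.Agent.Z5.Defs`, which has no bound on the pole orders.
-/

open Finset

namespace Pool.Agent.Z9

open Pool.Agent.Z5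

/-- A profile: pole order `e u ∈ [1, 10]` at `t = -u`, `u = 0, …, L`, symmetric, even total order. -/
structure IsProf (L : ℕ) (e : ℕ → ℕ) : Prop where
  pos : ∀ u ≤ L, 1 ≤ e u
  le : ∀ u ≤ L, e u ≤ 10
  symm : ∀ u ≤ L, e (L - u) = e u
  even : Even (∑ u ∈ range (L + 1), e u)

/-- constant term -/
noncomputable def rho0 (L : ℕ) (e : ℕ → ℕ) (h : Polynomial ℚ) : ℚ :=
  - ∑ u ∈ range (L + 1), ∑ i ∈ Finset.Icc 1 10, co L e h u i * Hs i u

/-- `∑ β_k ρ_{2 k + 1}`, `k = 1, …, 4` -/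
noncomputable def G (L : ℕ) (e : ℕ → ℕ) (β : ℕ → ℚ) (h : Polynomial ℚ) : ℚ :=
  ∑ k ∈ Finset.Icc 1 4, β k * rho L e (2 * k + 1) h

/-- `ρ₀ + ∑ α_k ρ_{2 k + 1}` -/
noncomputable def Ph (L : ℕ) (e : ℕ → ℕ) (α : ℕ → ℚ) (h : Polynomial ℚ) : ℚ :=
  rho0 L e h + G L e α h

variable {ι κ τ : Type*}

/-- the mixed matrix for general families of polynomials: rows `Φ(φ_i ψ_j)` and `G(χ_i ψ_j)` -/
noncomputable def gmat (L : ℕ) (e : ℕ → ℕ) (α β : ℕ → ℚ) (φ : ι → Polynomial ℚ)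
    (χ : κ → Polynomial ℚ) (ψ : τ → Polynomial ℚ) : Matrix (ι ⊕ κ) τ ℚ :=
  Matrix.of fun i j => Sum.elim (fun a => Ph L e α (φ a * ψ j)) (fun b => G L e β (χ b * ψ j)) i

/-- the same with the real functional `F` instead of `Φ` -/
noncomputable def rmat (L : ℕ) (e : ℕ → ℕ) (β : ℕ → ℚ) (φ : ι → Polynomial ℚ)
    (χ : κ → Polynomial ℚ) (ψ : τ → Polynomial ℚ) : Matrix (ι ⊕ κ) τ ℝ :=
  Matrix.of fun i j =>
    Sum.elim (fun a => F L e (φ a * ψ j)) (fun b => (G L e β (χ b * ψ j) : ℝ)) i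

/-- the mixed determinant (rational) -/
noncomputable def DQ (L : ℕ) (e : ℕ → ℕ) (α β : ℕ → ℚ) (a b : ℕ) : ℚ :=
  (gmat L e α β (mono a) (mono b) (monoS a b)).det

/-- the mixed determinant (real) -/
noncomputable def DR (L : ℕ) (e : ℕ → ℕ) (β : ℕ → ℚ) (a b : ℕ) : ℝ :=
  (rmat L e β (mono a) (mono b) (monoS a b)).det

/-- the unit vector -/
def uv (k0 : ℕ) : ℕ → ℚ := fun k => if k = k0 then 1 else 0

end Pool.Agent.Z9
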