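import Pool.Agent.Z9.NVMain
import Pool.Agent.Z9.NVBase

/-!
# Non-vanishing for the design `M = 4`, `e = 10`, `s = s' = 6`
-/

open Finset

namespace Pool.Agent.Z9

theorem isProf_ten' (L : ℕ) : IsProf L (fun _ => 10) :=
  ⟨fun _ _ => by norm_num, fun _ _ => le_refl _, fun _ _ => rfl, by
    rw [Finset.sum_const, smul_eq_mul]; exact Even.mul_left (by decide) _⟩

/-- if `β 2 ≠ 0` then for all large primes `p` the determinant `DQ (4 p - 1) 10 α β (6 p) (6 p)`
does not vanish -/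
theorem nonvanishing_ten (α β : ℕ → ℚ) (hβ : β 2 ≠ 0) : ∃ p0 : ℕ, ∀ p : ℕ, p.Prime → p0 ≤ p →
    DQ (4 * p - 1) (fun _ => 10) α β (6 * p) (6 * p) ≠ 0 := by
  by_cases h1 : β 1 = 0
  · refine nonvanishing 4 (fun _ => 10) 6 6 (by norm_num) (isProf_ten' 3) (by decide) (le_refl _)
      α β 2 (by decide) hβ (fun k hk hk2 => ?_) NV.base_ne_zero.2
    have hk1 : k = 1 := by
      have := (Finset.mem_Icc.mp hk).1
      omega
    rw [hk1]; exact h1
  · refine nonvanishing 4 (fun _ => 10) 6 6 (by norm_num) (isProf_ten' 3) (by decide) (le_refl _)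
      α β 1 (by decide) h1 (fun k hk hk2 => ?_) NV.base_ne_zero.1
    have := (Finset.mem_Icc.mp hk).1
    omega

end Pool.Agent.Z9
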