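import Pool.Agent.Z9.MainArith
import Pool.Agent.Z9.ArchMain
import Pool.Agent.Z9.ArchNum
import Pool.Agent.Z9.DQDR
import Pool.Agent.Z9.NVTen
import Pool.Agent.Z5.Main

/-!
# At least three of `1, ζ(3), ζ(5), ζ(7), ζ(9)` are linearly independent over `ℚ`
-/

open Finset Filter

namespace Pool.Agent.Z9

open Pool.Agent.Z5 (Ref archConst kap zt tot eventually_small)

theorem ariConst_gt : (21 : ℝ) < ariConst := by
  have h2 := Real.log_two_lt_d9
  have h2' := Real.log_two_gt_d9
  have h3 : 84 * Real.log 2 < 53 * Real.log 3 := by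
    have h := Real.log_lt_log (by norm_num : (0 : ℝ) < 2 ^ 84)
      (by norm_num : (2 : ℝ) ^ 84 < 3 ^ 53)
    rw [Real.log_pow, Real.log_pow] at h
    exact_mod_cast h
  unfold ariConst
  norm_num at h2 h2' ⊢
  linarith

theorem not_relation (α β : ℕ → ℚ) (θ : ℝ) (hβ : β 2 ≠ 0)
    (h : ∀ k ∈ Finset.Icc 1 4, zt (2 * k + 1) = α k + β k * θ) : False := by
  obtain ⟨X, Z, lF, lR, η, hcert, hXs, hZs, hA⟩ := exists_cert
  obtain ⟨C, p1, hup⟩ := arch_main hcert β
  obtain ⟨p2, hnv⟩ := nonvanishing_ten α β hβ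
  have hlow := ari α β (1 / 100) (by norm_num)
  have hsm := eventually_small C (1 / 100) (by norm_num)
  obtain ⟨p3, h3⟩ := eventually_atTop.1 (hlow.and (hsm.and (eventually_ge_atTop 1)))
  obtain ⟨p, hp, hprime⟩ := Nat.exists_infinite_primes (max p1 (max p2 p3))
  have hp1 : p1 ≤ p := (le_max_left _ _).trans hp
  have hp2 : p2 ≤ p := (le_max_left _ _).trans ((le_max_right _ _).trans hp)
  have hp3 : p3 ≤ p := (le_max_right _ _).trans ((le_max_right _ _).trans hp)
  obtain ⟨h4, h5, h6⟩ := h3 p hp3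
  have hD := hnv p hprime hp2
  have h7 := h4 hD
  have h8 := hup p hp1
  rw [hXs, hZs] at h8
  have hprof : IsProf (4 * p - 1) (fun _ => 10) :=
    ⟨fun _ _ => by norm_num, fun _ _ => le_rfl, fun _ _ => rfl, by
      rw [sum_const, smul_eq_mul]; exact Even.mul_left (by decide) _⟩
  have h9 := DQ_eq_DR hprof (6 * p) (6 * p) le_rfl (by
    unfold tot
    rw [sum_const, card_range, smul_eq_mul]
    omega) α β θ h
  have h10 : |((DQ (4 * p - 1) (fun _ => 10) α β (6 * p) (6 * p) : ℚ) : ℝ)| ≤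
      Real.exp (kap 4 (fun _ => 10) 6 6 * p ^ 2 * Real.log p
        + archConst 4 (fun _ => 10) X Z lF lR η * p ^ 2 + C * p * Real.log p) := by
    rw [h9]
    exact h8
  have h11 : Real.log |((DQ (4 * p - 1) (fun _ => 10) α β (6 * p) (6 * p) : ℚ) : ℝ)| ≤
      kap 4 (fun _ => 10) 6 6 * p ^ 2 * Real.log p
        + archConst 4 (fun _ => 10) X Z lF lR η * p ^ 2 + C * p * Real.log p := by
    have h12 := Real.log_le_log (abs_pos.2 (by exact_mod_cast hD)) h10
    rwa [Real.log_exp] at h12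
  have hk : kap 4 (fun _ => 10) 6 6 = -264 := by
    unfold kap
    rw [sum_const, card_range]
    norm_num
  rw [hk] at h11
  have hP := ariConst_gt
  have hp0 : (0 : ℝ) < (p : ℝ) ^ 2 := by
    have : (0 : ℝ) < p := by exact_mod_cast h6
    positivity
  have h13 : (ariConst - 1 / 100 - archConst 4 (fun _ => 10) X Z lF lR η - 1 / 100)
      * (p : ℝ) ^ 2 ≤ 0 := by
    nlinarith
  have h14 : 0 < (ariConst - 1 / 100 - archConst 4 (fun _ => 10) X Z lF lR η - 1 / 100) := by
    norm_num at hA hP ⊢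
    linarith
  have h15 := mul_pos h14 hp0
  linarith

/-- for every real `x` one of `ζ(3), ζ(5), ζ(7), ζ(9)` is not in `ℚ + ℚ x` -/
theorem exists_not_mem (x : ℝ) : ∃ k ∈ Finset.Icc 1 4, ∀ a b : ℚ, zt (2 * k + 1) ≠ a + b * x := by
  by_contra hcon
  push Not at hcon
  choose! α β h using hcon
  refine not_relation α β x ?_ h
  intro h0
  have h5 := h 2 (by decide)
  rw [h0, Rat.cast_zero, zero_mul, add_zero] at h5
  exact Pool.Agent.Z5.irrational_zt_five ⟨α 2, h5.symm⟩

end Pool.Agent.Z9
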