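import Pool.Agent.Z9.PPG
import Pool.Agent.Z5.PK2R

/-!
# DIM39: classes with two poles, the columns lie in the lattice
-/

open Finset Polynomial

namespace Pool.Agent.Z9

open Pool.Agent.Z5 (hser Hs Col VG PG Cls yv gS zz sg2 cl SF OD)

variable {q L r K : ℕ} {α β : ℕ → ℚ} [hq : Fact q.Prime]

namespace K2

open Pool.Agent.Z5 (uz Up aeval_Up eps_sq U_sg_sq Up_PG chi_lin E_eq Eh GG2 VG_nat_inv)

theorem zzi (i : ℕ) : SG q 0 (zz i) := by
  unfold zz
  exact SG.X.sub (SG.C (VG.nat i))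

theorem uzi (i : ℕ) : SG q 1 (uz q i) := by
  have := SG.mul (SG.C (q := q) (k := 1) VG.self_prime) (zzi (q := q) i)
  exact this.mono (by norm_num)

theorem sgi (i : Fin 2) : SG q 0 (sg2 (i : ℕ)) := by
  unfold sg2
  apply SG.neg
  have h0 : PowerSeries.constantCoeff
      (1 + PowerSeries.C (1 - 2 * ((i : ℕ) : ℚ)) * PowerSeries.X) = 1 := by simp
  apply SG.inv
  · apply SG.add SG.one
    have h : VG q 0 (1 - 2 * ((i : ℕ) : ℚ)) := by
      have := VG.int (q := q) (1 - 2 * ((i : ℕ) : ℤ))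
      push_cast at this
      exact this
    have := SG.mul (SG.C h) (SG.X (q := q))
    simpa using this
  · rw [h0]; exact one_ne_zero
  · rw [h0, inv_one]; exact VG.one

theorem avi {k : ℤ} {A : ℚ[X]} (hA : PG q k A) (i : ℕ) : SG q k (aeval (uz q i) A) :=
  SG.aeval ((uzi i).mono (by norm_num)) A hA

/-! ### the ring of polynomials in `u`, modulo `q ^ 10` -/

/-- polynomials in `u = q z` modulo `q ^ 10` -/
def R (q : ℕ) (F : Fin 2 → PowerSeries ℚ) : Prop :=
  ∃ A : ℚ[X], PG q 0 A ∧ ∀ i : Fin 2, SG q 10 (F i - aeval (uz q i) A)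

omit hq in
theorem R.of_poly {A : ℚ[X]} (h : PG q 0 A) : R q (fun i => aeval (uz q i) A) :=
  ⟨A, h, fun i => by simpa using SG.zero _⟩

omit hq in
theorem R.const {x : ℚ} (h : VG q 0 x) : R q (fun _ => PowerSeries.C x) :=
  ⟨C x, PG.C h, fun i => by
    have : (PowerSeries.C x : PowerSeries ℚ) - aeval (uz q i) (C x) = 0 := by
      rw [aeval_C]
      exact sub_self _
    rw [this]; exact SG.zero _⟩

theorem R.add {F G : Fin 2 → PowerSeries ℚ} (hF : R q F) (hG : R q G) :
    R q (fun i => F i + G i) := by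
  obtain ⟨A, hA, hE⟩ := hF
  obtain ⟨A', hA', hE'⟩ := hG
  refine ⟨A + A', PG.add hA hA', fun i => ?_⟩
  have := SG.add (hE i) (hE' i)
  rw [map_add]
  convert this using 1
  ring

theorem R.sum {ι : Type*} (s : Finset ι) (F : ι → Fin 2 → PowerSeries ℚ)
    (h : ∀ j ∈ s, R q (F j)) : R q (fun i => ∑ j ∈ s, F j i) := by
  classical
  induction s using Finset.induction_on with
  | empty => exact ⟨0, PG.zero _, fun i => by simpa using SG.zero _⟩
  | insert a s ha ih =>
    simp only [Finset.sum_insert ha]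
    exact R.add (h a (Finset.mem_insert_self _ _))
      (ih fun j hj => h j (Finset.mem_insert_of_mem hj))

theorem R.int {F : Fin 2 → PowerSeries ℚ} (hF : R q F) (i : Fin 2) : SG q 0 (F i) := by
  obtain ⟨A, hA, hE⟩ := hF
  have := SG.add ((hE i).mono (l := 0) (by norm_num)) (avi hA (i : ℕ))
  convert this using 1
  ring

theorem R.mul {F G : Fin 2 → PowerSeries ℚ} (hF : R q F) (hG : R q G) :
    R q (fun i => F i * G i) := by
  have hGi := fun i => R.int hG i
  obtain ⟨A, hA, hE⟩ := hF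
  obtain ⟨A', hA', hE'⟩ := hG
  refine ⟨A * A', (PG.mul hA hA').mono (by norm_num), fun i => ?_⟩
  have h1 := SG.mul (hE i) (hGi i)
  have h2 := SG.mul (avi hA (i : ℕ)) (hE' i)
  have := SG.add (h1.mono (l := 10) (by norm_num)) (h2.mono (l := 10) (by norm_num))
  rw [map_mul]
  convert this using 1
  ring

/-- inverses of linear functions of `u` -/
theorem R.inv {m : ℚ} (hm : m ≠ 0) (h0 : VG q 0 m) (h1 : VG q 0 m⁻¹) {s : ℚ} (hs : VG q 0 s) :
    R q (fun i => (PowerSeries.C m + PowerSeries.C s * uz q i)⁻¹) := by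
  have hcc : ∀ i : Fin 2, PowerSeries.constantCoeff (PowerSeries.C m + PowerSeries.C s * uz q i) =
      m - s * q * (i : ℕ) := by
    intro i
    simp only [uz, zz, map_add, map_mul, map_sub, PowerSeries.constantCoeff_C,
      PowerSeries.constantCoeff_X]
    ring
  -- a unit
  have hval : padicValRat q m = 0 := by
    have a := h0.val hm
    have b := h1.val (inv_ne_zero hm)
    rw [padicValRat.inv] at b
    omega
  have hne : ∀ i : Fin 2, m - s * q * (i : ℕ) ≠ 0 ∧ VG q 0 (m - s * q * (i : ℕ))⁻¹ := by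
    intro i
    have hx : VG q 1 (s * q * (i : ℕ)) := by
      have := (hs.mul (VG.self_prime (q := q))).mul (VG.nat (q := q) (i : ℕ))
      simpa using this
    by_cases hx0 : s * q * (i : ℕ) = 0
    · rw [hx0, sub_zero]; exact ⟨hm, h1⟩
    · have hxv := hx.val hx0
      have hne' : m - s * q * (i : ℕ) ≠ 0 := by
        intro h
        have : m = s * q * (i : ℕ) := by linarith
        rw [← this, hval] at hxv
        omega
      refine ⟨hne', Or.inr ?_⟩
      have hadd : padicValRat q (m + -(s * q * (i : ℕ))) = padicValRat q m :=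
        padicValRat.add_eq_of_lt (by rwa [← sub_eq_add_neg]) hm (neg_ne_zero.mpr hx0)
          (by rw [padicValRat.neg]; omega)
      rw [← sub_eq_add_neg] at hadd
      rw [padicValRat.inv, hadd, hval]
      rfl
  have hinv : ∀ i : Fin 2, SG q 0 (PowerSeries.C m + PowerSeries.C s * uz q i)⁻¹ := by
    intro i
    apply SG.inv
    · apply SG.add (SG.C h0)
      have := SG.mul (SG.C hs) ((uzi (q := q) i).mono (l := 0) (by norm_num))
      simpa using this
    · rw [hcc]; exact (hne i).1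
    · rw [hcc]; exact (hne i).2
  have ht : VG q 0 (-(s * m⁻¹)) := by
    have := (hs.mul h1).neg
    simpa using this
  refine ⟨C m⁻¹ * ∑ k ∈ range 10, (C (-(s * m⁻¹)) * X) ^ k, ?_, fun i => ?_⟩
  · refine (PG.C h1).mul_int (PG.sum _ _ fun k _ => PG.pow_zero ?_ k)
    exact (PG.C ht).mul_int PG.X
  · set x : PowerSeries ℚ := PowerSeries.C (-(s * m⁻¹)) * uz q i with hx
    have haev : aeval (uz q i) (C m⁻¹ * ∑ k ∈ range 10, (C (-(s * m⁻¹)) * X) ^ k) =
        PowerSeries.C m⁻¹ * ∑ k ∈ range 10, x ^ k := by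
      rw [map_mul, map_sum, aeval_C]
      congr 1
      refine Finset.sum_congr rfl fun k _ => ?_
      rw [map_pow, map_mul, aeval_X, aeval_C]
      rfl
    have hm1 : (PowerSeries.C m : PowerSeries ℚ) * PowerSeries.C m⁻¹ = 1 := by
      rw [← map_mul, mul_inv_cancel₀ hm, map_one]
    have hlin : PowerSeries.C m + PowerSeries.C s * uz q i = PowerSeries.C m * (1 - x) := by
      rw [hx, map_neg, map_mul]
      linear_combination (-PowerSeries.C s * uz q i) * hm1
    have hgeo : (1 - x) * ∑ k ∈ range 10, x ^ k = 1 - x ^ 10 := mul_neg_geom_sum x 10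
    have hcc0 : PowerSeries.constantCoeff (PowerSeries.C m + PowerSeries.C s * uz q i) ≠ 0 := by
      rw [hcc]; exact (hne i).1
    have hmi : (PowerSeries.C m + PowerSeries.C s * uz q i)⁻¹ *
        (PowerSeries.C m + PowerSeries.C s * uz q i) = 1 := PowerSeries.inv_mul_cancel _ hcc0
    rw [haev]
    have e : (PowerSeries.C m + PowerSeries.C s * uz q i)⁻¹ -
        PowerSeries.C m⁻¹ * ∑ k ∈ range 10, x ^ k =
        (PowerSeries.C m + PowerSeries.C s * uz q i)⁻¹ * x ^ 10 := by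
      set I := (PowerSeries.C m + PowerSeries.C s * uz q i)⁻¹ with hI
      rw [hlin] at hmi
      linear_combination (PowerSeries.C m⁻¹ * ∑ k ∈ range 10, x ^ k) * hmi
        - I * hgeo - (I * (1 - x) * ∑ k ∈ range 10, x ^ k) * hm1
    rw [e]
    have hxS : SG q 1 x := by
      have := SG.mul (SG.C ht) (uzi (q := q) i)
      exact this.mono (by norm_num)
    exact (SG.mul (hinv i) (SG.pow hxS 10)).mono (by norm_num)

theorem R.lin_inv {m : ℕ} (h : ¬ q ∣ m) :
    R q (fun i => (PowerSeries.C (m : ℚ) + PowerSeries.C (1 : ℚ) * uz q i)⁻¹) :=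
  R.inv (by
    intro h0
    have : m = 0 := by exact_mod_cast h0
    exact h (this ▸ dvd_zero q)) (VG.nat m) (VG_nat_inv h) VG.one

theorem R.lin_inv' {m : ℕ} (h : ¬ q ∣ m) :
    R q (fun i => (PowerSeries.C (m : ℚ) + PowerSeries.C (-1 : ℚ) * uz q i)⁻¹) :=
  R.inv (by
    intro h0
    have : m = 0 := by exact_mod_cast h0
    exact h (this ▸ dvd_zero q)) (VG.nat m) (VG_nat_inv h) VG.one.neg

theorem R.Eh (h23 : 23 ≤ q) : R q (Z5.Eh q) := by
  have h2 : VG q 0 (1 / 2 : ℚ) := by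
    have : ¬ q ∣ 2 := fun h => by have := Nat.le_of_dvd (by norm_num) h; omega
    have := VG_nat_inv (q := q) this
    simpa using this
  unfold Z5.Eh
  refine R.mul (R.const h2) (R.sum _ _ fun m hm => ?_)
  rw [Finset.mem_Icc] at hm
  refine R.mul (R.lin_inv ?_) (R.lin_inv ?_)
  · exact fun h => by have := Nat.le_of_dvd (by omega) h; omega
  · exact fun h => by have := Nat.le_of_dvd (by omega) h; omega

/-! ### the module -/

omit hq in
theorem Adm.mono {k l : ℤ} {F : Fin 2 → PowerSeries ℚ} (h : Adm2 q k F) (hl : l ≤ k) :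
    Adm2 q l F := by
  obtain ⟨A, B, hA, hB, hE⟩ := h
  exact ⟨A, B, hA, hB.mono hl, hE⟩

theorem Adm.add {k : ℤ} {F G : Fin 2 → PowerSeries ℚ} (hF : Adm2 q k F) (hG : Adm2 q k G) :
    Adm2 q k (fun i => F i + G i) := by
  obtain ⟨A, B, hA, hB, hE⟩ := hF
  obtain ⟨A', B', hA', hB', hE'⟩ := hG
  refine ⟨A + A', B + B', PG.add hA hA', PG.add hB hB', fun i => ?_⟩
  have := SG.add (hE i) (hE' i)
  rw [map_add, map_add]
  convert this using 1
  ring

theorem Adm.neg {k : ℤ} {F : Fin 2 → PowerSeries ℚ} (hF : Adm2 q k F) :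
    Adm2 q k (fun i => -F i) := by
  obtain ⟨A, B, hA, hB, hE⟩ := hF
  refine ⟨-A, -B, PG.neg hA, PG.neg hB, fun i => ?_⟩
  have := SG.neg (hE i)
  rw [map_neg, map_neg]
  convert this using 1
  ring

theorem Adm.sub {k : ℤ} {F G : Fin 2 → PowerSeries ℚ} (hF : Adm2 q k F) (hG : Adm2 q k G) :
    Adm2 q k (fun i => F i - G i) := by
  have := Adm.add hF (Adm.neg hG)
  simpa only [sub_eq_add_neg] using this

omit hq in
theorem Adm.of_SG {k : ℤ} {F : Fin 2 → PowerSeries ℚ} (h : ∀ i, SG q 9 (F i)) :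
    Adm2 q k F :=
  ⟨0, 0, PG.zero _, PG.zero _, fun i => by simpa using h i⟩

omit hq in
theorem Adm.of_R {k : ℤ} {F : Fin 2 → PowerSeries ℚ} (h : R q F) : Adm2 q k F := by
  obtain ⟨A, hA, hE⟩ := h
  refine ⟨A, 0, hA, PG.zero _, fun i => ?_⟩
  have := (hE i).mono (l := 9) (by norm_num)
  have e : F i - (aeval (PowerSeries.C (q : ℚ) * zz i) A +
      aeval (PowerSeries.C (q : ℚ) * zz i) (0 : ℚ[X]) * sg2 i) = F i - aeval (uz q i) A := by
    simp [uz]
  rw [e]; exact this

omit hq in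
theorem Adm.of_sg {k : ℤ} {B : ℚ[X]} (h : PG q k B) :
    Adm2 q k (fun i => aeval (uz q i) B * sg2 i) :=
  ⟨0, B, PG.zero _, h, fun i => by
    have : (aeval (uz q i) B * sg2 i) - (aeval (PowerSeries.C (q : ℚ) * zz i) (0 : ℚ[X]) +
        aeval (PowerSeries.C (q : ℚ) * zz i) B * sg2 i) = 0 := by
      simp [uz]
    rw [this]; exact SG.zero _⟩

theorem Adm.SG {k : ℤ} (hk : -1 ≤ k) {F : Fin 2 → PowerSeries ℚ} (h : Adm2 q k F) (i : Fin 2) :
    SG q (-1) (F i) := by
  obtain ⟨A, B, hA, hB, hE⟩ := h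
  have h1 := avi hA (i : ℕ)
  have h2 := SG.mul (avi hB (i : ℕ)) (sgi (q := q) i)
  have h3 := SG.add (SG.add ((hE i).mono (l := -1) (by omega)) (h1.mono (l := -1) (by omega)))
    (h2.mono (l := -1) (by omega))
  convert h3 using 1
  simp only [uz]
  ring

/-- `Adm2` is stable under `R` -/
theorem Adm.mul {k : ℤ} (hk : -1 ≤ k) {F G : Fin 2 → PowerSeries ℚ} (hF : R q F)
    (hG : Adm2 q k G) : Adm2 q k (fun i => F i * G i) := by
  have hGi := fun i => Adm.SG hk hG i
  obtain ⟨A, hA, hE⟩ := hF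
  obtain ⟨A', B', hA', hB', hE'⟩ := hG
  refine ⟨A * A', A * B', hA.mul_int hA', hA.int_mul hB', fun i => ?_⟩
  have h1 := SG.mul (hE i) (hGi i)
  have h2 := SG.mul (avi hA (i : ℕ)) (hE' i)
  have := SG.add (h1.mono (l := 9) (by omega)) (h2.mono (l := 9) (by omega))
  rw [map_mul, map_mul]
  convert this using 1
  simp only [uz]
  ring

/-- multiplication by a polynomial in `u` of valuation `a ≥ 0` -/
theorem Adm.poly_mul {a k : ℤ} (ha : 0 ≤ a) {A : ℚ[X]} (hA : PG q a A)
    {G : Fin 2 → PowerSeries ℚ} (hG : Adm2 q k G) :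
    Adm2 q (a + k) (fun i => aeval (uz q i) A * G i) := by
  obtain ⟨A', B', hA', hB', hE'⟩ := hG
  refine ⟨A * A', A * B', (hA.mul_int hA').mono ha, hA.mul hB', fun i => ?_⟩
  have h2 := SG.mul (avi hA (i : ℕ)) (hE' i)
  have := h2.mono (l := 9) (by omega)
  rw [map_mul, map_mul]
  convert this using 1
  simp only [uz]
  ring

/-! ### the ring generated by `ε ^ 2` -/

/-- `A(u) + B(u) U σ`, `U = u (u + q)` -/
def S (q : ℕ) (F : Fin 2 → PowerSeries ℚ) : Prop :=
  ∃ A B : ℚ[X], PG q 0 A ∧ PG q 0 B ∧ ∀ i : Fin 2, F i =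
    aeval (uz q i) A + aeval (uz q i) B * aeval (uz q i) (Up q) * sg2 (i : ℕ)

omit hq in
theorem S.const {x : ℚ} (h : VG q 0 x) : S q (fun _ => PowerSeries.C x) :=
  ⟨C x, 0, PG.C h, PG.zero _, fun i => by
    rw [aeval_C, map_zero, zero_mul, zero_mul, add_zero]; rfl⟩

theorem S.add {F G : Fin 2 → PowerSeries ℚ} (hF : S q F) (hG : S q G) :
    S q (fun i => F i + G i) := by
  obtain ⟨A, B, hA, hB, hE⟩ := hF
  obtain ⟨A', B', hA', hB', hE'⟩ := hG
  refine ⟨A + A', B + B', PG.add hA hA', PG.add hB hB', fun i => ?_⟩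
  show F i + G i = _
  rw [hE i, hE' i, map_add, map_add]
  ring

theorem S.mul {F G : Fin 2 → PowerSeries ℚ} (hF : S q F) (hG : S q G) :
    S q (fun i => F i * G i) := by
  obtain ⟨A, B, hA, hB, hE⟩ := hF
  obtain ⟨A', B', hA', hB', hE'⟩ := hG
  have hq2 : VG q 0 ((q : ℚ) ^ 2) := (VG.nat (q := q) q).pow_zero 2
  have hBB : PG q 0 (C ((q : ℚ) ^ 2) * (B * B')) := (PG.C hq2).mul_int (hB.mul_int hB')
  refine ⟨A * A' + C ((q : ℚ) ^ 2) * (B * B') * Up q,
    A * B' + A' * B + C ((q : ℚ) ^ 2) * (B * B'), PG.add (hA.mul_int hA') (hBB.mul_int Up_PG),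
    PG.add (PG.add (hA.mul_int hB') (hA'.mul_int hB)) hBB, fun i => ?_⟩
  have h := U_sg_sq (q := q) i
  have e : aeval (uz q (i : ℕ)) (C ((q : ℚ) ^ 2) : ℚ[X]) = PowerSeries.C (q : ℚ) ^ 2 := by
    rw [aeval_C, ← map_pow]; rfl
  show F i * G i = _
  rw [hE i, hE' i]
  simp only [map_add, map_mul, e]
  linear_combination (aeval (uz q (i : ℕ)) B * aeval (uz q (i : ℕ)) B' *
    aeval (uz q (i : ℕ)) (Up q)) * h

theorem S.one : S q (fun _ => 1) := by
  have := S.const (q := q) VG.one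
  simpa using this

theorem S.pow {F : Fin 2 → PowerSeries ℚ} (hF : S q F) (n : ℕ) : S q (fun i => F i ^ n) := by
  induction n with
  | zero => simpa using S.one
  | succ n ih => simp only [pow_succ]; exact S.mul ih hF

theorem S.sum {ι : Type*} (s : Finset ι) (F : ι → Fin 2 → PowerSeries ℚ)
    (h : ∀ j ∈ s, S q (F j)) : S q (fun i => ∑ j ∈ s, F j i) := by
  classical
  induction s using Finset.induction_on with
  | empty => exact ⟨0, 0, PG.zero _, PG.zero _, fun i => by simp⟩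
  | insert a s ha ih =>
    simp only [Finset.sum_insert ha]
    exact S.add (h a (Finset.mem_insert_self _ _))
      (ih fun j hj => h j (Finset.mem_insert_of_mem hj))

theorem S.eps : S q (fun _ => (PowerSeries.C (q : ℚ) * PowerSeries.X) ^ 2) :=
  ⟨Up q, 1, Up_PG, PG.one, fun i => by rw [eps_sq i, map_one, one_mul]⟩

theorem S.adm {F : Fin 2 → PowerSeries ℚ} (h : S q F) : Adm2 q 0 F := by
  obtain ⟨A, B, hA, hB, hE⟩ := h
  refine ⟨A, B * Up q, hA, hB.mul_int Up_PG, fun i => ?_⟩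
  have : F i - (aeval (PowerSeries.C (q : ℚ) * zz i) A +
      aeval (PowerSeries.C (q : ℚ) * zz i) (B * Up q) * sg2 i) = 0 := by
    rw [hE i, map_mul]
    exact sub_self _
  rw [this]; exact SG.zero _

omit hq in
theorem rescale_kerQ (β : ℕ → ℚ) : PowerSeries.rescale (q : ℚ) (kerQ β) =
    ∑ k ∈ Finset.Icc 1 4, PowerSeries.C (β k) *
      ((PowerSeries.C (q : ℚ) * PowerSeries.X) ^ 2) ^ k := by
  unfold kerQ
  rw [map_sum]
  refine Finset.sum_congr rfl fun k _ => ?_
  rw [map_mul, map_pow, PowerSeries.rescale_X, ← pow_mul]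
  congr 1
  ext n
  rw [PowerSeries.coeff_rescale, PowerSeries.coeff_C]
  split_ifs with h
  · rw [h, pow_zero, one_mul]
  · rw [mul_zero]

theorem S.kerQ (hβ : VI q β) : S q (fun _ => PowerSeries.rescale (q : ℚ) (Z9.kerQ β)) := by
  simp only [rescale_kerQ]
  exact S.sum _ _ fun k hk => S.mul (S.const (hβ k hk)) (S.pow S.eps k)

/-! ### the kernel -/

omit hq in
/-- the first coefficients of the scaled kernel -/
theorem coeff_ker (u : ℕ) (n : ℕ) (hn : n < 10) :
    PowerSeries.coeff n (PowerSeries.rescale (q : ℚ) (kerP L α u)) =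
    PowerSeries.coeff n (-(∑ m ∈ Icc 1 u,
        (PowerSeries.C (m : ℚ) + PowerSeries.C (-(q : ℚ)) * PowerSeries.X)⁻¹ +
      ∑ m ∈ Icc 1 (L - u), (PowerSeries.C (m : ℚ) + PowerSeries.C (q : ℚ) * PowerSeries.X)⁻¹) +
      2 * PowerSeries.rescale (q : ℚ) (Z9.kerQ α)) := by
  have e1 : ∑ m ∈ Icc 1 u, PowerSeries.coeff n
      (PowerSeries.C (m : ℚ) + PowerSeries.C (-(q : ℚ)) * PowerSeries.X)⁻¹ =
      (q : ℚ) ^ n * Hs (n + 1) u := by
    rw [Hs, Finset.mul_sum]
    refine Finset.sum_congr rfl fun m hm => ?_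
    have : (m : ℚ) ≠ 0 := by
      have := (Finset.mem_Icc.mp hm).1
      exact_mod_cast (by omega : m ≠ 0)
    rw [Z5.coeff_lin_inv this, neg_neg, inv_pow, one_div]
  have e2 : ∑ m ∈ Icc 1 (L - u), PowerSeries.coeff n
      (PowerSeries.C (m : ℚ) + PowerSeries.C (q : ℚ) * PowerSeries.X)⁻¹ =
      (q : ℚ) ^ n * ((-1) ^ n * Hs (n + 1) (L - u)) := by
    rw [Hs, Finset.mul_sum, Finset.mul_sum]
    refine Finset.sum_congr rfl fun m hm => ?_
    have : (m : ℚ) ≠ 0 := by
      have := (Finset.mem_Icc.mp hm).1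
      exact_mod_cast (by omega : m ≠ 0)
    rw [Z5.coeff_lin_inv this, inv_pow, one_div, neg_eq_neg_one_mul, mul_pow]
    ring
  have e3 : PowerSeries.rescale (q : ℚ) (2 * Z9.kerQ α) =
      2 * PowerSeries.rescale (q : ℚ) (Z9.kerQ α) := by
    rw [map_mul, map_ofNat]
  unfold kerP
  rw [map_add, e3, map_add, map_add, PowerSeries.coeff_rescale, PowerSeries.coeff_mk, if_pos hn,
    map_neg, map_add, map_sum, map_sum, e1, e2]
  ring

/-- the singular sums at the two poles -/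
theorem sums_eq {r' : ℕ} (hL : L = r + q + r') (i : Fin 2) :
    ∑ m ∈ Icc 1 (r + q * (i : ℕ)),
        (PowerSeries.C (m : ℚ) + PowerSeries.C (-(q : ℚ)) * PowerSeries.X)⁻¹ +
      ∑ m ∈ Icc 1 (L - (r + q * (i : ℕ))),
        (PowerSeries.C (m : ℚ) + PowerSeries.C (q : ℚ) * PowerSeries.X)⁻¹ = GG2 q r r' i := by
  have hqpos : 0 < q := hq.out.pos
  have hq0 : (q : ℚ) ≠ 0 := by exact_mod_cast hq.out.ne_zero
  have hq1 : q - 1 + 1 = q := by omega
  have split : ∀ (b : ℕ) (f : ℕ → PowerSeries ℚ), ∑ m ∈ Icc 1 (q + b), f m =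
      ∑ m ∈ Icc 1 (q - 1), f m + f q + ∑ m ∈ Icc 1 b, f (q + m) := by
    intro b f
    rw [Z5.sum_Icc_split]
    congr 1
    conv_lhs => rw [← hq1]
    rw [Finset.sum_Icc_succ_top (by omega), hq1]
  fin_cases i
  · -- i = 0
    have hu : uz q 0 = PowerSeries.C (q : ℚ) * PowerSeries.X := by simp [uz, zz]
    have e1 : r + q * ((0 : Fin 2) : ℕ) = r := by simp
    have e2 : L - r = q + r' := by omega
    have eσ : (PowerSeries.C (q : ℚ) + PowerSeries.C (q : ℚ) * PowerSeries.X)⁻¹ =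
        -(PowerSeries.C (q : ℚ)⁻¹ * sg2 0) := by
      symm
      rw [PowerSeries.eq_inv_iff_mul_eq_one (by simpa using hq0)]
      have h := Z5.sg2_mul (0 : Fin 2)
      have hqi : (PowerSeries.C (q : ℚ)⁻¹ : PowerSeries ℚ) * PowerSeries.C (q : ℚ) = 1 := by
        rw [← map_mul, inv_mul_cancel₀ hq0, map_one]
      simp only [Fin.val_zero, Nat.cast_zero, mul_zero, sub_zero, map_one, one_mul] at h
      linear_combination (-(1 + PowerSeries.X) * sg2 0) * hqi - h
    simp only [mul_zero, add_zero, GG2, Nat.cast_zero, sub_zero, map_one, one_mul]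
    rw [e2, split, eσ, hu]
    have e3 : ∀ m : ℕ, (PowerSeries.C (m : ℚ) + PowerSeries.C (-(q : ℚ)) * PowerSeries.X) =
        PowerSeries.C (m : ℚ) + PowerSeries.C (-1 : ℚ) * (PowerSeries.C (q : ℚ) * PowerSeries.X) := by
      intro m
      rw [← mul_assoc, ← map_mul]; norm_num
    simp only [e3]
    ring
  · -- i = 1
    have hu : PowerSeries.C (q : ℚ) * PowerSeries.X = uz q 1 + PowerSeries.C (q : ℚ) := by
      simp [uz, zz]; ring
    have e1 : r + q * ((1 : Fin 2) : ℕ) = q + r := by simp; ring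
    have e2 : L - (q + r) = r' := by omega
    have eσ : (PowerSeries.C (q : ℚ) + PowerSeries.C (-(q : ℚ)) * PowerSeries.X)⁻¹ =
        -(PowerSeries.C (q : ℚ)⁻¹ * sg2 1) := by
      symm
      rw [PowerSeries.eq_inv_iff_mul_eq_one (by simpa using hq0)]
      have h := Z5.sg2_mul (1 : Fin 2)
      have hqi : (PowerSeries.C (q : ℚ)⁻¹ : PowerSeries ℚ) * PowerSeries.C (q : ℚ) = 1 := by
        rw [← map_mul, inv_mul_cancel₀ hq0, map_one]
      have e : (PowerSeries.C (1 - 2 : ℚ) : PowerSeries ℚ) = -1 := by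
        rw [← map_one (PowerSeries.C (R := ℚ)), ← map_neg]; norm_num
      simp only [Fin.val_one, Nat.cast_one, mul_one] at h
      rw [e] at h
      rw [map_neg]
      linear_combination (-(1 - PowerSeries.X) * sg2 1) * hqi - h
    have hlin : ∀ m : ℕ, PowerSeries.C (m : ℚ) + PowerSeries.C (-(q : ℚ)) * PowerSeries.X =
        PowerSeries.C ((m : ℚ) - q) - uz q 1 := by
      intro m
      rw [map_neg, neg_mul, hu, map_sub]; ring
    simp only [mul_one, GG2, Nat.cast_one]
    rw [show r + q = q + r by ring, e2, split, eσ]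
    have e3 : ∑ m ∈ Icc 1 (q - 1),
        (PowerSeries.C (m : ℚ) + PowerSeries.C (-(q : ℚ)) * PowerSeries.X)⁻¹ =
        -∑ m ∈ Icc 1 (q - 1), (PowerSeries.C (m : ℚ) + PowerSeries.C (1 : ℚ) * uz q 1)⁻¹ := by
      rw [← Finset.sum_neg_distrib]
      refine Finset.sum_bij' (fun m _ => q - m) (fun m _ => q - m) ?_ ?_ ?_ ?_ ?_
      · intro m hm; rw [Finset.mem_Icc] at hm ⊢; omega
      · intro m hm; rw [Finset.mem_Icc] at hm ⊢; omega
      · intro m hm; rw [Finset.mem_Icc] at hm; omega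
      · intro m hm; rw [Finset.mem_Icc] at hm; omega
      · intro m hm
        rw [Finset.mem_Icc] at hm
        have hm0 : (m : ℚ) ≠ 0 := by exact_mod_cast (by omega : m ≠ 0)
        have hcast : (((q - m : ℕ) : ℕ) : ℚ) = (q : ℚ) - m := by
          rw [Nat.cast_sub (by omega)]
        rw [hlin, hcast]
        symm
        rw [PowerSeries.eq_inv_iff_mul_eq_one (by simp [uz, zz]; omega)]
        have hcc : PowerSeries.constantCoeff
            (PowerSeries.C ((q : ℚ) - m) + PowerSeries.C (1 : ℚ) * uz q 1) ≠ 0 := by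
          simp only [uz, zz, map_add, map_mul, map_sub, PowerSeries.constantCoeff_C,
            PowerSeries.constantCoeff_X]
          intro h
          apply hm0
          push_cast at h
          linarith
        have h := PowerSeries.inv_mul_cancel _ hcc
        rw [map_sub, map_one] at h ⊢
        rw [map_sub]
        linear_combination h
    have e4 : ∑ m ∈ Icc 1 r,
        (PowerSeries.C ((q + m : ℕ) : ℚ) + PowerSeries.C (-(q : ℚ)) * PowerSeries.X)⁻¹ =
        ∑ m ∈ Icc 1 r, (PowerSeries.C (m : ℚ) + PowerSeries.C (-1 : ℚ) * uz q 1)⁻¹ := by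
      refine Finset.sum_congr rfl fun m _ => ?_
      rw [hlin]
      congr 1
      push_cast
      rw [show ((q : ℚ) + m - q) = m by ring, map_neg, map_one]
      ring
    have e5 : ∑ m ∈ Icc 1 r', (PowerSeries.C (m : ℚ) + PowerSeries.C (q : ℚ) * PowerSeries.X)⁻¹ =
        ∑ m ∈ Icc 1 r', (PowerSeries.C ((q + m : ℕ) : ℚ) + PowerSeries.C (1 : ℚ) * uz q 1)⁻¹ := by
      refine Finset.sum_congr rfl fun m _ => ?_
      rw [hu]
      congr 1
      push_cast
      rw [map_add, map_one]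
      ring
    have e6 : (PowerSeries.C (1 - 2 : ℚ) : PowerSeries ℚ) = -1 := by
      rw [← map_one (PowerSeries.C (R := ℚ)), ← map_neg]; norm_num
    rw [e3, e4, e5, e6]
    ring

/-- the scaled kernel lies in the lattice -/
theorem adm_ker (h23 : 23 ≤ q) (hc : Cls q L r 2) (hα : VI q α) :
    Adm2 q (-1) (fun i => PowerSeries.rescale (q : ℚ) (kerP L α (r + q * (i : ℕ)))) := by
  have hLL := hc.hL
  have hUU := hc.hU
  have hrr := hc.hr
  obtain ⟨r', hr'⟩ : ∃ r', L = r + q + r' := ⟨L - (r + q), by omega⟩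
  have hr'q : r' < q := by omega
  have h1 : Adm2 q (-1) (fun i => ∑ m ∈ Icc 1 r,
      (PowerSeries.C (m : ℚ) + PowerSeries.C (-1 : ℚ) * uz q (i : ℕ))⁻¹) := by
    refine Adm.of_R (R.sum _ _ fun m hm => R.lin_inv' ?_)
    rw [Finset.mem_Icc] at hm
    exact fun h => by have := Nat.le_of_dvd (by omega) h; omega
  have h2 : Adm2 q (-1) (fun i => ∑ m ∈ Icc 1 r',
      (PowerSeries.C ((q + m : ℕ) : ℚ) + PowerSeries.C (1 : ℚ) * uz q (i : ℕ))⁻¹) := by
    refine Adm.of_R (R.sum _ _ fun m hm => R.lin_inv ?_)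
    rw [Finset.mem_Icc] at hm
    exact fun h => by
      have h' := (Nat.dvd_add_right (dvd_refl q)).mp h
      have := Nat.le_of_dvd (by omega) h'; omega
  have hqi : VG q (-1) ((q : ℚ)⁻¹) := by
    have := VG.zpow_self (q := q) (-1)
    simpa using this
  have h3 : Adm2 q (-1) (fun i => PowerSeries.C (q : ℚ)⁻¹ * sg2 (i : ℕ)) := by
    have := Adm.of_sg (q := q) (k := -1) (PG.C hqi)
    convert this using 2 with i
    congr 1
    rw [aeval_C]; rfl
  have h4 : Adm2 q (-1) (fun i => PowerSeries.C (1 - 2 * ((i : ℕ) : ℚ)) *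
      ∑ m ∈ Icc 1 (q - 1), (PowerSeries.C (m : ℚ) + PowerSeries.C (1 : ℚ) * uz q (i : ℕ))⁻¹) := by
    have hB : PG q (-1) (C (-2 * (q : ℚ)⁻¹) * Up q) := by
      have h5 : VG q (-1) (-2 * (q : ℚ)⁻¹) := by
        have := (VG.int (q := q) (-2)).mul hqi
        simpa using this
      exact (PG.C h5).mul_int Up_PG
    have h6 := Adm.add (Adm.of_R (R.const (VG.nat (q := q) q))) (Adm.of_sg hB)
    have h7 := Adm.mul (by norm_num) (R.Eh h23) h6
    convert h7 using 2 with i
    rw [E_eq, ← mul_assoc, chi_lin]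
    ring
  have hG : Adm2 q (-1) (GG2 q r r') := by
    have := Adm.add (Adm.sub (Adm.add h1 h2) h3) h4
    exact this
  have hQ : Adm2 q (-1) (fun _ => 2 * PowerSeries.rescale (q : ℚ) (Z9.kerQ α)) := by
    have h2' : S q (fun _ => (2 : PowerSeries ℚ)) := by
      have := S.const (q := q) (x := 2) (by simpa using VG.nat (q := q) 2)
      simpa only [map_ofNat] using this
    exact Adm.mono (S.adm (S.mul h2' (S.kerQ hα))) (by norm_num)
  have h8 := Adm.add (Adm.neg hG) hQ
  have h9 := Adm.add h8 (Adm.of_SG (q := q) (k := -1) (F := fun i =>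
    PowerSeries.rescale (q : ℚ) (kerP L α (r + q * (i : ℕ))) -
      (-GG2 q r r' i + 2 * PowerSeries.rescale (q : ℚ) (Z9.kerQ α)))
    (fun i n hn => by
      rw [map_sub, coeff_ker _ n hn, sums_eq hr' i, sub_self]
      exact VG.zero _))
  convert h9 using 2 with i
  ring

/-- the column, `P`-part of valuation `a ≥ 0` -/
theorem adm_col {a : ℤ} (ha : 0 ≤ a) (h23 : 23 ≤ q) (hc : Cls q L r 2) (hα : VI q α)
    (hβ : VI q β) (c : Col) (h1 : PG q 0 c.1) (h2 : PG q a c.2.1) (h3 : PG q 0 c.2.2)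
    (ha' : a + -1 ≤ 0) : Adm2 q (a + -1) (fun i => sc q L α β r (i : ℕ) c) := by
  obtain ⟨A, hA, eA⟩ := Z5.hser_zz (q := q) (L := L) (r := r) c.1 h1
  obtain ⟨B, hB, eB⟩ := Z5.hser_zz (q := q) (L := L) (r := r) c.2.1 h2
  obtain ⟨C', hC, eC⟩ := Z5.hser_zz (q := q) (L := L) (r := r) c.2.2 h3
  have a1 : Adm2 q (a + -1) (fun i => aeval (uz q (i : ℕ)) A) := Adm.of_R (R.of_poly hA)
  have a2 := Adm.poly_mul ha hB (adm_ker h23 hc hα)
  have a3 := Adm.mono (Adm.poly_mul le_rfl hC (S.adm (S.kerQ hβ))) (l := a + -1) (by omega)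
  have := Adm.add (Adm.add a1 a2) a3
  convert this using 2 with i
  simp only [sc, tvec, map_add, map_mul, eA, eB, eC, uz]
  ring

end K2

theorem k2_reg (h23 : 23 ≤ q) (hc : Cls q L r 2) (hα : VI q α) (hβ : VI q β) (c : Col)
    (h1 : PG q 0 c.1) (h2 : PG q 0 c.2.1) (h3 : PG q 0 c.2.2) :
    Adm2 q (-1) (fun i => sc q L α β r i c) := by
  have := K2.adm_col (a := 0) le_rfl h23 hc hα hβ c h1 h2 h3 (by norm_num)
  simpa using this

theorem k2_reg1 (h23 : 23 ≤ q) (hc : Cls q L r 2) (hα : VI q α) (hβ : VI q β) (c : Col)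
    (h1 : PG q 0 c.1) (h2 : PG q 1 c.2.1) (h3 : PG q 0 c.2.2) :
    Adm2 q 0 (fun i => sc q L α β r i c) := by
  have := K2.adm_col (a := 1) (by norm_num) h23 hc hα hβ c h1 h2 h3 (by norm_num)
  simpa using this

end Pool.Agent.Z9
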