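import Pool.Agent.Z9.PDefs
import Pool.Agent.Z5.SmallPrimes

/-!
# Small primes: the factorial basis, pole order ten

The columns `X ^ i` are replaced by `∏_{s < i} (X - (2 s + 1) ^ 2)`, whose values are
`4 ^ i (2 i)!` times binomial polynomials.
-/

open Finset

namespace Pool.Agent.Z9.SmallP

open Pool.Agent.Z5 (hser hser_mul hser_add xser Hs Col VG SF SF_pos SF_succ)
open Pool.Agent.Z5.SmallP (WS bs WS_bs Cb Cb_natDegree bprod_succ VG_Hs VG_mul_nat tm det_tm
  Cb_eq_sum um det_um ix val_col val_four padicValNat_SF)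
open Pool.Agent.Z9

variable {q : ℕ} [hq : Fact q.Prime] {l : ℕ}

theorem hser_Cb {p u : ℕ} (hu : u < 2 * p) (i : ℕ) :
    hser (4 * p - 1) u (Cb i) = PowerSeries.C ((4 : ℚ) ^ i * (2 * i).factorial) *
      bs (2 * i) ((2 * p : ℤ) - u + i - 1) := by
  have hL : ((4 * p - 1 : ℕ) : ℚ) = 4 * p - 1 := by
    rw [Nat.cast_sub (by omega)]; push_cast; ring
  set c : ℚ := 2 * p - u with hc
  have hx : xser (4 * p - 1) u = 2 * (PowerSeries.C (c - 1 / 2) + PowerSeries.X) := by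
    rw [xser, hL, mul_add]
    congr 1
    rw [← map_ofNat (PowerSeries.C (R := ℚ)) 2, ← map_mul]
    congr 1
    rw [hc]; ring
  have hfac : ∀ s : ℕ, hser (4 * p - 1) u (Polynomial.X - Polynomial.C ((2 * (s : ℚ) + 1) ^ 2))
      = PowerSeries.C 4 * ((PowerSeries.C (c + s) + PowerSeries.X) *
        (PowerSeries.C (c - 1 - s) + PowerSeries.X)) := by
    intro s
    rw [hser, map_sub, Polynomial.aeval_X, Polynomial.aeval_C, hx]
    have e1 : (algebraMap ℚ (PowerSeries ℚ)) ((2 * (s : ℚ) + 1) ^ 2) =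
        PowerSeries.C ((2 * (s : ℚ) + 1) ^ 2) := rfl
    have e2 : (2 : PowerSeries ℚ) = PowerSeries.C 2 := (map_ofNat (PowerSeries.C (R := ℚ)) 2).symm
    have e3 : PowerSeries.C (4 : ℚ) = 4 := map_ofNat (PowerSeries.C (R := ℚ)) 4
    have e4 : PowerSeries.C (c + s) = PowerSeries.C (c - 1 / 2) + PowerSeries.C ((s : ℚ) + 1 / 2) := by
      rw [← map_add]; congr 1; ring
    have e5 : PowerSeries.C (c - 1 - s) = PowerSeries.C (c - 1 / 2) - PowerSeries.C ((s : ℚ) + 1 / 2) := by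
      rw [← map_sub]; congr 1; ring
    have e6 : PowerSeries.C ((2 * (s : ℚ) + 1) ^ 2) = 4 * PowerSeries.C ((s : ℚ) + 1 / 2) ^ 2 := by
      rw [← e3, ← map_pow, ← map_mul]; congr 1; ring
    rw [e1, e6, e4, e5, e3]
    ring
  have key : ∀ i : ℕ, hser (4 * p - 1) u (Cb i) = PowerSeries.C ((4 : ℚ) ^ i) *
      ∏ j ∈ range (2 * i), (PowerSeries.C (c + i - 1 - j) + (PowerSeries.X : PowerSeries ℚ)) := by
    intro i
    induction i with
    | zero => simp [Cb, hser]
    | succ i ih =>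
      have h1 : Cb (i + 1) = Cb i * (Polynomial.X - Polynomial.C ((2 * (i : ℚ) + 1) ^ 2)) := by
        rw [Cb, Cb, prod_range_succ]
      rw [h1, hser_mul, ih, hfac, bprod_succ, pow_succ, map_mul]
      ring
  rw [key i, bs, ← mul_assoc, ← map_mul]
  have h2 : (4 : ℚ) ^ i * (2 * i).factorial * ((2 * i).factorial : ℚ)⁻¹ = 4 ^ i := by
    have : ((2 * i).factorial : ℚ) ≠ 0 := by exact_mod_cast Nat.factorial_ne_zero _
    field_simp
  rw [h2]
  congr 1
  refine prod_congr rfl fun j _ => ?_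
  congr 2
  rw [hc]
  push_cast
  ring

/-! ### the kernels -/

theorem VG_kerQ {β : ℕ → ℚ} {V : ℕ} (hβ : ∀ k ∈ Finset.Icc 1 4, VG q (-(V : ℤ)) (β k)) (n : ℕ) :
    VG q (-(V : ℤ)) (PowerSeries.coeff n (kerQ β)) := by
  rw [kerQ, map_sum]
  refine VG.sum _ _ fun k hk => ?_
  rw [PowerSeries.coeff_C_mul, PowerSeries.coeff_X_pow]
  split_ifs with h
  · rw [mul_one]; exact hβ k hk
  · rw [mul_zero]; exact VG.zero _

theorem VG_ker {L u : ℕ} {α : ℕ → ℚ} {V : ℕ} (hα : ∀ k ∈ Finset.Icc 1 4, VG q (-(V : ℤ)) (α k))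
    (hu : u ≤ L) (hL : L < q ^ (l + 1)) (k : ℕ) :
    VG q (-(((k : ℤ) + 1) * l) - V) (PowerSeries.coeff k (kerP L α u)) := by
  rw [kerP, map_add, PowerSeries.coeff_mk]
  have hk0 : 0 ≤ ((k : ℤ) + 1) * l := by positivity
  refine VG.add ?_ ?_
  · split_ifs with h1
    · refine VG.neg ?_
      have e1 := (VG_Hs (q := q) (l := l) (M := u) (by omega) (k + 1))
      have e2 := (VG_Hs (q := q) (l := l) (M := L - u) (by omega) (k + 1))
      have e3 : VG q 0 ((-1 : ℚ) ^ k) := by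
        have := (VG.one (q := q)).neg.pow_zero k
        simpa using this
      refine (e1.mono ?_).add ((e3.mul e2).mono ?_) <;> push_cast <;> linarith
    · exact VG.zero _
  · have h2 : (2 : PowerSeries ℚ) = PowerSeries.C 2 := (map_ofNat (PowerSeries.C (R := ℚ)) 2).symm
    rw [h2, PowerSeries.coeff_C_mul]
    have e1 := VG_mul_nat (VG_kerQ hα k) 2
    push_cast at e1
    exact e1.mono (by linarith)

/-! ### column operations -/

omit hq in
theorem tvec_add' (L u : ℕ) (α β : ℕ → ℚ) (c d : Col) :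
    tvec L α β u (c + d) = tvec L α β u c + tvec L α β u d := by
  simp only [tvec, Prod.fst_add, Prod.snd_add, hser_add]
  ring

omit hq in
theorem tvec_smul' (L u : ℕ) (α β : ℕ → ℚ) (r : ℚ) (c : Col) :
    tvec L α β u (r • c) = r • tvec L α β u c := by
  simp only [tvec, Prod.smul_fst, Prod.smul_snd, Pool.Agent.Z5.hser_smul, smul_add, mul_smul_comm]

/-- `tvec` as a linear map -/
noncomputable def tvecL' (L : ℕ) (α β : ℕ → ℚ) (u : ℕ) : Col →ₗ[ℚ] PowerSeries ℚ where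
  toFun := tvec L α β u
  map_add' := tvec_add' L u α β
  map_smul' := tvec_smul' L u α β

omit hq in
theorem dmat_mul' {κ κ' : Type*} [Fintype κ] (L : ℕ) (α β : ℕ → ℚ) (h : ℕ) (c : κ → Col)
    (U : Matrix κ κ' ℚ) : dmat L α β h (fun j => ∑ k, U k j • c k) = dmat L α β h c * U := by
  ext r j
  simp only [dmat, Matrix.of_apply, Matrix.mul_apply]
  have h1 : tvec L α β r.1 (∑ k, U k j • c k) = ∑ k, tvec L α β r.1 (U k j • c k) :=
    map_sum (tvecL' L α β r.1) _ _
  rw [h1, map_sum]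
  refine Finset.sum_congr rfl fun k _ => ?_
  rw [tvec_smul', PowerSeries.coeff_smul, smul_eq_mul, mul_comm]

/-! ### the new columns -/

omit hq in
theorem det_cbc (p : ℕ) (α β : ℕ → ℚ)
    (eq : Fin (2 * p) × Fin 10 ≃ (Fin (6 * p) ⊕ Fin (6 * p)) ⊕ Fin (8 * p)) :
    ((dmat (4 * p - 1) α β (2 * p)
      (Pool.Agent.Z5.SmallP.cbc (6 * p) (6 * p) (8 * p))).submatrix id eq).det = DM p α β eq := by
  have h1 : dmat (4 * p - 1) α β (2 * p) (Pool.Agent.Z5.SmallP.cbc (6 * p) (6 * p) (8 * p)) =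
      dmat (4 * p - 1) α β (2 * p) (stdc (6 * p) (6 * p) (8 * p)) * um (6 * p) (6 * p) (8 * p) := by
    rw [← dmat_mul']
    congr 1
    funext j
    exact Pool.Agent.Z5.SmallP.cbc_eq _ _ _ j
  rw [h1, Matrix.submatrix_mul _ _ id eq eq eq.bijective, Matrix.det_mul,
    Matrix.det_submatrix_equiv_self, det_um, mul_one, DM]

/-- the entries of the column `j` -/
theorem VG_entry {p u : ℕ} (hu : u < 2 * p) {α β : ℕ → ℚ} {V : ℕ}
    (hα : ∀ k ∈ Finset.Icc 1 4, VG q (-(V : ℤ)) (α k))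
    (hβ : ∀ k ∈ Finset.Icc 1 4, VG q (-(V : ℤ)) (β k))
    (hl : 16 * p < q ^ (l + 1)) (j : (Fin (6 * p) ⊕ Fin (6 * p)) ⊕ Fin (8 * p)) {k : ℕ} (hk : k < 10) :
    VG q (padicValRat q ((4 : ℚ) ^ ix _ _ _ j * (2 * ix _ _ _ j).factorial) - (10 * l + V))
      (PowerSeries.coeff k
        (tvec (4 * p - 1) α β u (Pool.Agent.Z5.SmallP.cbc (6 * p) (6 * p) (8 * p) j))) := by
  have hix : ix (6 * p) (6 * p) (8 * p) j < 8 * p := by
    rcases j with (j | j) | j
    · have := j.2; simp only [ix, Sum.elim_inl]; omega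
    · have := j.2; simp only [ix, Sum.elim_inl, Sum.elim_inr]; omega
    · have := j.2; simp only [ix, Sum.elim_inr]; omega
  set i := ix (6 * p) (6 * p) (8 * p) j with hi
  set e : ℤ := padicValRat q ((4 : ℚ) ^ i * (2 * i).factorial) with he
  have hW : WS q l (bs (2 * i) ((2 * p : ℤ) - u + i - 1)) := WS_bs (by omega) _
  have hH : ∀ n : ℕ, VG q (e - n * l) (PowerSeries.coeff n (hser (4 * p - 1) u (Cb i))) := by
    intro n
    rw [hser_Cb hu, PowerSeries.coeff_C_mul]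
    have := (VG.self (q := q) ((4 : ℚ) ^ i * (2 * i).factorial)).mul (hW n)
    exact this.mono (by rw [← he]; linarith)
  have hkl : (k : ℤ) * l ≤ 9 * l := by
    have h1 : (k : ℤ) ≤ 9 := by omega
    exact mul_le_mul_of_nonneg_right h1 (by positivity)
  have hl0 : (0 : ℤ) ≤ l := by positivity
  have hV0 : (0 : ℤ) ≤ V := by positivity
  have h0 : ∀ u, hser (4 * p - 1) u 0 = 0 := fun u => Pool.Agent.Z5.hser_zero _ _
  rcases j with (j | j) | j
  · have h1 : tvec (4 * p - 1) α β u (Pool.Agent.Z5.SmallP.cbc (6 * p) (6 * p) (8 * p)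
        (Sum.inl (Sum.inl j))) = kerP (4 * p - 1) α u * hser (4 * p - 1) u (Cb i) := by
      show tvec (4 * p - 1) α β u (0, Cb i, 0) = _
      simp [tvec, h0]
    rw [h1, PowerSeries.coeff_mul]
    refine VG.sum _ _ fun x hx => ?_
    rw [HasAntidiagonal.mem_antidiagonal] at hx
    have h2 := (VG_ker hα (L := 4 * p - 1) (u := u) (l := l) (by omega) (by omega) x.1).mul (hH x.2)
    refine h2.mono ?_
    have h3 : ((x.1 : ℤ) + x.2) * l = k * l := by rw [← hx]; push_cast; ring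
    linarith [add_mul (x.1 : ℤ) x.2 l, add_mul (x.1 : ℤ) 1 l]
  · have h1 : tvec (4 * p - 1) α β u (Pool.Agent.Z5.SmallP.cbc (6 * p) (6 * p) (8 * p)
        (Sum.inl (Sum.inr j))) = kerQ β * hser (4 * p - 1) u (Cb i) := by
      show tvec (4 * p - 1) α β u (0, 0, Cb i) = _
      simp [tvec, h0]
    rw [h1, PowerSeries.coeff_mul]
    refine VG.sum _ _ fun x hx => ?_
    rw [HasAntidiagonal.mem_antidiagonal] at hx
    have h2 := (VG_kerQ hβ x.1).mul (hH x.2)
    refine h2.mono ?_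
    have h3 : (x.2 : ℤ) * l ≤ k * l := by
      refine mul_le_mul_of_nonneg_right ?_ hl0
      rw [← hx]; push_cast; linarith [Int.natCast_nonneg x.1]
    linarith
  · have h1 : tvec (4 * p - 1) α β u (Pool.Agent.Z5.SmallP.cbc (6 * p) (6 * p) (8 * p)
        (Sum.inr j)) = hser (4 * p - 1) u (Cb i) := by
      show tvec (4 * p - 1) α β u (Cb i, 0, 0) = _
      simp [tvec, h0]
    rw [h1]
    exact (hH k).mono (by linarith)

/-- valuation of the determinant -/
theorem VG_DM {p : ℕ} {α β : ℕ → ℚ} {V : ℕ}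
    (hα : ∀ k ∈ Finset.Icc 1 4, VG q (-(V : ℤ)) (α k))
    (hβ : ∀ k ∈ Finset.Icc 1 4, VG q (-(V : ℤ)) (β k)) (hl : 16 * p < q ^ (l + 1))
    (eq : Fin (2 * p) × Fin 10 ≃ (Fin (6 * p) ⊕ Fin (6 * p)) ⊕ Fin (8 * p)) :
    VG q (∑ j, (padicValRat q ((4 : ℚ) ^ ix (6 * p) (6 * p) (8 * p) j *
      (2 * ix (6 * p) (6 * p) (8 * p) j).factorial) - (10 * l + V))) (DM p α β eq) := by
  rw [← det_cbc]
  have h1 := VG.det (q := q)
    ((dmat (4 * p - 1) α β (2 * p)
      (Pool.Agent.Z5.SmallP.cbc (6 * p) (6 * p) (8 * p))).submatrix id eq) (fun _ => 0)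
    (fun r => padicValRat q ((4 : ℚ) ^ ix (6 * p) (6 * p) (8 * p) (eq r) *
      (2 * ix (6 * p) (6 * p) (8 * p) (eq r)).factorial) - (10 * l + V)) ?_
  · rw [Equiv.sum_comp eq (fun j => padicValRat q ((4 : ℚ) ^ ix (6 * p) (6 * p) (8 * p) j *
      (2 * ix (6 * p) (6 * p) (8 * p) j).factorial) - (10 * (l : ℤ) + V))] at h1
    simpa using h1
  · intro x y
    rw [zero_add]
    exact VG_entry x.1.2 hα hβ hl (eq y) x.2.2

theorem sum_cols (p : ℕ) (w : ℤ) : ∑ j, (padicValRat q ((4 : ℚ) ^ ix (6 * p) (6 * p) (8 * p) j *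
      (2 * ix (6 * p) (6 * p) (8 * p) j).factorial) - w) =
    padicValNat q (RR p) + (if q = 2 then 136 * (p : ℤ) ^ 2 - 20 * p else 0) - 20 * p * w := by
  have hone : ∀ n : ℕ, ∑ i : Fin n, (padicValRat q ((4 : ℚ) ^ (i : ℕ) * (2 * (i : ℕ)).factorial) - w)
      = padicValNat q (SF n) + padicValRat q 4 * (∑ i ∈ range n, i : ℕ) - n * w := by
    intro n
    rw [Fin.sum_univ_eq_sum_range (fun i : ℕ =>
      padicValRat q ((4 : ℚ) ^ i * (2 * i).factorial) - w) n]
    rw [Finset.sum_sub_distrib, padicValNat_SF, Finset.sum_const, card_range, nsmul_eq_mul]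
    rw [Finset.sum_congr rfl fun i _ => val_col (q := q) i, Finset.sum_add_distrib]
    push_cast
    rw [Finset.mul_sum]
    rw [Finset.sum_congr rfl fun (i : ℕ) _ => mul_comm (i : ℤ) (padicValRat q 4)]
    ring
  rw [Fintype.sum_sum_type, Fintype.sum_sum_type]
  simp only [ix, Sum.elim_inl, Sum.elim_inr]
  rw [hone, hone]
  have hRR : (padicValNat q (RR p) : ℤ) = padicValNat q (SF (8 * p)) + 2 * padicValNat q (SF (6 * p)) := by
    rw [RR, padicValNat.mul (SF_pos _).ne' (pow_ne_zero _ (SF_pos _).ne'), padicValNat.pow]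
    push_cast
    ring
  have hg : ∀ n : ℕ, ((∑ i ∈ range n, i : ℕ) : ℤ) * 2 = n * (n - 1) := by
    intro n
    have := Finset.sum_range_id_mul_two n
    rcases n with _ | n
    · simp
    · have h2 : ((∑ i ∈ range (n + 1), i : ℕ) : ℤ) * 2 = ((n + 1) * (n + 1 - 1) : ℕ) := by
        exact_mod_cast this
      rw [h2]
      push_cast
      ring
  have hg5 := hg (6 * p)
  have hg8 := hg (8 * p)
  rw [hRR, val_four]
  split_ifs with h
  · push_cast at hg5 hg8 ⊢
    linarith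
  · push_cast
    ring

end Pool.Agent.Z9.SmallP

namespace Pool.Agent.Z9

open Pool.Agent.Z5 (VG)
open SmallP

/-- **Small primes.** -/
theorem small_primes (α β : ℕ → ℚ) : ∃ C : ℝ, ∀ p : ℕ, 2 ≤ p →
    ∀ (eq : Fin (2 * p) × Fin 10 ≃ (Fin (6 * p) ⊕ Fin (6 * p)) ⊕ Fin (8 * p)) (q : ℕ),
    q.Prime → q ≤ 4 * p → DM p α β eq ≠ 0 →
    ((padicValNat q (RR p) : ℝ) + if q = 2 then 136 * (p : ℝ) ^ 2 else 0) * Real.log q
      - C * p * Real.log p ≤ (padicValRat q (DM p α β eq) : ℝ) * Real.log q := by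
  set N : ℕ := ∏ k ∈ Finset.Icc 1 4, ((α k).den * (β k).den) with hN
  have hN0 : N ≠ 0 := Finset.prod_ne_zero_iff.2 fun k _ =>
    Nat.mul_ne_zero (α k).den_ne_zero (β k).den_ne_zero
  set D : ℝ := Real.log N with hD
  refine ⟨20 * 10 * 5 + 20 * (D / Real.log 2) + 20, fun p hp eq q hqp _ hne => ?_⟩
  have : Fact q.Prime := ⟨hqp⟩
  set l : ℕ := Nat.log q (16 * p) with hl
  set V : ℕ := padicValNat q N with hV
  have hq1 : 1 < q := hqp.one_lt
  have hlt : 16 * p < q ^ (l + 1) := Nat.lt_pow_succ_log_self hq1 _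
  have hgen : ∀ x : ℚ, x.den ∣ N → VG q (-(V : ℤ)) x := by
    intro x hx
    refine Or.inr ?_
    have h1 : padicValNat q x.den ≤ V := by
      rw [hV]
      exact (padicValNat_dvd_iff_le hN0).1 ((pow_padicValNat_dvd (p := q) (n := x.den)).trans hx)
    rw [padicValRat]
    have : (0 : ℤ) ≤ padicValInt q x.num := by positivity
    omega
  have hα : ∀ k ∈ Finset.Icc 1 4, VG q (-(V : ℤ)) (α k) := fun k hk =>
    hgen _ ((Dvd.intro _ rfl).trans (Finset.dvd_prod_of_mem _ hk))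
  have hβ : ∀ k ∈ Finset.Icc 1 4, VG q (-(V : ℤ)) (β k) := fun k hk =>
    hgen _ ((Dvd.intro_left _ rfl).trans (Finset.dvd_prod_of_mem (fun k => (α k).den * (β k).den) hk))
  have h1 := (VG_DM hα hβ hlt eq).val hne
  rw [sum_cols] at h1
  have hp' : (2 : ℝ) ≤ p := by exact_mod_cast hp
  have hp0 : (0 : ℝ) < p := by linarith
  have hlog2 : 0 < Real.log 2 := Real.log_pos (by norm_num)
  have hlp : Real.log 2 ≤ Real.log p := Real.log_le_log (by norm_num) hp'
  have hlq : 0 ≤ Real.log q := Real.log_nonneg (by exact_mod_cast hq1.le)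
  -- `l log q`
  have hll : (l : ℝ) * Real.log q ≤ 5 * Real.log p := by
    have h2 : q ^ l ≤ 16 * p := Nat.pow_log_le_self q (by omega)
    have h3 : ((q : ℝ)) ^ l ≤ (p : ℝ) ^ 5 := by
      have h4 : ((q : ℝ)) ^ l ≤ 16 * p := by exact_mod_cast h2
      refine h4.trans ?_
      have h5 : (16 : ℝ) ≤ (p : ℝ) ^ 4 := by
        have := pow_le_pow_left₀ (by norm_num : (0 : ℝ) ≤ 2) hp' 4
        norm_num at this
        exact this
      nlinarith
    have h6 := Real.log_le_log (by positivity) h3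
    rw [Real.log_pow, Real.log_pow] at h6
    exact_mod_cast h6
  have hVl : (V : ℝ) * Real.log q ≤ D := by
    have h2 : q ^ V ≤ N := Nat.le_of_dvd (Nat.pos_of_ne_zero hN0) pow_padicValNat_dvd
    have h3 : ((q : ℝ)) ^ V ≤ N := by exact_mod_cast h2
    have h6 := Real.log_le_log (by positivity) h3
    rwa [Real.log_pow] at h6
  have hD0 : 0 ≤ D := Real.log_nonneg (by exact_mod_cast Nat.one_le_iff_ne_zero.2 hN0)
  have hDp : D ≤ D / Real.log 2 * Real.log p := by
    rw [div_mul_eq_mul_div, le_div_iff₀ hlog2]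
    exact mul_le_mul_of_nonneg_left hlp hD0
  have h1' : ((padicValNat q (RR p) : ℝ) + (if q = 2 then 136 * (p : ℝ) ^ 2 - 20 * p else 0)
      - 20 * p * (10 * l + V)) ≤ (padicValRat q (DM p α β eq) : ℝ) := by
    have h2 : (((padicValNat q (RR p) : ℤ) + (if q = 2 then 136 * (p : ℤ) ^ 2 - 20 * p else 0)
      - 20 * p * (10 * l + V) : ℤ) : ℝ) ≤ ((padicValRat q (DM p α β eq) : ℤ) : ℝ) := by
      exact Int.cast_le.2 h1
    rw [Int.cast_sub, Int.cast_add] at h2
    by_cases h : q = 2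
    · rw [if_pos h] at h2 ⊢
      push_cast at h2 ⊢
      simpa using h2
    · rw [if_neg h] at h2 ⊢
      push_cast at h2 ⊢
      simpa using h2
  have h2 := mul_le_mul_of_nonneg_right h1' hlq
  refine le_trans ?_ h2
  have h3 : (20 * (p : ℝ)) * ((10 * l + V) * Real.log q) ≤
      (20 * (p : ℝ)) * (10 * (5 * Real.log p) + D / Real.log 2 * Real.log p) := by
    refine mul_le_mul_of_nonneg_left ?_ (by positivity)
    rw [add_mul, mul_assoc]
    linarith
  by_cases h : q = 2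
  · subst h
    simp only [if_true]
    push_cast at h3 ⊢
    have h4 : 20 * (p : ℝ) * Real.log 2 ≤ 20 * p * Real.log p :=
      mul_le_mul_of_nonneg_left hlp (by positivity)
    nlinarith
  · simp only [if_neg h]
    have h4 : 0 ≤ 20 * (p : ℝ) * Real.log p := by
      have : 0 ≤ Real.log p := by linarith
      positivity
    nlinarith

end Pool.Agent.Z9
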