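import Pool.Agent.Z9.Defs
import Pool.Agent.Z5.Lin

/-!
# Linearity and symmetry of the partial fraction coefficients, pole orders at most ten
-/

open Finset

namespace Pool.Agent.Z9

open Pool.Agent.Z5 (w evY F dser xser hser lser co rho Hs zt tot mono monoS co_add co_C_mul rho_add
  rho_C_mul sg sg_C sg_X sg_two sg_xser sg_hser constantCoeff_dser_ne_zero dser_mul_inv)

variable {L : ℕ} {e : ℕ → ℕ}

theorem rho0_add (h g : Polynomial ℚ) : rho0 L e (h + g) = rho0 L e h + rho0 L e g := by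
  simp only [rho0, co_add, add_mul, sum_add_distrib, neg_add]

theorem rho0_C_mul (c : ℚ) (h : Polynomial ℚ) :
    rho0 L e (Polynomial.C c * h) = c * rho0 L e h := by
  simp only [rho0, co_C_mul, mul_assoc, ← mul_sum, mul_neg]

theorem G_add (β : ℕ → ℚ) (h g : Polynomial ℚ) : G L e β (h + g) = G L e β h + G L e β g := by
  simp only [G, rho_add, mul_add, sum_add_distrib]

theorem G_C_mul (β : ℕ → ℚ) (c : ℚ) (h : Polynomial ℚ) :
    G L e β (Polynomial.C c * h) = c * G L e β h := by
  simp only [G, rho_C_mul, mul_sum]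
  exact sum_congr rfl fun k _ => by ring

theorem Ph_add (α : ℕ → ℚ) (h g : Polynomial ℚ) : Ph L e α (h + g) = Ph L e α h + Ph L e α g := by
  simp only [Ph, rho0_add, G_add]
  ring

theorem Ph_C_mul (α : ℕ → ℚ) (c : ℚ) (h : Polynomial ℚ) :
    Ph L e α (Polynomial.C c * h) = c * Ph L e α h := by
  simp only [Ph, rho0_C_mul, G_C_mul]
  ring

theorem sg_dser (he : IsProf L e) {u : ℕ} (hu : u ≤ L) :
    sg (dser L e (L - u)) = PowerSeries.C ((-1 : ℚ) ^ e u) * dser L e u := by
  have hu' : u ∈ range (L + 1) := mem_range.2 (by omega)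
  have h1 : dser L e (L - u) = ∏ v ∈ (range (L + 1)).erase u,
      (PowerSeries.C ((u : ℚ) - v) + PowerSeries.X) ^ e v := by
    rw [dser]
    refine prod_nbij' (fun v => L - v) (fun v => L - v) ?_ ?_ ?_ ?_ ?_
    · intro v hv
      rw [mem_erase, mem_range] at hv ⊢
      constructor
      · omega
      · omega
    · intro v hv
      rw [mem_erase, mem_range] at hv ⊢
      constructor
      · omega
      · omega
    · intro v hv
      rw [mem_erase, mem_range] at hv
      omega
    · intro v hv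
      rw [mem_erase, mem_range] at hv
      omega
    · intro v hv
      rw [mem_erase, mem_range] at hv
      have hv2 : v ≤ L := by omega
      rw [he.symm v hv2]
      have h3 : ((L - v : ℕ) : ℚ) = (L : ℚ) - v := by push_cast [hv2]; ring
      have h4 : ((L - u : ℕ) : ℚ) = (L : ℚ) - u := by push_cast [hu]; ring
      rw [h3, h4]
      congr 3
      ring
  rw [h1, map_prod]
  have h2 : ∀ v ∈ (range (L + 1)).erase u,
      sg ((PowerSeries.C ((u : ℚ) - v) + PowerSeries.X) ^ e v) =
        PowerSeries.C ((-1 : ℚ) ^ e v) * (PowerSeries.C ((v : ℚ) - u) + PowerSeries.X) ^ e v := by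
    intro v _
    rw [map_pow, map_add, sg_C, sg_X, map_pow, ← mul_pow]
    congr 1
    rw [← sub_eq_zero, map_neg, map_one]
    have : (v : ℚ) - u = - ((u : ℚ) - v) := by ring
    rw [this, map_neg]; ring
  rw [prod_congr rfl h2, prod_mul_distrib, ← map_prod, prod_pow_eq_pow_sum]
  congr 2
  have h5 : ∑ v ∈ (range (L + 1)).erase u, e v + e u = ∑ v ∈ range (L + 1), e v :=
    sum_erase_add _ _ hu'
  have h6 := he.even
  rw [← h5] at h6
  have h7 : Even (∑ v ∈ (range (L + 1)).erase u, e v) ↔ Even (e u) := Nat.even_add.1 h6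
  rcases Nat.even_or_odd (e u) with h8 | h8
  · rw [(h7.2 h8).neg_one_pow, h8.neg_one_pow]
  · have h9 : Odd (∑ v ∈ (range (L + 1)).erase u, e v) := by
      rw [← Nat.not_even_iff_odd, h7, Nat.not_even_iff_odd]; exact h8
    rw [h9.neg_one_pow, h8.neg_one_pow]

theorem sg_dser_inv (he : IsProf L e) {u : ℕ} (hu : u ≤ L) :
    sg ((dser L e (L - u))⁻¹) = PowerSeries.C ((-1 : ℚ) ^ e u) * (dser L e u)⁻¹ := by
  have h1 : sg (dser L e (L - u)) * sg ((dser L e (L - u))⁻¹) = 1 := by
    rw [← map_mul, dser_mul_inv, map_one]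
  have h2 : (PowerSeries.C ((-1 : ℚ) ^ e u) * dser L e u) *
      (PowerSeries.C ((-1 : ℚ) ^ e u) * (dser L e u)⁻¹) = 1 := by
    rw [mul_mul_mul_comm, dser_mul_inv, mul_one, ← map_mul, ← mul_pow]; simp
  rw [sg_dser he hu] at h1
  have h3 : PowerSeries.C ((-1 : ℚ) ^ e u) * dser L e u ≠ 0 := by
    intro h0; rw [h0, zero_mul] at h2; exact zero_ne_one h2
  exact mul_left_cancel₀ h3 (h1.trans h2.symm)

theorem sg_lser (he : IsProf L e) {u : ℕ} (hu : u ≤ L) (h : Polynomial ℚ) :
    sg (lser L e (L - u) h) = PowerSeries.C ((-1 : ℚ) ^ (e u + 1)) * lser L e u h := by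
  rw [lser, map_mul, map_mul, sg_xser hu, sg_dser_inv he hu, sg_hser hu, lser, pow_succ, map_mul,
    map_neg, map_one]
  ring

/-- `R(-L-t) = -R(t)` -/
theorem co_symm (he : IsProf L e) (h : Polynomial ℚ) {u i : ℕ} (hu : u ≤ L) (_hi : 1 ≤ i) :
    co L e h (L - u) i = (-1) ^ (i + 1) * co L e h u i := by
  unfold co
  rw [he.symm u hu]
  split_ifs with hc
  · have h1 := congrArg (PowerSeries.coeff (e u - i)) (sg_lser he hu h)
    rw [PowerSeries.coeff_rescale, PowerSeries.coeff_C_mul] at h1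
    have h2 : ((-1 : ℚ) ^ (e u - i)) * (-1) ^ (e u - i) = 1 := by rw [← mul_pow]; simp
    have h3 : PowerSeries.coeff (e u - i) (lser L e (L - u) h) =
        (-1 : ℚ) ^ (e u - i) * ((-1) ^ (e u + 1) * PowerSeries.coeff (e u - i) (lser L e u h)) := by
      rw [← h1, ← mul_assoc, h2, one_mul]
    rw [h3, ← mul_assoc]
    congr 1
    obtain ⟨k, hk⟩ := Nat.exists_eq_add_of_le hc.2
    rw [hk, Nat.add_sub_cancel_left]
    rw [show i + k + 1 = k + (i + 1) by ring, pow_add (-1 : ℚ) k, ← mul_assoc, ← mul_pow]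
    simp
  · simp

theorem rho_even (he : IsProf L e) (h : Polynomial ℚ) {i : ℕ} (hi : 1 ≤ i) (hi2 : Even i) :
    rho L e i h = 0 := by
  have h1 : rho L e i h = - rho L e i h := by
    conv_lhs => rw [rho, ← sum_range_reflect]
    rw [rho, ← sum_neg_distrib]
    refine sum_congr rfl fun u hu => ?_
    have hu' : u ≤ L := by have := mem_range.1 hu; omega
    rw [show L + 1 - 1 - u = L - u by omega, co_symm he h hu' hi]
    have : (-1 : ℚ) ^ (i + 1) = -1 := (hi2.add_one).neg_one_pow
    rw [this]; ring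
  linarith

end Pool.Agent.Z9
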