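import Pool.Agent.Z9.Defs
import Pool.Agent.Z5.Basis

/-!
# DIM39: change of basis in the mixed determinants
-/

open Finset

namespace Pool.Agent.Z9

open Pool.Agent.Z5 (co rho Hs F tot mono monoS cm cmS)
open Pool.Agent.Z5.BasisAux (coL rhoL rhoL_apply lin_mul F_mul det_gen)

variable {L : ℕ} {e : ℕ → ℕ}

namespace BasisAux

/-- `rho0` as a linear map -/
noncomputable def rho0L (L : ℕ) (e : ℕ → ℕ) : Polynomial ℚ →ₗ[ℚ] ℚ :=
  - ∑ u ∈ range (L + 1), ∑ i ∈ Finset.Icc 1 10, Hs i u • coL L e u i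

lemma rho0L_apply (h : Polynomial ℚ) : rho0L L e h = rho0 L e h := by
  simp only [rho0L, rho0, coL, LinearMap.sum_apply, LinearMap.neg_apply, LinearMap.smul_apply,
    LinearMap.coe_mk, AddHom.coe_mk, smul_eq_mul]
  congr 1
  exact Finset.sum_congr rfl fun u _ => Finset.sum_congr rfl fun i _ => mul_comm _ _

/-- `G` as a linear map -/
noncomputable def Glin (L : ℕ) (e : ℕ → ℕ) (β : ℕ → ℚ) : Polynomial ℚ →ₗ[ℚ] ℚ :=
  ∑ k ∈ Finset.Icc 1 4, β k • rhoL L e (2 * k + 1)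

lemma Glin_apply (β : ℕ → ℚ) (h : Polynomial ℚ) : Glin L e β h = G L e β h := by
  simp only [Glin, G, LinearMap.sum_apply, LinearMap.smul_apply, smul_eq_mul, rhoL_apply]

/-- `Ph` as a linear map -/
noncomputable def PhL (L : ℕ) (e : ℕ → ℕ) (α : ℕ → ℚ) : Polynomial ℚ →ₗ[ℚ] ℚ :=
  rho0L L e + Glin L e α

lemma PhL_apply (α : ℕ → ℚ) (h : Polynomial ℚ) : PhL L e α h = Ph L e α h := by
  simp [PhL, Ph, rho0L_apply, Glin_apply]

end BasisAux

open BasisAux

/-- general families indexed by `ι` (`a` elements), `κ` (`b` elements) -/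
theorem det_gmat {ι κ : Type*} [Fintype ι] [DecidableEq ι] [Fintype κ] [DecidableEq κ] (a b : ℕ)
    (f : ι ≃ Fin a) (g : κ ≃ Fin b) (α β : ℕ → ℚ) (φ : ι → Polynomial ℚ) (χ : κ → Polynomial ℚ)
    (ψ : ι ⊕ κ → Polynomial ℚ) (hφ : ∀ i, (φ i).degree < a) (hχ : ∀ i, (χ i).degree < b)
    (hψ : ∀ i, (ψ i).degree < (a + b : ℕ)) :
    (gmat L e α β φ χ ψ).det =
      ((cm a φ).submatrix id f).det * ((cm b χ).submatrix id g).det *
        ((cmS a b ψ).submatrix id (Equiv.sumCongr f g)).det * DQ L e α β a b := by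
  have h := det_gen (RingHom.id ℚ) a b f g φ χ ψ (gmat L e α β φ χ ψ)
    (gmat L e α β (mono a) (mono b) (monoS a b)) ?_ ?_
  · rw [h]; rfl
  · intro i j
    simp only [gmat, Matrix.of_apply, Sum.elim_inl, RingHom.id_apply, mono]
    rw [← PhL_apply, lin_mul (PhL L e α) a a b _ _ (hφ i) (hψ j)]
    simp only [PhL_apply]
  · intro i j
    simp only [gmat, Matrix.of_apply, Sum.elim_inr, RingHom.id_apply, mono]
    rw [← Glin_apply, lin_mul (Glin L e β) b a b _ _ (hχ i) (hψ j)]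
    simp only [Glin_apply]

theorem det_rmat {ι κ : Type*} [Fintype ι] [DecidableEq ι] [Fintype κ] [DecidableEq κ] (a b : ℕ)
    (f : ι ≃ Fin a) (g : κ ≃ Fin b) (he : IsProf L e)
    (hd : 4 * a + 2 * b ≤ tot L e + 1) (β : ℕ → ℚ) (φ : ι → Polynomial ℚ) (χ : κ → Polynomial ℚ)
    (ψ : ι ⊕ κ → Polynomial ℚ) (hφ : ∀ i, (φ i).degree < a) (hχ : ∀ i, (χ i).degree < b)
    (hψ : ∀ i, (ψ i).degree < (a + b : ℕ)) :
    (rmat L e β φ χ ψ).det =
      ((((cm a φ).submatrix id f).det * ((cm b χ).submatrix id g).det *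
        ((cmS a b ψ).submatrix id (Equiv.sumCongr f g)).det : ℚ) : ℝ) * DR L e β a b := by
  have _ := he
  have h := det_gen (algebraMap ℚ ℝ) a b f g φ χ ψ (rmat L e β φ χ ψ)
    (rmat L e β (mono a) (mono b) (monoS a b)) ?_ ?_
  · rw [h]; rfl
  · intro i j
    simp only [rmat, Matrix.of_apply, Sum.elim_inl, eq_ratCast, mono]
    exact F_mul a b hd _ _ (hφ i) (hψ j)
  · intro i j
    simp only [rmat, Matrix.of_apply, Sum.elim_inr, eq_ratCast, mono]
    rw [← Glin_apply, lin_mul (Glin L e β) b a b _ _ (hχ i) (hψ j)]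
    push_cast
    simp only [Glin_apply]

end Pool.Agent.Z9
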