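import Pool.Agent.Z9.ArchDefs
import Pool.Agent.Z9.Basis
import Pool.Agent.Z5.ArchBasis

/-!
# The determinant inequality in the basis of the nodes
-/

open Finset

namespace Pool.Agent.Z9

open Pool.Agent.Z5 Pool.Agent.Z5.ArchBasisAux

theorem arch_basis {L : ℕ} {e : ℕ → ℕ} (he : IsProf L e) {ι κ : Type*} [Fintype ι]
    [DecidableEq ι] [Fintype κ] [DecidableEq κ] (a b : ℕ) (hd : 4 * a + 2 * b ≤ tot L e + 1)
    (f : ι ≃ Fin a) (g : κ ≃ Fin b) (x : ι → ℚ) (z : κ → ℚ)
    (hs : Function.Injective (Sum.elim x z)) (β : ℕ → ℚ) (A : ι → ℝ) (B : κ → ℝ)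
    (hA : ∀ i c, |F L e (lagQ x i * lagQ (Sum.elim x z) c)| ≤ A i)
    (hB : ∀ i c, |(G L e β (lagQ z i * lagQ (Sum.elim x z) c) : ℝ)| ≤ B i) :
    √(pairProd fun i => (x i : ℝ)) * √(pairProd fun i => (z i : ℝ))
        * √(pairProd fun i => ((Sum.elim x z i : ℚ) : ℝ)) * |DR L e β a b|
      ≤ (a + b).factorial * ((∏ i, A i) * ∏ i, B i) := by
  have hx : Function.Injective x := fun i j h => by
    have := @hs (Sum.inl i) (Sum.inl j) h
    exact Sum.inl_injective this
  have hz : Function.Injective z := fun i j h => by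
    have := @hs (Sum.inr i) (Sum.inr j) h
    exact Sum.inr_injective this
  have h1 := det_rmat a b f g he hd β (lagQ x) (lagQ z) (lagQ (Sum.elim x z))
    (degree_lagQ_lt f x) (degree_lagQ_lt g z)
    (degree_lagQ_lt ((Equiv.sumCongr f g).trans finSumFinEquiv) (Sum.elim x z))
  have h2 : |(rmat L e β (lagQ x) (lagQ z) (lagQ (Sum.elim x z))).det| =
      √(pairProd fun i => (x i : ℝ)) * √(pairProd fun i => (z i : ℝ))
        * √(pairProd fun i => ((Sum.elim x z i : ℚ) : ℝ)) * |DR L e β a b| := by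
    rw [h1, abs_mul]
    congr 1
    rw [Rat.cast_mul, Rat.cast_mul, abs_mul, abs_mul,
      abs_det_cast f hx ((cm a (lagQ x)).submatrix id f) (fun i j => rfl),
      abs_det_cast g hz ((cm b (lagQ z)).submatrix id g) (fun i j => rfl),
      abs_det_cast ((Equiv.sumCongr f g).trans finSumFinEquiv) hs
        ((cmS a b (lagQ (Sum.elim x z))).submatrix id (Equiv.sumCongr f g)) ?_]
    intro i j
    simp only [Matrix.submatrix_apply, id_eq, cmS, Matrix.of_apply]
    congr 1
    rcases j with j | j <;> simp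
  rw [← h2]
  refine (abs_det_le_rows _ (Sum.elim A B) ?_).trans ?_
  · rintro (i | i) c
    · exact hA i c
    · exact hB i c
  · rw [Fintype.prod_sum_type, Fintype.card_sum, Fintype.card_congr f, Fintype.card_congr g,
      Fintype.card_fin, Fintype.card_fin]
    simp

end Pool.Agent.Z9
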