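import Pool.Agent.Z9.ArchDefs
import Pool.Agent.Z5.ArchEn

/-! The reference densities used for `ζ(3), ζ(5), ζ(7), ζ(9)` (equal blocks, `M = 4`,
`s = s' = 6`, pole order `10`): data.  Seat: helper6. -/

open Finset

namespace Pool.Agent.Z9

open Pool.Agent.Z5 (Ref NRef Repr Trm cellsOk tailOk)

/-- edges of the blocks of `X`, in units of `1/200` -/
def eX : List ℕ := [400, 1143, 1246, 1512, 1966, 2777, 4245]
/-- densities of the blocks of `X`, in units of `1/1000` -/
def cX : List ℕ := [1000, 829, 444, 234, 111, 39]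
def eZ : List ℕ := [0, 132, 225, 293, 350]
def cZ : List ℕ := [3785, 3602, 3246, 2538]

def NX : NRef where
  B := 6
  e := fun i => eX.getD i 0
  c := fun i => cX.getD i 0
  s := 6

def NZ : NRef where
  B := 4
  e := fun i => eZ.getD i 0
  c := fun i => cZ.getD i 0
  s := 6

/-- reference density of the `F` rows -/
def XX : Ref where
  B := 6
  ed := fun i => ((eX.getD i 0 : ℕ) : ℚ) / 200
  d := fun i => ((cX.getD i 0 : ℕ) : ℚ) / 1000
  s := 6
  B_pos := by norm_num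
  ed_zero := by positivity
  ed_lt := by decide +kernel
  d_pos := by decide +kernel
  total := by decide +kernel

/-- reference density of the `G` rows -/
def ZZ : Ref where
  B := 4
  ed := fun i => ((eZ.getD i 0 : ℕ) : ℚ) / 200
  d := fun i => ((cZ.getD i 0 : ℕ) : ℚ) / 1000
  s := 6
  B_pos := by norm_num
  ed_zero := by positivity
  ed_lt := by decide +kernel
  d_pos := by decide +kernel
  total := by decide +kernel

theorem reprX : Repr 200 1000 NX XX := by
  refine ⟨rfl, ?_, ?_, rfl⟩ <;> intro i _ <;> simp [XX, NX]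

theorem reprZ : Repr 200 1000 NZ ZZ := by
  refine ⟨rfl, ?_, ?_, rfl⟩ <;> intro i _ <;> simp [ZZ, NZ]

/-- jumps of `gF` -/
def tsF : List Trm :=
 [⟨true, 183, 132⟩,
  ⟨true, 356, 225⟩,
  ⟨true, 708, 293⟩,
  ⟨true, 2538, 350⟩,
  ⟨false, 12000, 400⟩,
  ⟨true, 342, 1143⟩,
  ⟨true, 770, 1246⟩,
  ⟨true, 420, 1512⟩,
  ⟨true, 246, 1966⟩,
  ⟨true, 144, 2777⟩,
  ⟨true, 78, 4245⟩]

/-- jumps of `gR` -/
def tsR : List Trm :=
 [⟨true, 366, 132⟩,
  ⟨true, 712, 225⟩,
  ⟨true, 1416, 293⟩,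
  ⟨true, 5076, 350⟩,
  ⟨false, 11000, 400⟩,
  ⟨true, 171, 1143⟩,
  ⟨true, 385, 1246⟩,
  ⟨true, 210, 1512⟩,
  ⟨true, 123, 1966⟩,
  ⟨true, 72, 2777⟩,
  ⟨true, 39, 4245⟩]

/-- jumps of `-gF` -/
def tsFm : List Trm :=
 [⟨false, 183, 132⟩,
  ⟨false, 356, 225⟩,
  ⟨false, 708, 293⟩,
  ⟨false, 2538, 350⟩,
  ⟨true, 12000, 400⟩,
  ⟨false, 342, 1143⟩,
  ⟨false, 770, 1246⟩,
  ⟨false, 420, 1512⟩,
  ⟨false, 246, 1966⟩,
  ⟨false, 144, 2777⟩,
  ⟨false, 78, 4245⟩]

def cellsF : List ℕ := [1166, 1246, 1276, 1321, 1414, 1512, 1552, 1607, 1672, 1831, 1966, 2032, 2114, 2207, 2406, 2777, 2899, 3013, 3138, 3351, 3772, 4245, 4439, 4639, 4856, 5253, 6090, 6587]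
def cellsR : List ℕ := [31, 66, 107, 132, 152, 175, 208, 225, 235, 248, 269, 293, 299, 306, 319, 348, 350, 352, 359, 372, 400]
def cellsS : List ℕ := [886, 1086, 1133, 1143]

set_option maxRecDepth 100000 in
theorem okF : cellsOk 200 tsF 0 2777658 1143 cellsF = true := by decide +kernel

set_option maxRecDepth 100000 in
theorem okR : cellsOk 200 tsR 3899960 0 0 cellsR = true := by decide +kernel

set_option maxRecDepth 100000 in
theorem okS : cellsOk 200 tsFm 2783898 0 400 cellsS = true := by decide +kernel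

set_option maxRecDepth 100000 in
theorem okT : tailOk 200 tsF 0 2777658 6587 = true := by decide +kernel

end Pool.Agent.Z9
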