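import Pool.Agent.Z9.Defs
import Pool.Agent.Z5.ArchDefs

/-!
# Archimedean part: hypotheses

The reference densities, potentials and energies are those of `Pool.Agent.Z5.ArchDefs`.
-/

open Finset

namespace Pool.Agent.Z9

open Pool.Agent.Z5 (Ref gF gR archConst kap)

/-- the hypotheses on the reference densities: `X` for the `F` rows, `Z` for the `G` rows;
`η` is a small error allowed in the saturated zone -/
structure ArchHyp (M : ℕ) (E : ℕ → ℕ) (X Z : Ref) (lF lR η : ℝ) : Prop where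
  hM : 2 ≤ M
  prof : IsProf (M - 1) E
  hX0 : X.ed 0 = M / 2
  hX1 : X.d 0 = 1
  hXB : 2 ≤ X.B
  hZ : Z.ed Z.B < M / 2
  hdeg : 4 * X.s + 2 * Z.s < ∑ m ∈ range M, E m
  hF : ∀ z : ℝ, (X.ed 1 : ℝ) ≤ z → gF M E X Z z ≤ lF
  hR : ∀ z : ℝ, 0 ≤ z → z ≤ M / 2 → gR M E X Z z ≤ lR
  hη : 0 ≤ η
  hS : ∀ z : ℝ, (X.ed 0 : ℝ) ≤ z → z ≤ X.ed 1 → lF - η ≤ gF M E X Z z

end Pool.Agent.Z9
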