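import Pool.Agent.Z9.Main
import Pool.Agent.OddZetaL.Dim
import Pool.Agent.OddZeta.ZetaTail

/-!
# The dimension of the `ℚ`-span of `1, ζ(3), ζ(5), ζ(7), ζ(9)` is at least `3`

The method is that of the proof of the irrationality of `ζ(5)` (`Pool/Agent/Z5`), with poles of order
ten: if the dimension were at most `2`, all four zeta values would be of the form `α + β ζ(5)` with
rational `α, β`, and a mixed determinant with rows `∑_{t ≥ 1} w(t) Y^i Y^j` and rows
`∑_k β_k ρ_{2 k + 1}(Y^i Y^j)` would be a nonzero rational number violating the product formula.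
-/

namespace Pool.Agent.Z9.DimThreeNine

open Pool.Agent.Z5 Pool.Agent.OddZetaL

theorem zeta_eq_zt {s : ℕ} (hs : 1 < s) : riemannZeta (s : ℂ) = ((zt s : ℝ) : ℂ) := by
  rw [zeta_nat_eq_tsum_of_gt_one hs, zt, Complex.ofReal_tsum]
  rw [tsum_eq_zero_add' ]
  · have h0 : (1 : ℂ) / ((0 : ℕ) : ℂ) ^ s = 0 := by
      rw [Nat.cast_zero, zero_pow (by omega), div_zero]
    rw [h0, zero_add]
    refine tsum_congr fun n => ?_
    push_cast
    ring
  · have h1 := (Complex.summable_one_div_nat_cpow (p := (s : ℂ))).2 (by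
      rw [Complex.natCast_re]; exact_mod_cast hs)
    have h2 := (summable_nat_add_iff (f := fun n : ℕ => 1 / (n : ℂ) ^ (s : ℂ)) 1).2 h1
    refine h2.congr fun n => ?_
    rw [Complex.cpow_natCast]

/-- The `ℚ`-vector space spanned by `1, ζ(3), ζ(5), ζ(7), ζ(9)` has dimension at least `3`. -/
theorem dim_three_nine : 3 ≤ Module.finrank ℚ (Submodule.span ℚ (insert (1 : ℝ)
    {y : ℝ | ∃ j : ℕ, Odd j ∧ 3 ≤ j ∧ j ≤ 9 ∧ riemannZeta (j : ℂ) = (y : ℂ)})) := by
  refine finrank_ge_three _ ?_ fun x => ?_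
  · refine Set.Finite.subset (Set.finite_range fun j : Fin 10 => zt j) ?_
    rintro y ⟨j, -, h3, h9, hy⟩
    rw [zeta_eq_zt (by omega : 1 < j)] at hy
    exact ⟨⟨j, by omega⟩, by exact_mod_cast hy⟩
  · obtain ⟨k, hk, h⟩ := Pool.Agent.Z9.exists_not_mem x
    have hk' := Finset.mem_Icc.1 hk
    exact ⟨zt (2 * k + 1), ⟨2 * k + 1, ⟨k, rfl⟩, by omega, by omega, zeta_eq_zt (by omega)⟩, h⟩

end Pool.Agent.Z9.DimThreeNine
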