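import Pool.Agent.Z9.PDefs
import Pool.Agent.Z9.PF
import Pool.Agent.Z9.Lin

/-!
# DIM39: the mixed determinant as a confluent interpolation determinant

Equal blocks, `L + 1 = 2 h`, poles `-u` of order ten.
-/

open Finset

namespace Pool.Agent.Z9

open Pool.Agent.Z5 (dser xser hser lser co rho Hs tot mono monoS Col OD SF SF_pos SF_succ OD_pos
  abs_det_anti abs_det_anti' dual_abs dser_mul_inv hser_add hser_mul hser_zero hser_smul
  sum_range_two_mul prod_fact)

/-! ### the residue pairing on truncated power series -/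

/-- matrix of `(f, g) ↦ coeff 9 (s f g)` -/
noncomputable def pairM (s : PowerSeries ℚ) : Matrix (Fin 10) (Fin 10) ℚ :=
  Matrix.of fun k l => if (k : ℕ) + l ≤ 9 then PowerSeries.coeff (9 - ((k : ℕ) + l)) s else 0

theorem pairM_apply (s f g : PowerSeries ℚ) :
    ∑ k : Fin 10, ∑ l : Fin 10, PowerSeries.coeff (k : ℕ) f * pairM s k l * PowerSeries.coeff (l : ℕ) g =
      PowerSeries.coeff 9 (s * (f * g)) := by
  have h0 : ∀ F : ℕ → ℕ → ℚ, ∑ k : Fin 10, ∑ l : Fin 10, F k l =
      ∑ k ∈ range 10, ∑ l ∈ range 10, F k l := by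
    intro F
    rw [Finset.sum_range]
    exact Finset.sum_congr rfl fun k _ => by rw [Finset.sum_range]
  refine (h0 (fun k l : ℕ => PowerSeries.coeff k f *
      (if k + l ≤ 9 then PowerSeries.coeff (9 - (k + l)) s else 0) * PowerSeries.coeff l g)).trans ?_
  simp only [PowerSeries.coeff_mul,
    Finset.Nat.sum_antidiagonal_eq_sum_range_succ_mk, Finset.sum_range_succ, Finset.sum_range_zero]
  norm_num
  ring

theorem abs_det_pairM (s : PowerSeries ℚ) :
    |(pairM s).det| = |PowerSeries.constantCoeff s| ^ 10 := by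
  apply abs_det_anti'
  · intro i j hij
    rw [pairM, Matrix.of_apply, if_neg (by omega)]
  · intro i j hij
    rw [pairM, Matrix.of_apply, if_pos (by omega)]
    rw [show 9 - ((i : ℕ) + j) = 0 by omega, PowerSeries.coeff_zero_eq_constantCoeff]

/-- the full pairing -/
noncomputable def pairB (h : ℕ) (s : ℕ → PowerSeries ℚ) : Matrix (Fin h × Fin 10) (Fin h × Fin 10) ℚ :=
  Matrix.of fun r r' => if r.1 = r'.1 then pairM (s r.1) r.2 r'.2 else 0

theorem abs_det_pairB (h : ℕ) (s : ℕ → PowerSeries ℚ) :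
    |(pairB h s).det| = ∏ u ∈ range h, |PowerSeries.constantCoeff (s u)| ^ 10 := by
  have h1 : pairB h s = (Matrix.blockDiagonal fun u : Fin h => pairM (s u)).submatrix
      (Equiv.prodComm (Fin h) (Fin 10)) (Equiv.prodComm (Fin h) (Fin 10)) := by
    ext r r'
    obtain ⟨u, k⟩ := r
    obtain ⟨u', k'⟩ := r'
    simp [pairB, Matrix.blockDiagonal_apply]
  rw [h1, Matrix.det_submatrix_equiv_self, Matrix.det_blockDiagonal, Finset.abs_prod,
    Finset.prod_range]
  exact Finset.prod_congr rfl fun u _ => abs_det_pairM _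

/-- matrix of local expansions of a family of tuples of power series -/
noncomputable def expM {κ : Type*} (h : ℕ) (f : κ → ℕ → PowerSeries ℚ) : Matrix (Fin h × Fin 10) κ ℚ :=
  Matrix.of fun r j => PowerSeries.coeff (r.2 : ℕ) (f j r.1)

theorem expM_pair {κ κ' : Type*} (h : ℕ) (s : ℕ → PowerSeries ℚ) (f : κ → ℕ → PowerSeries ℚ)
    (g : κ' → ℕ → PowerSeries ℚ) (i : κ) (j : κ') :
    ((expM h f).transpose * pairB h s * expM h g) i j =
      ∑ u ∈ range h, PowerSeries.coeff 9 (s u * (f i u * g j u)) := by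
  rw [Matrix.mul_apply, Finset.sum_range, Fintype.sum_prod_type]
  refine Finset.sum_congr rfl fun u _ => ?_
  rw [← pairM_apply, Finset.sum_comm]
  refine Finset.sum_congr rfl fun l _ => ?_
  rw [Matrix.mul_apply, Fintype.sum_prod_type, Finset.sum_mul, Finset.sum_eq_single u]
  · rw [Finset.sum_mul]
    refine Finset.sum_congr rfl fun k _ => ?_
    simp [expM, pairB]
  · intro u' _ hu'
    rw [Finset.sum_mul]
    refine Finset.sum_eq_zero fun k _ => ?_
    simp [pairB, hu']
  · intro hu'; exact absurd (Finset.mem_univ u) hu'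

/-- the columns `T_j` in the order needed for the duality -/
noncomputable def vcol (a b m : ℕ) : (Fin a ⊕ Fin b) ⊕ Fin m → Polynomial ℚ :=
  Sum.elim (monoS a b) (fun i => Polynomial.X ^ (a + b + (i : ℕ)))

theorem isProf_dual (h : ℕ) : IsProf (2 * h - 1) (fun _ => 10) where
  pos := fun _ _ => by norm_num
  le := fun _ _ => le_rfl
  symm := fun _ _ => rfl
  even := by
    rw [Finset.sum_const, smul_eq_mul]
    exact Even.mul_left (by decide) _

theorem tot_ten {h : ℕ} (hh : 1 ≤ h) : tot (2 * h - 1) (fun _ => 10) = 20 * h := by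
  rw [tot, Finset.sum_const, smul_eq_mul, Finset.card_range]; omega

/-- the weight factor in the local expansion -/
noncomputable def sser (L u : ℕ) : PowerSeries ℚ := xser L u * (dser L (fun _ => 10) u)⁻¹

theorem lser_eq (L u : ℕ) (f : Polynomial ℚ) : lser L (fun _ => 10) u f = sser L u * hser L u f := rfl

theorem co_ten (L : ℕ) (f : Polynomial ℚ) (u : ℕ) {i : ℕ} (hi : i < 10) :
    co L (fun _ => 10) f u (i + 1) = PowerSeries.coeff (9 - i) (lser L (fun _ => 10) u f) := by
  rw [co, if_pos (by omega), show 10 - (i + 1) = 9 - i by omega]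

theorem rho_half {h : ℕ} (hh : 1 ≤ h) (f : Polynomial ℚ) {i : ℕ} (hi : i < 10) (hi2 : Even i) :
    rho (2 * h - 1) (fun _ => 10) (i + 1) f =
      2 * ∑ u ∈ range h, PowerSeries.coeff (9 - i) (lser (2 * h - 1) (fun _ => 10) u f) := by
  rw [rho, sum_range_two_mul hh, Finset.mul_sum]
  refine Finset.sum_congr rfl fun u hu => ?_
  have := Finset.mem_range.1 hu
  rw [co_symm (isProf_dual h) f (by omega) (by omega), co_ten _ _ _ hi, pow_succ, pow_succ,
    hi2.neg_one_pow]
  ring

/-- pairing of a `Q` column with a `T` column -/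
theorem G_pair {h : ℕ} (hh : 1 ≤ h) (β : ℕ → ℚ) (f g : Polynomial ℚ) :
    G (2 * h - 1) (fun _ => 10) β (f * g) = 2 * ∑ u ∈ range h, PowerSeries.coeff 9
      (sser (2 * h - 1) u * ((kerQ β * hser (2 * h - 1) u f) * hser (2 * h - 1) u g)) := by
  have h1 : ∀ k ∈ Finset.Icc 1 4, β k * rho (2 * h - 1) (fun _ => 10) (2 * k + 1) (f * g) =
      2 * ∑ u ∈ range h, PowerSeries.coeff 9 (PowerSeries.C (β k) * PowerSeries.X ^ (2 * k) *
        lser (2 * h - 1) (fun _ => 10) u (f * g)) := by
    intro k hk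
    have hk' := Finset.mem_Icc.1 hk
    rw [rho_half hh _ (by omega) ⟨k, by ring⟩, mul_left_comm, Finset.mul_sum]
    congr 1
    refine Finset.sum_congr rfl fun u _ => ?_
    rw [mul_assoc, PowerSeries.coeff_C_mul, PowerSeries.coeff_X_pow_mul', if_pos (by omega)]
  rw [G, Finset.sum_congr rfl h1, ← Finset.mul_sum, Finset.sum_comm]
  congr 1
  refine Finset.sum_congr rfl fun u _ => ?_
  rw [← map_sum, ← Finset.sum_mul, ← kerQ, lser_eq, hser_mul]
  congr 1
  ring

/-- pairing of two `T` columns -/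
theorem rho_one_pair {h : ℕ} (hh : 1 ≤ h) (f g : Polynomial ℚ) :
    ∑ u ∈ range h, PowerSeries.coeff 9
      (sser (2 * h - 1) u * (hser (2 * h - 1) u f * hser (2 * h - 1) u g)) =
      rho (2 * h - 1) (fun _ => 10) 1 (f * g) / 2 := by
  rw [show (1 : ℕ) = 0 + 1 from rfl, rho_half hh _ (by norm_num) (by decide)]
  rw [mul_div_cancel_left₀ _ (two_ne_zero)]
  refine Finset.sum_congr rfl fun u _ => ?_
  rw [lser_eq, hser_mul]

/-- the pairing of `g` -/
theorem rho0_pair {h : ℕ} (hh : 1 ≤ h) (f : Polynomial ℚ) :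
    rho0 (2 * h - 1) (fun _ => 10) f = ∑ u ∈ range h, PowerSeries.coeff 9
      ((PowerSeries.mk fun i => if i < 10 then
        -(Hs (i + 1) u + (-1) ^ i * Hs (i + 1) (2 * h - 1 - u)) else 0) *
          lser (2 * h - 1) (fun _ => 10) u f) := by
  set L := 2 * h - 1 with hL
  rw [rho0, sum_range_two_mul hh, ← hL, ← Finset.sum_neg_distrib]
  refine Finset.sum_congr rfl fun u hu => ?_
  have hu' := Finset.mem_range.1 hu
  have hs : ∀ i : ℕ, 1 ≤ i → co L (fun _ => 10) f (L - u) i =
      (-1) ^ (i + 1) * co L (fun _ => 10) f u i := fun i hi =>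
    co_symm (isProf_dual h) _ (by omega) hi
  have h1 : ∀ F : ℕ → ℚ, ∑ i ∈ Icc 1 10, F i = ∑ i ∈ range 10, F (i + 1) := by
    intro F
    rw [show (Icc 1 10 : Finset ℕ) = (range 10).map ⟨(· + 1), add_left_injective 1⟩ by decide,
      sum_map]
    rfl
  rw [h1, h1, ← Finset.sum_add_distrib, ← Finset.sum_neg_distrib, PowerSeries.coeff_mul,
    Finset.Nat.sum_antidiagonal_eq_sum_range_succ_mk]
  refine Finset.sum_congr rfl fun i hi => ?_
  have hi' := Finset.mem_range.1 hi
  rw [hs _ (by omega), co_ten L _ u hi', PowerSeries.coeff_mk, if_pos hi', pow_succ, pow_succ]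
  ring

/-- pairing of a `P` column with a `T` column -/
theorem Ph_pair {h : ℕ} (hh : 1 ≤ h) (α : ℕ → ℚ) (f g : Polynomial ℚ) :
    Ph (2 * h - 1) (fun _ => 10) α (f * g) = ∑ u ∈ range h, PowerSeries.coeff 9
      (sser (2 * h - 1) u * ((kerP (2 * h - 1) α u * hser (2 * h - 1) u f) *
        hser (2 * h - 1) u g)) := by
  rw [Ph, rho0_pair hh, G_pair hh, Finset.mul_sum, ← Finset.sum_add_distrib]
  refine Finset.sum_congr rfl fun u _ => ?_
  rw [show (2 : ℚ) * PowerSeries.coeff 9 (sser (2 * h - 1) u *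
    ((kerQ α * hser (2 * h - 1) u f) * hser (2 * h - 1) u g)) =
    PowerSeries.coeff 9 (2 * (sser (2 * h - 1) u *
    ((kerQ α * hser (2 * h - 1) u f) * hser (2 * h - 1) u g))) by
      rw [show (2 : PowerSeries ℚ) = PowerSeries.C 2 from (map_ofNat PowerSeries.C 2).symm,
        PowerSeries.coeff_C_mul], ← map_add, lser_eq, hser_mul, kerP]
  congr 1
  ring

/-- the residue sum as a coefficient of the numerator -/
theorem rho_one_coeff {L : ℕ} {e : ℕ → ℕ} (he : IsProf L e) (f : Polynomial ℚ)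
    (hd : 2 * f.natDegree + 2 ≤ tot L e) :
    rho L e 1 f = (num L e f).coeff (10 * (L + 1) - 1) := by
  have h0 := congrArg (fun P => Polynomial.coeff P (10 * (L + 1) - 1)) (num_eq he f (by omega))
  rw [Polynomial.finsetSum_coeff] at h0
  rw [rho, h0]
  refine sum_congr rfl fun u hu => ?_
  rw [Polynomial.finsetSum_coeff]
  have hM : (Helper8.Mj L u).Monic := Polynomial.monic_prod_of_monic _ _ fun v _ =>
    Polynomial.monic_X_add_C _
  have hMd : (Helper8.Mj L u).natDegree = L := by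
    rw [Helper8.Mj, Polynomial.natDegree_prod_of_monic _ _ fun v _ => Polynomial.monic_X_add_C _]
    simp only [Polynomial.natDegree_X_add_C]
    rw [sum_const, card_erase_of_mem hu, card_range]; simp
  have hmon : ∀ i : ℕ, ((Polynomial.X + Polynomial.C (u : ℚ)) ^ (10 - i) *
      Helper8.Mj L u ^ 10).Monic :=
    fun i => ((Polynomial.monic_X_add_C _).pow _).mul (hM.pow _)
  have hdeg : ∀ i : ℕ, ((Polynomial.X + Polynomial.C (u : ℚ)) ^ (10 - i) *
      Helper8.Mj L u ^ 10).natDegree = 10 - i + 10 * L := by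
    intro i
    rw [((Polynomial.monic_X_add_C _).pow _).natDegree_mul (hM.pow _), (Polynomial.monic_X_add_C
      _).natDegree_pow, hM.natDegree_pow, Polynomial.natDegree_X_add_C, hMd, mul_one]
  symm
  rw [sum_eq_single_of_mem 1 (mem_Icc.2 ⟨le_rfl, by norm_num⟩)]
  · rw [mul_assoc, Polynomial.coeff_C_mul]
    have h2 : 10 * (L + 1) - 1 = ((Polynomial.X + Polynomial.C (u : ℚ)) ^ (10 - 1) *
        Helper8.Mj L u ^ 10).natDegree := by
      rw [hdeg]; omega
    rw [h2, (hmon 1).coeff_natDegree, mul_one]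
  · intro i hi hi1
    have hi' := mem_Icc.1 hi
    rw [mul_assoc, Polynomial.coeff_C_mul, Polynomial.coeff_eq_zero_of_natDegree_lt, mul_zero]
    rw [hdeg]; omega

theorem num_ten (L n : ℕ) : num L (fun _ => 10) (Polynomial.X ^ n) =
    (2 * Polynomial.X + Polynomial.C (L : ℚ)) ^ (2 * n + 1) := by
  rw [num, Polynomial.X_pow_comp]
  simp only [Nat.sub_self, pow_zero, Finset.prod_const_one, mul_one]
  rw [← pow_mul, pow_succ]
  ring

theorem rho_one_zero {h : ℕ} (hh : 1 ≤ h) {n : ℕ} (hn : n + 1 < 10 * h) :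
    rho (2 * h - 1) (fun _ => 10) 1 (Polynomial.X ^ n) = 0 := by
  apply rho_one (isProf_dual h)
  rw [Polynomial.natDegree_X_pow, tot_ten hh]
  omega

theorem rho_one_top {h : ℕ} (hh : 1 ≤ h) :
    rho (2 * h - 1) (fun _ => 10) 1 (Polynomial.X ^ (10 * h - 1)) = 2 * 4 ^ (10 * h - 1) := by
  rw [rho_one_coeff (isProf_dual h), num_ten]
  · have h1 : 10 * (2 * h - 1 + 1) - 1 = 2 * (10 * h - 1) + 1 := by omega
    rw [h1]
    have h2 : (2 * Polynomial.X + Polynomial.C ((2 * h - 1 : ℕ) : ℚ)) =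
        Polynomial.C 2 * Polynomial.X + Polynomial.C ((2 * h - 1 : ℕ) : ℚ) := by
      rw [show (2 : Polynomial ℚ) = Polynomial.C 2 from (map_ofNat Polynomial.C 2).symm]
    rw [h2]
    have h3 := Polynomial.coeff_pow_mul_natDegree
      (Polynomial.C (2 : ℚ) * Polynomial.X + Polynomial.C ((2 * h - 1 : ℕ) : ℚ)) (2 * (10 * h - 1) + 1)
    rw [Polynomial.natDegree_linear (by norm_num : (2 : ℚ) ≠ 0), mul_one,
      Polynomial.leadingCoeff_linear (by norm_num : (2 : ℚ) ≠ 0)] at h3
    rw [h3, pow_succ, pow_mul]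
    norm_num
    ring
  · rw [Polynomial.natDegree_X_pow, tot_ten hh]
    omega

/-! ### the determinant of the pairing -/

theorem abs_const_sser {h : ℕ} {u : ℕ} (hu : u < h) :
    |PowerSeries.constantCoeff (sser (2 * h - 1) u)| =
      (2 * (h - 1 - u : ℕ) + 1 : ℚ) / ((u.factorial : ℚ) * ((2 * h - 1 - u).factorial : ℚ)) ^ 10 := by
  have h1 : PowerSeries.constantCoeff (xser (2 * h - 1) u) = (2 * (h - 1 - u : ℕ) + 1 : ℚ) := by
    rw [xser, map_add, PowerSeries.constantCoeff_C, map_mul, PowerSeries.constantCoeff_X, mul_zero,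
      add_zero]
    rw [show 2 * h - 1 = 2 * u + (2 * (h - 1 - u) + 1) by omega]
    push_cast
    ring
  have h2 : |PowerSeries.constantCoeff (dser (2 * h - 1) (fun _ => 10) u)| =
      ((u.factorial : ℚ) * ((2 * h - 1 - u).factorial : ℚ)) ^ 10 := by
    rw [dser, map_prod, Finset.abs_prod]
    have h3 : ∀ v ∈ (range (2 * h - 1 + 1)).erase u,
        |PowerSeries.constantCoeff ((PowerSeries.C ((v : ℚ) - u) + PowerSeries.X) ^ 10)| =
          |(v : ℚ) - u| ^ 10 := by
      intro v _
      rw [map_pow, map_add, PowerSeries.constantCoeff_C, PowerSeries.constantCoeff_X, add_zero,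
        abs_pow]
    rw [Finset.prod_congr rfl h3, Finset.prod_pow]
    congr 1
    have h4 : (range (2 * h - 1 + 1)).erase u = range u ∪ (Ico (u + 1) (2 * h - 1 + 1)) := by
      ext v
      simp only [mem_erase, mem_range, mem_union, mem_Ico]
      omega
    have h5 : Disjoint (range u) (Ico (u + 1) (2 * h - 1 + 1)) := by
      rw [Finset.disjoint_left]
      intro v hv hv'
      simp only [mem_range, mem_Ico] at hv hv'
      omega
    rw [h4, Finset.prod_union h5]
    congr 1
    · rw [← Finset.prod_range_reflect, ← Finset.prod_range_add_one_eq_factorial]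
      push_cast
      refine Finset.prod_congr rfl fun v hv => ?_
      have := Finset.mem_range.1 hv
      rw [show u - 1 - v = u - (v + 1) by omega, Nat.cast_sub (by omega), abs_sub_comm]
      push_cast
      rw [abs_of_nonneg (by linarith [v.cast_nonneg (α := ℚ)])]
      ring
    · rw [Finset.prod_Ico_eq_prod_range, ← Finset.prod_range_add_one_eq_factorial]
      push_cast
      refine Finset.prod_congr (by congr 1) fun v _ => ?_
      rw [show ((u : ℚ) + 1 + v - u) = v + 1 by ring, abs_of_nonneg (by positivity)]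
  rw [sser, map_mul, abs_mul, h1, abs_of_nonneg (by positivity)]
  have h6 : PowerSeries.constantCoeff (dser (2 * h - 1) (fun _ => 10) u) *
      PowerSeries.constantCoeff (dser (2 * h - 1) (fun _ => 10) u)⁻¹ = 1 := by
    rw [← map_mul, dser_mul_inv, map_one]
  have h7 : |PowerSeries.constantCoeff (dser (2 * h - 1) (fun _ => 10) u)| *
      |PowerSeries.constantCoeff (dser (2 * h - 1) (fun _ => 10) u)⁻¹| = 1 := by
    rw [← abs_mul, h6, abs_one]
  rw [h2] at h7
  rw [eq_div_iff (by positivity), mul_assoc, mul_comm |_|, h7, mul_one]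

theorem abs_det_B {h : ℕ} : |(pairB h (sser (2 * h - 1))).det| * ((OD h : ℚ) ^ 45 * (SF h : ℚ) ^ 100) ^ 2
    = 1 := by
  rw [abs_det_pairB]
  have h1 : ∀ u ∈ range h, |PowerSeries.constantCoeff (sser (2 * h - 1) u)| ^ 10 =
      (2 * (h - 1 - u : ℕ) + 1 : ℚ) ^ 10 /
        (((u.factorial * (2 * h - 1 - u).factorial : ℕ) : ℚ)) ^ 100 := by
    intro u hu
    rw [abs_const_sser (Finset.mem_range.1 hu), div_pow, ← pow_mul]
    push_cast
    rfl
  rw [Finset.prod_congr rfl h1, Finset.prod_div_distrib, Finset.prod_pow, Finset.prod_pow,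
    ← Nat.cast_prod, prod_fact]
  have h2 : ∏ u ∈ range h, (2 * (h - 1 - u : ℕ) + 1 : ℚ) = (OD h : ℚ) := by
    rw [OD]
    push_cast
    rw [Finset.prod_range_reflect (fun j => (2 * (j : ℚ) + 1)) h]
  rw [h2]
  have h3 : (0 : ℚ) < OD h := by exact_mod_cast OD_pos h
  have h4 : (0 : ℚ) < SF h := by exact_mod_cast SF_pos h
  push_cast
  field_simp

/-! ### the duality -/

theorem tvec_T (L u : ℕ) (f : Polynomial ℚ) (α β : ℕ → ℚ) : tvec L α β u (f, 0, 0) = hser L u f := by
  simp [tvec, hser_zero]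

theorem tvec_P (L u : ℕ) (f : Polynomial ℚ) (α β : ℕ → ℚ) :
    tvec L α β u (0, f, 0) = kerP L α u * hser L u f := by
  simp [tvec, hser_zero]

theorem tvec_Q (L u : ℕ) (f : Polynomial ℚ) (α β : ℕ → ℚ) :
    tvec L α β u (0, 0, f) = kerQ β * hser L u f := by
  simp [tvec, hser_zero]

theorem tvec_add (L u : ℕ) (α β : ℕ → ℚ) (c d : Col) :
    tvec L α β u (c + d) = tvec L α β u c + tvec L α β u d := by
  simp only [tvec, Prod.fst_add, Prod.snd_add, hser_add]
  ring

theorem tvec_smul (L u : ℕ) (α β : ℕ → ℚ) (r : ℚ) (c : Col) :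
    tvec L α β u (r • c) = r • tvec L α β u c := by
  simp only [tvec, Prod.smul_fst, Prod.smul_snd, hser_smul, smul_add, mul_smul_comm]

/-- `tvec` as a linear map -/
noncomputable def tvecL (L : ℕ) (α β : ℕ → ℚ) (u : ℕ) : Col →ₗ[ℚ] PowerSeries ℚ where
  toFun := tvec L α β u
  map_add' := tvec_add L u α β
  map_smul' := tvec_smul L u α β

theorem tvec_sum {ι : Type*} (L u : ℕ) (α β : ℕ → ℚ) (s : Finset ι) (f : ι → Col) :
    tvec L α β u (∑ i ∈ s, f i) = ∑ i ∈ s, tvec L α β u (f i) := map_sum (tvecL L α β u) f s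

/-- multiplication of a column by a polynomial -/
theorem tvec_mul (L u : ℕ) (α β : ℕ → ℚ) (p : Polynomial ℚ) (c : Col) :
    tvec L α β u (p * c.1, p * c.2.1, p * c.2.2) = hser L u p * tvec L α β u c := by
  simp only [tvec, hser_mul]; ring

/-- column operations -/
theorem dmat_mul {κ κ' : Type*} [Fintype κ] (L : ℕ) (α β : ℕ → ℚ) (h : ℕ) (c : κ → Col)
    (U : Matrix κ κ' ℚ) : dmat L α β h (fun j => ∑ k, U k j • c k) = dmat L α β h c * U := by
  ext r j
  simp only [dmat, Matrix.of_apply, Matrix.mul_apply, tvec_sum, tvec_smul, map_sum,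
    PowerSeries.coeff_smul]
  exact Finset.sum_congr rfl fun k _ => by rw [smul_eq_mul, mul_comm]

/-- the local expansions belonging to a family of columns -/
noncomputable def fam {κ : Type*} (L : ℕ) (α β : ℕ → ℚ) (c : κ → Col) :
    κ → ℕ → PowerSeries ℚ := fun j u => tvec L α β u (c j)

theorem dmat_eq {κ : Type*} (L : ℕ) (α β : ℕ → ℚ) (h : ℕ) (c : κ → Col) :
    dmat L α β h c = expM h (fam L α β c) := rfl

variable {h a b m : ℕ}

theorem T_zero (hh : 1 ≤ h) (α β : ℕ → ℚ) {i j : ℕ} (hij : i + j + 1 < 10 * h) :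
    ∑ u ∈ range h, PowerSeries.coeff 9 (sser (2 * h - 1) u *
      (tvec (2 * h - 1) α β u (Polynomial.X ^ i, 0, 0) *
        tvec (2 * h - 1) α β u (Polynomial.X ^ j, 0, 0))) = 0 := by
  simp only [tvec_T]
  rw [rho_one_pair hh, ← pow_add, rho_one_zero hh hij, zero_div]

theorem T_top (hh : 1 ≤ h) (α β : ℕ → ℚ) {i j : ℕ} (hij : i + j + 1 = 10 * h) :
    ∑ u ∈ range h, PowerSeries.coeff 9 (sser (2 * h - 1) u *
      (tvec (2 * h - 1) α β u (Polynomial.X ^ i, 0, 0) *
        tvec (2 * h - 1) α β u (Polynomial.X ^ j, 0, 0))) = 4 ^ (10 * h - 1) := by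
  simp only [tvec_T]
  rw [rho_one_pair hh, ← pow_add, show i + j = 10 * h - 1 by omega, rho_one_top hh,
    mul_div_cancel_left₀ _ (two_ne_zero)]

/-- a family of `T` columns -/
noncomputable def tcol {κ : Type*} (f : κ → Polynomial ℚ) : κ → Col :=
  fun j => (f j, 0, 0)

theorem dual_step (hh : 1 ≤ h) (habm : a + b + m = 10 * h) (α β : ℕ → ℚ)
    (E : Fin h × Fin 10 ≃ (Fin a ⊕ Fin b) ⊕ Fin m) :
    |((dmat (2 * h - 1) α β h (stdc a b m)).submatrix id E).det| *
      |(pairB h (sser (2 * h - 1))).det| *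
      |((dmat (2 * h - 1) α β h (tcol (vcol a b m))).submatrix id E).det| * 2 ^ b =
      |DQ (2 * h - 1) (fun _ => 10) α β a b| * (4 ^ (10 * h - 1)) ^ m := by
  have key := dual_abs E (pairB h (sser (2 * h - 1)))
    (dmat (2 * h - 1) α β h (stdc a b m)) (dmat (2 * h - 1) α β h (tcol (vcol a b m)))
    (4 ^ (10 * h - 1)) ?_ ?_ ?_
  · rw [key]
    have h1 : |(4 : ℚ) ^ (10 * h - 1)| = 4 ^ (10 * h - 1) := abs_of_nonneg (by positivity)
    rw [h1]
    have h2 : gmat (2 * h - 1) (fun _ => 10) α β (mono a) (mono b) (monoS a b) =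
        (Matrix.diagonal (Sum.elim (fun _ : Fin a => (1 : ℚ)) (fun _ : Fin b => (2 : ℚ)))) *
        ((dmat (2 * h - 1) α β h (stdc a b m)).transpose * pairB h (sser (2 * h - 1)) *
          dmat (2 * h - 1) α β h (tcol (vcol a b m))).toBlocks₁₁ := by
      ext i j
      rw [Matrix.diagonal_mul, Matrix.toBlocks₁₁, Matrix.of_apply, dmat_eq, dmat_eq, expM_pair]
      rcases i with i | i
      · simp only [gmat, Matrix.of_apply, Sum.elim_inl, one_mul, fam, stdc, tcol, vcol, tvec_T,
          tvec_P, mono]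
        rw [Ph_pair hh]
      · simp only [gmat, Matrix.of_apply, Sum.elim_inl, Sum.elim_inr, fam, stdc, tcol, vcol,
          tvec_T, tvec_Q, mono]
        rw [G_pair hh]
    rw [DQ, h2, Matrix.det_mul, Matrix.det_diagonal, abs_mul]
    simp
    ring
  · intro i j
    rw [dmat_eq, dmat_eq, expM_pair]
    rcases j with j | j
    · simp only [fam, stdc, tcol, vcol, monoS, Sum.elim_inl, Sum.elim_inr]
      exact T_zero hh α β (by have := i.2; have := j.2; omega)
    · simp only [fam, stdc, tcol, vcol, monoS, Sum.elim_inl, Sum.elim_inr]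
      exact T_zero hh α β (by have := i.2; have := j.2; omega)
  · intro i j hij
    rw [dmat_eq, dmat_eq, expM_pair]
    simp only [fam, stdc, tcol, vcol, Sum.elim_inr]
    exact T_zero hh α β (by omega)
  · intro i j hij
    rw [dmat_eq, dmat_eq, expM_pair]
    simp only [fam, stdc, tcol, vcol, Sum.elim_inr]
    exact T_top hh α β (by omega)

/-- all columns `T_j`, `j < 10 h` -/
theorem dual_V (hh : 1 ≤ h) (α β : ℕ → ℚ) (E : Fin h × Fin 10 ≃ Fin (10 * h)) :
    |((dmat (2 * h - 1) α β h (tcol (mono (10 * h)))).submatrix id E).det| ^ 2 *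
      |(pairB h (sser (2 * h - 1))).det| = (4 ^ (10 * h - 1)) ^ (10 * h) := by
  set V := dmat (2 * h - 1) α β h (tcol (mono (10 * h))) with hV
  set B := pairB h (sser (2 * h - 1)) with hB
  have h2 : (V.transpose * B * V).submatrix E E =
      (V.submatrix id E).transpose * B * (V.submatrix id E) := by
    ext i j
    simp [Matrix.mul_apply, Matrix.transpose_apply]
  have h3 : ((V.transpose * B * V).submatrix E E).det = (V.transpose * B * V).det :=
    Matrix.det_submatrix_equiv_self E _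
  have h4 : |(V.transpose * B * V).det| = |(4 : ℚ) ^ (10 * h - 1)| ^ (10 * h) := by
    apply abs_det_anti
    · intro i j hij
      rw [hV, hB, dmat_eq, expM_pair]
      simp only [fam, tcol, mono]
      exact T_zero hh α β (by omega)
    · intro i j hij
      rw [hV, hB, dmat_eq, expM_pair]
      simp only [fam, tcol, mono]
      exact T_top hh α β (by omega)
  have h5 : |(4 : ℚ) ^ (10 * h - 1)| = 4 ^ (10 * h - 1) := abs_of_nonneg (by positivity)
  rw [h5, ← h3, h2, Matrix.det_mul, Matrix.det_mul, Matrix.det_transpose, abs_mul, abs_mul] at h4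
  rw [← h4]
  ring

/-- the columns of `vcol` are the monomials of degree `< 10 h` -/
def eqv (habm : a + b + m = 10 * h) : (Fin a ⊕ Fin b) ⊕ Fin m ≃ Fin (10 * h) :=
  ((finSumFinEquiv.sumCongr (Equiv.refl _)).trans finSumFinEquiv).trans (finCongr habm)

theorem vcol_eq (habm : a + b + m = 10 * h) (j : (Fin a ⊕ Fin b) ⊕ Fin m) :
    vcol a b m j = mono (10 * h) (eqv habm j) := by
  rcases j with (j | j) | j
  · simp [vcol, monoS, mono, eqv]
  · simp [vcol, monoS, mono, eqv]
  · simp [vcol, mono, eqv]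

theorem dual_det (hh : 1 ≤ h) (habm : a + b + m = 10 * h) (α β : ℕ → ℚ)
    (E : Fin h × Fin 10 ≃ (Fin a ⊕ Fin b) ⊕ Fin m) :
    |DQ (2 * h - 1) (fun _ => 10) α β a b| * (4 ^ (10 * h - 1)) ^ m * ((OD h : ℚ) ^ 45 * (SF h : ℚ) ^ 100)
      = 2 ^ b * (4 ^ (10 * h - 1)) ^ (5 * h) *
        |((dmat (2 * h - 1) α β h (stdc a b m)).submatrix id E).det| := by
  have h1 := dual_step hh habm α β E
  have h2 := dual_V hh α β (E.trans (eqv habm))
  have h3 := abs_det_B (h := h)
  have h4 : ((dmat (2 * h - 1) α β h (tcol (vcol a b m))).submatrix id E) =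
      ((dmat (2 * h - 1) α β h (tcol (mono (10 * h)))).submatrix id (E.trans (eqv habm))) := by
    ext r j
    simp only [Matrix.submatrix_apply, dmat, Matrix.of_apply, tcol, Equiv.trans_apply, id,
      vcol_eq habm]
  rw [h4] at h1
  set V := |((dmat (2 * h - 1) α β h (tcol (mono (10 * h)))).submatrix id (E.trans (eqv habm))).det|
    with hV
  set M := |((dmat (2 * h - 1) α β h (stdc a b m)).submatrix id E).det| with hM
  set B := |(pairB h (sser (2 * h - 1))).det| with hB
  set S := ((OD h : ℚ) ^ 45 * (SF h : ℚ) ^ 100) with hS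
  have hV0 : 0 ≤ V := abs_nonneg _
  have hM0 : 0 ≤ M := abs_nonneg _
  have hS0 : 0 < S := by
    have h5 : (0 : ℚ) < OD h := by exact_mod_cast OD_pos h
    have h6 : (0 : ℚ) < SF h := by exact_mod_cast SF_pos h
    positivity
  have h7 : (4 ^ (10 * h - 1) : ℚ) ^ (10 * h) = ((4 ^ (10 * h - 1)) ^ (5 * h)) ^ 2 := by
    rw [← pow_mul _ (5 * h) 2]; congr 1; ring
  rw [h7] at h2
  have h8 : V = (4 ^ (10 * h - 1)) ^ (5 * h) * S := by
    have h9 : V ^ 2 = ((4 ^ (10 * h - 1)) ^ (5 * h) * S) ^ 2 := by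
      rw [mul_pow, ← h2, mul_assoc, h3, mul_one]
    exact (pow_left_inj₀ hV0 (by positivity) two_ne_zero).1 h9
  have hB1 : B * S * S = 1 := by rw [mul_assoc, ← sq]; exact h3
  rw [← h1, h8]
  calc M * B * ((4 ^ (10 * h - 1)) ^ (5 * h) * S) * 2 ^ b * S
      = 2 ^ b * (4 ^ (10 * h - 1)) ^ (5 * h) * M * (B * S * S) := by ring
    _ = _ := by rw [hB1, mul_one]

end Pool.Agent.Z9
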