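import Pool.Agent.Z9.Defs
import Pool.Agent.Z5.PDefs
import Pool.Agent.Z5.PBounds

/-!
# DIM39: definitions for the dual determinant and the `p`-adic part

`L + 1 = 2 h`, poles of order ten.  At the pole `t = -u + ε` a column `(A, B, C)` is the series
`A(Y) + B(Y) * kerP + C(Y) * kerQ` with `kerQ = ∑ β_k ε ^ (2 k)`, `kerP = -g + 2 ∑ α_k ε ^ (2 k)`,
`g = ∑_{m ≤ u} 1 / (m - ε) + ∑_{m ≤ L - u} 1 / (m + ε)`, everything modulo `ε ^ 10`.
The definitions `VG`, `PG`, `Cls`, `yv`, `gS`, `zz`, `sg2`, `cl`, `Col`, `OD`, `SF`, `Hs` are those of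
`Pool.Agent.Z5`.
-/

open Finset Polynomial

namespace Pool.Agent.Z9

open Pool.Agent.Z5 (hser Hs Col VG PG Cls yv gS zz sg2 cl SF OD)

/-- `∑ β_k ε ^ (2 k)`, `k = 1, …, 4` -/
noncomputable def kerQ (β : ℕ → ℚ) : PowerSeries ℚ :=
  ∑ k ∈ Finset.Icc 1 4, PowerSeries.C (β k) * PowerSeries.X ^ (2 * k)

/-- `-g + 2 ∑ α_k ε ^ (2 k)` at the pole `-u` (modulo `ε ^ 10`) -/
noncomputable def kerP (L : ℕ) (α : ℕ → ℚ) (u : ℕ) : PowerSeries ℚ :=
  (PowerSeries.mk fun i => if i < 10 then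
      -(Hs (i + 1) u + (-1) ^ i * Hs (i + 1) (L - u)) else 0) + 2 * kerQ α

/-- the local expansion of a column at the pole `-u` -/
noncomputable def tvec (L : ℕ) (α β : ℕ → ℚ) (u : ℕ) (c : Col) : PowerSeries ℚ :=
  hser L u c.1 + kerP L α u * hser L u c.2.1 + kerQ β * hser L u c.2.2

/-- the dual matrix: rows `(u, k)`, columns = triples of polynomials -/
noncomputable def dmat {κ : Type*} (L : ℕ) (α β : ℕ → ℚ) (h : ℕ) (c : κ → Col) :
    Matrix (Fin h × Fin 10) κ ℚ :=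
  Matrix.of fun r j => PowerSeries.coeff (r.2 : ℕ) (tvec L α β r.1 (c j))

/-- the standard columns -/
noncomputable def stdc (a b m : ℕ) : (Fin a ⊕ Fin b) ⊕ Fin m → Col :=
  Sum.elim (Sum.elim (fun i => (0, X ^ (i : ℕ), 0)) (fun i => (0, 0, X ^ (i : ℕ))))
    (fun i => (X ^ (i : ℕ), 0, 0))

/-- the first ten coefficients have `v_q ≥ k` -/
def SG (q : ℕ) (k : ℤ) (f : PowerSeries ℚ) : Prop := ∀ n < 10, VG q k (PowerSeries.coeff n f)

/-- the numbers `α_1, …, α_4` are `q`-integral -/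
def VI (q : ℕ) (α : ℕ → ℚ) : Prop := ∀ k ∈ Finset.Icc 1 4, VG q 0 (α k)

/-- the matrix of a class of poles -/
noncomputable def cmat (q L : ℕ) (α β : ℕ → ℚ) (r K : ℕ) (c : Fin K × Fin 10 → Col) :
    Matrix (Fin K × Fin 10) (Fin K × Fin 10) ℚ :=
  Matrix.of fun x y => PowerSeries.coeff (x.2 : ℕ) (tvec L α β (r + q * x.1) (c y))

/-- scaled column: `ε = q ζ` -/
noncomputable def sc (q L : ℕ) (α β : ℕ → ℚ) (r i : ℕ) (c : Col) : PowerSeries ℚ :=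
  PowerSeries.rescale (q : ℚ) (tvec L α β (r + q * i) c)

/-- a class with two poles, in the variable `ζ`: `A(q z) + B(q z) σ` plus a vector divisible by
`q ^ 9`, with `A` integral and `B` of valuation at least `k` -/
def Adm2 (q : ℕ) (k : ℤ) (F : Fin 2 → PowerSeries ℚ) : Prop :=
  ∃ A B : ℚ[X], PG q 0 A ∧ PG q k B ∧ ∀ i : Fin 2,
    SG q 9 (F i - (aeval (PowerSeries.C (q : ℚ) * zz i) A +
      aeval (PowerSeries.C (q : ℚ) * zz i) B * sg2 i))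

/-- the determinant of the dual matrix for `L + 1 = 4 p`, `a = b = 6 p`, `m = 8 p` -/
noncomputable def DM (p : ℕ) (α β : ℕ → ℚ)
    (eq : Fin (2 * p) × Fin 10 ≃ (Fin (6 * p) ⊕ Fin (6 * p)) ⊕ Fin (8 * p)) : ℚ :=
  ((dmat (4 * p - 1) α β (2 * p) (stdc (6 * p) (6 * p) (8 * p))).submatrix id eq).det

/-- `∏_{a < 8p} (2a)! (∏_{a < 6p} (2a)!)^2` -/
def RR (p : ℕ) : ℕ := SF (8 * p) * SF (6 * p) ^ 2

/-- the lower bounds of the valuations, `N = 4 p` -/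
structure PBounds (C : ℝ) (p : ℕ) (v : ℕ → ℤ) : Prop where
  /-- range 0 -/
  r0 : ∀ q : ℕ, q.Prime → 4 * p ≤ q → 0 ≤ v q
  /-- range 1 -/
  r1 : ∀ q : ℕ, q.Prime → 2 * p < q → q < 4 * p → (5 * q - 20 * p : ℝ) - C ≤ v q
  /-- range 2 -/
  r2 : ∀ q : ℕ, q.Prime → 2 * p < q → q < 4 * p → (-6 * p : ℝ) - C ≤ v q
  /-- range 3 -/
  r3 : ∀ q : ℕ, q.Prime → 4 * p < 3 * q → q ≤ 2 * p → (32 * p - 19 * q : ℝ) - C ≤ v q
  /-- range 4 -/
  r4 : ∀ q : ℕ, q.Prime → 4 * p < q ^ 2 → 3 * q ≤ 4 * p →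
    (padicValNat q (RR p) : ℝ) - 84 * p - C * (4 * p / q + 1) ^ 2 - (if q ^ 2 ≤ 16 * p then C * p else 0) ≤ v q
  /-- small primes -/
  small : ∀ q : ℕ, q.Prime → q ^ 2 ≤ 4 * p →
    ((padicValNat q (RR p) : ℝ) + if q = 2 then 136 * (p : ℝ) ^ 2 else 0) * Real.log q
      - C * p * Real.log p ≤ v q * Real.log q

end Pool.Agent.Z9
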