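import Pool.Agent.Z9.PBridge
import Pool.Agent.Z9.DualDet
import Pool.Agent.Z9.PadicMain
import Pool.Agent.Z5.MainArith

/-!
# Lower bound of the rational determinant
-/

open Finset Filter

namespace Pool.Agent.Z9

open Pool.Agent.Z5 (OD SF SF_pos OD_pos gSF log_SF log_abs_ge log_OD_le eventually_small
  eventually_err zt tot)

theorem log_RR_nine (p : ℕ) :
    Real.log (RR p) = Real.log (SF (8 * p)) + 2 * Real.log (SF (6 * p)) := by
  have h1 : (0 : ℝ) < SF (8 * p) := by exact_mod_cast SF_pos _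
  have h2 : (0 : ℝ) < SF (6 * p) := by exact_mod_cast SF_pos _
  unfold RR
  push_cast
  rw [Real.log_mul h1.ne' (by positivity), Real.log_pow]
  push_cast
  ring

theorem exists_equiv (p : ℕ) : 
    Nonempty (Fin (2 * p) × Fin 10 ≃ (Fin (6 * p) ⊕ Fin (6 * p)) ⊕ Fin (8 * p)) := by
  refine ⟨Fintype.equivOfCardEq ?_⟩
  simp only [Fintype.card_prod, Fintype.card_sum, Fintype.card_fin]
  ring

/-- the constant of the arithmetic lower bound -/
noncomputable def ariConst : ℝ :=
  -184 * Real.log 2 + 72 * Real.log 3 + 70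

theorem ari (α β : ℕ → ℚ) (ε : ℝ) (hε : 0 < ε) : ∀ᶠ p : ℕ in atTop,
    DQ (4 * p - 1) (fun _ => 10) α β (6 * p) (6 * p) ≠ 0 →
    -264 * (p : ℝ) ^ 2 * Real.log p + (ariConst - ε) * (p : ℝ) ^ 2
      ≤ Real.log |((DQ (4 * p - 1) (fun _ => 10) α β (6 * p) (6 * p) : ℚ) : ℝ)| := by
  obtain ⟨C, p0, hC⟩ := pbounds α β
  obtain ⟨p1, hp1⟩ := padic_sum C (show 0 < ε / 8 by positivity)
  filter_upwards [eventually_ge_atTop p0, eventually_ge_atTop p1, eventually_ge_atTop 1,
    eventually_err 8 (ε / 8) (by positivity), eventually_err 6 (ε / 16) (by positivity),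
    eventually_err 2 (ε / (8 * 100)) (by positivity),
    eventually_small 90 (ε / 8) (by positivity), eventually_small 0 (ε / 8) (by positivity),
    (tendsto_natCast_atTop_atTop (R := ℝ)).eventually (eventually_ge_atTop
      ((90 * Real.log 4 + 2 * Real.log 4) / (ε / 8)))]
    with p hp0 hpp1 hpge e8 e5 e3 es _ elin hD
  obtain ⟨E⟩ := exists_equiv p
  have hp : (1 : ℝ) ≤ p := by exact_mod_cast hpge
  have hp' : (0 : ℝ) < p := by linarith
  have hh : 1 ≤ 2 * p := by omega
  have hdual := dual_det hh (by omega : 6 * p + 6 * p + 8 * p = 10 * (2 * p)) α β E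
  have h63 : 2 * (2 * p) - 1 = 4 * p - 1 := by omega
  rw [h63] at hdual
  change _ = 2 ^ (6 * p) * (4 ^ (10 * (2 * p) - 1)) ^ (5 * (2 * p)) * |DM p α β E| at hdual
  set D := DQ (4 * p - 1) (fun _ => 10) α β (6 * p) (6 * p) with hDdef
  have hM : DM p α β E ≠ 0 := by
    intro h0
    rw [h0, abs_zero, mul_zero] at hdual
    have h5 : (0 : ℚ) < OD (2 * p) := by exact_mod_cast OD_pos (2 * p)
    have h6 : (0 : ℚ) < SF (2 * p) := by exact_mod_cast SF_pos (2 * p)
    have h7 : (4 ^ (10 * (2 * p) - 1) : ℚ) ^ (8 * p) * ((OD (2 * p) : ℚ) ^ 45 * (SF (2 * p) : ℚ) ^ 100) ≠ 0 := by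
      positivity
    rw [mul_assoc] at hdual
    rcases mul_eq_zero.1 hdual with h8 | h8
    · exact hD (abs_eq_zero.1 h8)
    · exact h7 h8
  have hPB := hC p hp0 E hM
  have hsum := hp1 p hpp1 _ hPB
  -- the product formula
  have hlogM := log_abs_ge hM ((range (4 * p)).filter Nat.Prime) (fun q hq => (mem_filter.1 hq).2)
    (fun q => - padicValRat q (DM p α β E))
    (fun q hq hq2 => by
      refine hPB.r0 q hq ?_
      by_contra h9
      exact hq2 (mem_filter.2 ⟨mem_range.2 (by omega), hq⟩))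
    (fun q _ => by rw [neg_neg])
  have hlogM' : ∑ q ∈ (range (4 * p)).filter Nat.Prime, (padicValRat q (DM p α β E) : ℝ) * Real.log q
      ≤ Real.log |((DM p α β E : ℚ) : ℝ)| := by
    refine le_trans (le_of_eq ?_) hlogM
    rw [← sum_neg_distrib]
    refine sum_congr rfl fun q _ => ?_
    push_cast
    ring
  -- logarithm of the duality
  have hcast : |((D : ℚ) : ℝ)| * (4 ^ (10 * (2 * p) - 1)) ^ (8 * p) *
      ((OD (2 * p) : ℝ) ^ 45 * (SF (2 * p) : ℝ) ^ 100) =
      2 ^ (6 * p) * (4 ^ (10 * (2 * p) - 1)) ^ (5 * (2 * p)) * |((DM p α β E : ℚ) : ℝ)| := by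
    have := congrArg (fun x : ℚ => (x : ℝ)) hdual
    simpa using this
  have hOD : (0 : ℝ) < OD (2 * p) := by exact_mod_cast OD_pos (2 * p)
  have hSF : (0 : ℝ) < SF (2 * p) := by exact_mod_cast SF_pos (2 * p)
  have hD' : (0 : ℝ) < |((D : ℚ) : ℝ)| := abs_pos.2 (by exact_mod_cast hD)
  have hM' : (0 : ℝ) < |((DM p α β E : ℚ) : ℝ)| := abs_pos.2 (by exact_mod_cast hM)
  have hlog := congrArg Real.log hcast
  rw [Real.log_mul (by positivity) (by positivity), Real.log_mul (by positivity) (by positivity),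
    Real.log_mul (by positivity) (by positivity), Real.log_mul (by positivity) (by positivity),
    Real.log_mul (by positivity) (by positivity)] at hlog
  simp only [Real.log_pow] at hlog
  have h18 : ((10 * (2 * p) - 1 : ℕ) : ℝ) = 20 * p - 1 := by
    have : 1 ≤ 10 * (2 * p) := by omega
    push_cast [this]
    ring
  rw [h18] at hlog
  push_cast at hlog
  have hl4 : Real.log 4 = 2 * Real.log 2 := by
    rw [show (4 : ℝ) = 2 ^ 2 by norm_num, Real.log_pow]; norm_num
  have hl8 : Real.log 8 = 3 * Real.log 2 := by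
    rw [show (8 : ℝ) = 2 ^ 3 by norm_num, Real.log_pow]; norm_num
  have hl6 : Real.log 6 = Real.log 2 + Real.log 3 := by
    rw [← Real.log_mul (by norm_num) (by norm_num)]; norm_num
  -- superfactorials
  have s8 := (abs_le.1 (log_SF (8 * p))).1
  have s5 := (abs_le.1 (log_SF (6 * p))).1
  have s3 := (abs_le.1 (log_SF (2 * p))).2
  have g8 : gSF ((8 * p : ℕ) : ℝ) = 64 * (p : ℝ) ^ 2 * (3 * Real.log 2 + Real.log p) +
      (Real.log 2 - 3 / 2) * (64 * (p : ℝ) ^ 2) := by
    unfold gSF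
    push_cast
    rw [Real.log_mul (by norm_num) hp'.ne', hl8]; ring
  have g5 : gSF ((6 * p : ℕ) : ℝ) = 36 * (p : ℝ) ^ 2 * ((Real.log 2 + Real.log 3) + Real.log p) +
      (Real.log 2 - 3 / 2) * (36 * (p : ℝ) ^ 2) := by
    unfold gSF
    push_cast
    rw [Real.log_mul (by norm_num) hp'.ne', hl6]; ring
  have g3 : gSF ((2 * p : ℕ) : ℝ) = 4 * (p : ℝ) ^ 2 * (Real.log 2 + Real.log p) +
      (Real.log 2 - 3 / 2) * (4 * (p : ℝ) ^ 2) := by
    unfold gSF
    push_cast
    rw [Real.log_mul (by norm_num) hp'.ne']; ring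
  have hODl := log_OD_le (2 * p)
  have hOD2 : Real.log (OD (2 * p)) ≤ 2 * p * Real.log p + 2 * p * Real.log 4 := by
    refine hODl.trans (le_of_eq ?_)
    push_cast
    rw [show (2 * (2 * (p : ℝ))) = 4 * p by ring, Real.log_mul (by norm_num) hp'.ne']; ring
  rw [log_RR_nine] at hsum
  have elin' : (90 * Real.log 4 + 2 * Real.log 4) * p ≤ ε / 8 * (p : ℝ) ^ 2 := by
    have h9 : (90 * Real.log 4 + 2 * Real.log 4) ≤ ε / 8 * p := by
      have h10 : 0 < ε / 8 := by positivity
      rw [div_le_iff₀ h10] at elin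
      linarith
    nlinarith
  have hl2 : 0 ≤ Real.log 2 := Real.log_nonneg (by norm_num)
  have h2p : 0 ≤ 6 * p * Real.log 2 := by positivity
  unfold ariConst
  rw [g8] at s8
  rw [g5] at s5
  rw [g3] at s3
  rw [hl4] at elin' hlog hOD2
  linarith [hlog, hsum, hlogM', s8, s5, s3, e8, e5, e3, es, elin', hOD2, h2p]

end Pool.Agent.Z9
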