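import Pool.Agent.Z9.NVDefs

/-!
# Non-vanishing: the local functionals modulo `p`
-/

open Finset Polynomial

namespace Pool.Agent.Z9.NV

open Pool.Agent.Z5 (co rho Hs mono monoS w evY F dser xser hser lser zt tot)
open Pool.Agent.Z5.NV (Zp Cg Un tt W ql lc yy ex Pi sg tu qlZ cc AA lc_C_mul lc_add lc_odd
  Zp_large Zp_large_finset Zp_nat Zp_p lc_cg lc_one_mem Hs_cg)

variable {p : ℕ} {hp : p.Prime}

theorem La_C_mul (M : ℕ) (E : ℕ → ℕ) (α : ℕ → ℚ) (a : ℕ) (c : ℚ) (q : ℚ[X]) :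
    La p M E α a (C c * q) = c * La p M E α a q := by
  unfold La
  simp only [lc_C_mul]
  rw [mul_add, mul_neg, Finset.mul_sum, Finset.mul_sum]
  congr 1
  · congr 1
    refine Finset.sum_congr rfl fun m _ => ?_
    rw [Finset.mul_sum]
    refine Finset.sum_congr rfl fun i _ => ?_
    ring
  · refine Finset.sum_congr rfl fun k _ => ?_
    rw [← Finset.mul_sum]
    ring

theorem LaG_C_mul (M : ℕ) (E : ℕ → ℕ) (β : ℕ → ℚ) (k0 a : ℕ) (c : ℚ) (q : ℚ[X]) :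
    LaG p M E β k0 a (C c * q) = c * LaG p M E β k0 a q := by
  unfold LaG
  simp only [lc_C_mul]
  rw [Finset.mul_sum]
  refine Finset.sum_congr rfl fun k _ => ?_
  rw [← Finset.mul_sum]
  ring

theorem lr0_add (M : ℕ) (E : ℕ → ℕ) (q r : ℚ[X]) :
    lr0 M E (q + r) = lr0 M E q + lr0 M E r := by
  unfold lr0
  simp only [lc_add, add_mul, Finset.sum_add_distrib]
  ring

theorem lrG_add (M : ℕ) (E : ℕ → ℕ) (β : ℕ → ℚ) (k : ℕ) (q r : ℚ[X]) :
    lrG M E β k (q + r) = lrG M E β k q + lrG M E β k r := by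
  unfold lrG
  simp only [lc_add, Finset.sum_add_distrib]
  ring

theorem lr0_C_mul (M : ℕ) (E : ℕ → ℕ) (c : ℚ) (q : ℚ[X]) :
    lr0 M E (C c * q) = c * lr0 M E q := by
  unfold lr0
  simp only [lc_C_mul]
  rw [mul_neg, Finset.mul_sum]
  congr 1
  refine Finset.sum_congr rfl fun m _ => ?_
  rw [Finset.mul_sum]
  refine Finset.sum_congr rfl fun i _ => ?_
  ring

theorem lrG_C_mul (M : ℕ) (E : ℕ → ℕ) (β : ℕ → ℚ) (k : ℕ) (c : ℚ) (q : ℚ[X]) :
    lrG M E β k (C c * q) = c * lrG M E β k q := by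
  unfold lrG
  simp only [lc_C_mul]
  rw [← Finset.mul_sum]
  ring

theorem lr0_odd {M : ℕ} (hM : 2 ≤ M) (E : ℕ → ℕ) (n : ℕ) :
    lr0 M E (X ^ (2 * n + 1)) = rho0 (M - 1) E (X ^ n) := by
  unfold lr0 rho0
  simp only [lc_odd]
  rw [show M - 1 + 1 = M by omega]

theorem lrG_odd {M : ℕ} (hM : 2 ≤ M) (E : ℕ → ℕ) (β : ℕ → ℚ) (k n : ℕ) :
    lrG M E β k (X ^ (2 * n + 1)) = β k * rho (M - 1) E (2 * k + 1) (X ^ n) := by
  unfold lrG rho
  simp only [lc_odd]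
  rw [show M - 1 + 1 = M by omega]

theorem La_cg (M : ℕ) (E : ℕ → ℕ) (hT : Even (∑ n ∈ range M, E n)) (α β : ℕ → ℚ) (k0 : ℕ)
    (hk0 : k0 ∈ Finset.Icc 1 4) (hβ0 : ∀ k ∈ Finset.Icc 1 4, k < k0 → β k = 0) :
    ∃ p0 : ℕ, ∀ (p : ℕ) (hp : p.Prime), p0 ≤ p → ∀ a < p, ∀ q : ℤ[X],
      Cg p hp (La p M E α a (q.map (Int.castRingHom ℚ))) (lr0 M E (q.map (Int.castRingHom ℚ))) ∧
      Cg p hp (LaG p M E β k0 a (q.map (Int.castRingHom ℚ)))
        (lrG M E β k0 (q.map (Int.castRingHom ℚ))) ∧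
      lr0 M E (q.map (Int.castRingHom ℚ)) ∈ Zp p hp ∧
      lrG M E β k0 (q.map (Int.castRingHom ℚ)) ∈ Zp p hp := by
  obtain ⟨p1, h1⟩ := Zp_large_finset (Finset.Icc 1 4) α
  obtain ⟨p4, h4⟩ := Zp_large_finset (Finset.Icc 1 4) β
  obtain ⟨p2, h2⟩ := Zp_large_finset ((range M).sigma fun m => range (E m + 1))
    (fun x => PowerSeries.coeff x.2 (dser (M - 1) E x.1)⁻¹)
  obtain ⟨p3, h3⟩ := Zp_large_finset ((range M) ×ˢ (Finset.Icc 1 10)) (fun x => Hs x.2 x.1)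
  refine ⟨max (max p1 p2) (max p3 (max p4 3)), fun p hp hpp a ha q => ?_⟩
  have g1 := h1 p hp (by omega)
  have g4 := h4 p hp (by omega)
  have g2 : ∀ m < M, ∀ n ≤ E m, PowerSeries.coeff n (dser (M - 1) E m)⁻¹ ∈ Zp p hp := by
    intro m hm n hn
    exact h2 p hp (by omega) ⟨m, n⟩ (by
      rw [Finset.mem_sigma]
      exact ⟨Finset.mem_range.mpr hm, Finset.mem_range.mpr (Nat.lt_succ_of_le hn)⟩)
  have g3 : ∀ m < M, ∀ i ∈ Finset.Icc 1 10, Hs i m ∈ Zp p hp := by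
    intro m hm i hi
    exact h3 p hp (by omega) ⟨m, i⟩ (Finset.mem_product.mpr ⟨Finset.mem_range.mpr hm, hi⟩)
  have hp2 : p ≠ 2 := by omega
  have c1 : ∀ m < M, ∀ i, Cg p hp
      (lc M E (fun m => (W p M E a m)⁻¹) (q.map (Int.castRingHom ℚ)) m i)
      (lc M E (fun _ => 1) (q.map (Int.castRingHom ℚ)) m i) := fun m hm i =>
    lc_cg hp2 hT ha hm (g2 m hm) q i
  have c2 : ∀ m < M, ∀ i, lc M E (fun _ => 1) (q.map (Int.castRingHom ℚ)) m i ∈ Zp p hp :=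
    fun m hm i => lc_one_mem (g2 m hm) q i
  have c3 : ∀ i, ∑ m ∈ range M, lc M E (fun m => (W p M E a m)⁻¹) (q.map (Int.castRingHom ℚ)) m i
      ∈ Zp p hp := fun i => sum_mem fun m hm =>
    (c1 m (Finset.mem_range.mp hm) i).mem (c2 m (Finset.mem_range.mp hm) i)
  have c4 : ∀ i, Cg p hp (∑ m ∈ range M, lc M E (fun m => (W p M E a m)⁻¹)
      (q.map (Int.castRingHom ℚ)) m i)
      (∑ m ∈ range M, lc M E (fun _ => 1) (q.map (Int.castRingHom ℚ)) m i) := fun i =>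
    Cg.sum _ _ _ fun m hm => c1 m (Finset.mem_range.mp hm) i
  refine ⟨?_, ?_, ?_, ?_⟩
  · unfold La lr0
    rw [← add_zero (-∑ m ∈ range M, ∑ i ∈ Finset.Icc 1 10,
      lc M E (fun _ => 1) (q.map (Int.castRingHom ℚ)) m i * Hs i m)]
    refine Cg.add (Cg.neg (Cg.sum _ _ _ fun m hm => Cg.sum _ _ _ fun i hi => ?_)) ?_
    · have hm' := Finset.mem_range.mp hm
      have e1 := Hs_cg hp ha (Finset.mem_Icc.mp hi).1 m
      exact (c1 m hm' i).mul e1 (c2 m hm' i) (e1.mem (g3 m hm' i hi))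
    · have e2 : ∑ k ∈ Finset.Icc 1 4, α k * ((p : ℚ) ^ (2 * k + 1) * ∑ m ∈ range M,
          lc M E (fun m => (W p M E a m)⁻¹) (q.map (Int.castRingHom ℚ)) m (2 * k + 1)) =
          p * ∑ k ∈ Finset.Icc 1 4, α k * ((p : ℚ) ^ (2 * k) * ∑ m ∈ range M,
          lc M E (fun m => (W p M E a m)⁻¹) (q.map (Int.castRingHom ℚ)) m (2 * k + 1)) := by
        rw [Finset.mul_sum]
        refine Finset.sum_congr rfl fun k _ => ?_
        ring
      rw [e2]
      exact Cg.of_mem (sum_mem fun k hk =>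
        mul_mem (g1 k hk) (mul_mem (pow_mem Zp_p _) (c3 _)))
  · unfold LaG lrG
    rw [← Finset.add_sum_erase _ _ hk0, ← add_zero (β k0 * ∑ m ∈ range M,
      lc M E (fun _ => 1) (q.map (Int.castRingHom ℚ)) m (2 * k0 + 1))]
    refine Cg.add ?_ ?_
    · rw [Nat.sub_self, mul_zero, pow_zero, one_mul]
      have e := c4 (2 * k0 + 1)
      exact (Cg.refl _).mul e (g4 k0 hk0) (e.mem (sum_mem fun m hm =>
        c2 m (Finset.mem_range.mp hm) _))
    · have e2 : ∑ k ∈ (Finset.Icc 1 4).erase k0, β k * ((p : ℚ) ^ (2 * (k - k0)) * ∑ m ∈ range M,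
          lc M E (fun m => (W p M E a m)⁻¹) (q.map (Int.castRingHom ℚ)) m (2 * k + 1)) =
          p * ∑ k ∈ (Finset.Icc 1 4).erase k0, β k * ((p : ℚ) ^ (2 * (k - k0) - 1) *
          ∑ m ∈ range M,
          lc M E (fun m => (W p M E a m)⁻¹) (q.map (Int.castRingHom ℚ)) m (2 * k + 1)) := by
        rw [Finset.mul_sum]
        refine Finset.sum_congr rfl fun k hk => ?_
        have hk1 := Finset.ne_of_mem_erase hk
        have hk2 := Finset.mem_of_mem_erase hk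
        rcases lt_or_ge k k0 with hlt | hge
        · rw [hβ0 k hk2 hlt]; ring
        · obtain ⟨r, hr⟩ : ∃ r, 2 * (k - k0) = r + 1 := ⟨2 * (k - k0) - 1, by omega⟩
          rw [hr, Nat.add_sub_cancel]; ring
      rw [e2]
      exact Cg.of_mem (sum_mem fun k hk =>
        mul_mem (g4 k (Finset.mem_of_mem_erase hk)) (mul_mem (pow_mem Zp_p _) (c3 _)))
  · unfold lr0
    exact neg_mem (sum_mem fun m hm => sum_mem fun i hi =>
      mul_mem (c2 m (Finset.mem_range.mp hm) i) (g3 m (Finset.mem_range.mp hm) i hi))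
  · unfold lrG
    exact mul_mem (g4 k0 hk0) (sum_mem fun m hm => c2 m (Finset.mem_range.mp hm) _)

end Pool.Agent.Z9.NV
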