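import Pool.Agent.Z9.NVDefs

/-!
# Non-vanishing: the functionals as sums over the residue classes
-/

open Finset Polynomial

namespace Pool.Agent.Z9.NV

open Pool.Agent.Z5 (co rho Hs mono monoS w evY F dser xser hser lser zt tot)
open Pool.Agent.Z5.NV (Zp Cg Un tt W ql lc yy ex Pi sg tu qlZ cc AA nvl_sum_range nvl_pow_mul_co
  nvl_rho)

variable {p : ℕ}

theorem nvl_rho0 (hp : p.Prime) {M : ℕ} (hM : 2 ≤ M) (E : ℕ → ℕ) (h : ℚ[X]) :
    (p : ℚ) ^ (∑ n ∈ range M, E n) * rho0 (M * p - 1) (fun u => E (u / p)) h =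
      ∑ a ∈ range p, - ∑ m ∈ range M, ∑ i ∈ Finset.Icc 1 10,
        lc M E (fun m => (W p M E a m)⁻¹) (ql p a h) m i * ((p : ℚ) ^ i * Hs i (a + p * m)) := by
  have hL : M * p - 1 + 1 = M * p := Nat.sub_add_cancel (Nat.mul_pos (by omega) hp.pos)
  unfold rho0
  rw [hL, nvl_sum_range, mul_neg, Finset.mul_sum, ← Finset.sum_neg_distrib]
  refine Finset.sum_congr rfl fun a ha => ?_
  rw [Finset.mul_sum]
  congr 1
  refine Finset.sum_congr rfl fun m hm => ?_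
  rw [Finset.mul_sum]
  refine Finset.sum_congr rfl fun i _ => ?_
  rw [← mul_assoc, nvl_pow_mul_co hp hM E (Finset.mem_range.mp ha) (Finset.mem_range.mp hm) h i]
  ring

theorem Ph_eq (hp : p.Prime) {M : ℕ} (hM : 2 ≤ M) (E : ℕ → ℕ) (α : ℕ → ℚ) (h : ℚ[X]) :
    (p : ℚ) ^ (∑ n ∈ range M, E n) * Ph (M * p - 1) (fun u => E (u / p)) α h =
      ∑ a ∈ range p, La p M E α a (ql p a h) := by
  unfold Ph La G
  rw [Finset.sum_add_distrib, ← nvl_rho0 hp hM E h, mul_add]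
  congr 1
  rw [Finset.sum_comm, Finset.mul_sum]
  refine Finset.sum_congr rfl fun k _ => ?_
  rw [mul_left_comm, nvl_rho hp hM E h (2 * k + 1), Finset.mul_sum, Finset.mul_sum]

theorem G_eq (hp : p.Prime) {M : ℕ} (hM : 2 ≤ M) (E : ℕ → ℕ) (β : ℕ → ℚ) {k0 : ℕ}
    (hβ0 : ∀ k ∈ Finset.Icc 1 4, k < k0 → β k = 0) (h : ℚ[X]) :
    (p : ℚ) ^ (∑ n ∈ range M, E n) * G (M * p - 1) (fun u => E (u / p)) β h =
      (p : ℚ) ^ (2 * k0 + 1) * ∑ a ∈ range p, LaG p M E β k0 a (ql p a h) := by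
  unfold G LaG
  rw [Finset.sum_comm, Finset.mul_sum, Finset.mul_sum]
  refine Finset.sum_congr rfl fun k hk => ?_
  rcases lt_or_ge k k0 with hlt | hge
  · simp only [hβ0 k hk hlt, zero_mul, mul_zero, Finset.sum_const_zero]
  · rw [mul_left_comm, nvl_rho hp hM E h (2 * k + 1), ← Finset.mul_sum, ← Finset.mul_sum]
    have e1 : 2 * k + 1 = (2 * k0 + 1) + 2 * (k - k0) := by omega
    have e2 : (p : ℚ) ^ (2 * k + 1) = (p : ℚ) ^ (2 * k0 + 1) * (p : ℚ) ^ (2 * (k - k0)) := by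
      rw [← pow_add]; congr 1
    rw [e2]; ring

end Pool.Agent.Z9.NV
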