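import Pool.Agent.Z9.Basis
import Pool.Agent.Z5.NVMain
import Pool.Agent.Z9.NVLoc
import Pool.Agent.Z9.NVCong

/-!
# Non-vanishing of the mixed determinant for pole orders at most ten
-/

open Finset Polynomial

namespace Pool.Agent.Z9

open Pool.Agent.Z5 (co rho Hs mono monoS w evY F dser xser hser lser zt tot)
open Pool.Agent.Z5.NV (Zp Cg Un tt W ql lc yy ex Pi sg tu qlZ cc AA zq entry_aux det_scale det_cg
  Pi_degree AA_unit cc_unit Un_int Un_large Zp_int)
open Pool.Agent.Z9.NV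

theorem G_uv {L : ℕ} {e : ℕ → ℕ} {k0 : ℕ} (hk0 : k0 ∈ Finset.Icc 1 4) (h : ℚ[X]) :
    G L e (uv k0) h = rho L e (2 * k0 + 1) h := by
  unfold G uv
  rw [Finset.sum_eq_single k0]
  · rw [if_pos rfl, one_mul]
  · intro k _ hk
    rw [if_neg hk, zero_mul]
  · intro h; exact absurd hk0 h

/-- `L + 1 = M p`, `e u = E (u / p)`, `a = s p`, `b = s' p`: the mixed determinant does not vanish
for large primes `p`, if the same determinant for `p = 1`, `α = 0` and the unit vector at the first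
index with `β k0 ≠ 0` does not vanish. -/
theorem nonvanishing (M : ℕ) (E : ℕ → ℕ) (s s' : ℕ) (hM : 2 ≤ M) (hE : IsProf (M - 1) E)
    (_hd : 4 * s + 2 * s' ≤ ∑ m ∈ range M, E m) (_hs : s ≤ s') (α β : ℕ → ℚ) (k0 : ℕ)
    (hk0 : k0 ∈ Finset.Icc 1 4) (hβ : β k0 ≠ 0) (hβ0 : ∀ k ∈ Finset.Icc 1 4, k < k0 → β k = 0)
    (h0 : DQ (M - 1) E 0 (uv k0) s s' ≠ 0) :
    ∃ p0 : ℕ, ∀ p : ℕ, p.Prime → p0 ≤ p →
      DQ (M * p - 1) (fun u => E (u / p)) α β (s * p) (s' * p) ≠ 0 := by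
  classical
  have hT : Even (∑ n ∈ range M, E n) := by
    have := hE.even
    rwa [show M - 1 + 1 = M by omega] at this
  obtain ⟨p1, h1⟩ := La_cg M E hT α β k0 hk0 hβ0
  obtain ⟨p2, h2⟩ := Un_large _ h0
  obtain ⟨p4, h4⟩ := Un_large _ hβ
  refine ⟨max (max p1 p2) (max 3 p4), fun p hp hle => ?_⟩
  have hp1 : p1 ≤ p := by omega
  have hp2 : p2 ≤ p := by omega
  have hp3 : 3 ≤ p := by omega
  have hp4 : p4 ≤ p := by omega
  have hpn : p ≠ 2 := by omega
  have hp0 : (p : ℚ) ≠ 0 := by exact_mod_cast hp.ne_zero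
  replace h1 := h1 p hp hp1
  replace h2 := h2 p hp hp2
  replace h4 := h4 p hp hp4
  intro hDQ
  -- the families
  set L := M * p - 1 with hL
  set e : ℕ → ℕ := fun u => E (u / p) with he
  set T := ∑ n ∈ range M, E n with hTdef
  let φ : Fin s × Fin p → ℚ[X] := fun x => zq (Pi p s x.2 x.1)
  let χ : Fin s' × Fin p → ℚ[X] := fun x => zq (Pi p s' x.2 x.1)
  let jj : Fin s ⊕ Fin s' → ℕ := Sum.elim (fun j => (j : ℕ)) (fun j => s + (j : ℕ))
  let ψ : (Fin s × Fin p) ⊕ (Fin s' × Fin p) → ℚ[X] :=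
    Sum.elim (fun x => zq (Pi p (s + s') (p - 1 - x.2) x.1))
      (fun x => zq (Pi p (s + s') (p - 1 - x.2) (s + x.1)))
  have hjj : ∀ j : Fin s ⊕ Fin s', jj j < s + s' := by
    rintro (j | j)
    · have := j.2; simp only [jj, Sum.elim_inl]; omega
    · have := j.2; simp only [jj, Sum.elim_inr]; omega
  let GG := gmat L e α β φ χ ψ
  have hG : GG.det = 0 := by
    have := det_gmat (L := L) (e := e) (s * p) (s' * p) finProdFinEquiv finProdFinEquiv α β φ χ ψ
      ?_ ?_ ?_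
    · rw [show GG.det = _ from this, hDQ, mul_zero]
    · rintro ⟨i, a⟩
      exact lt_of_le_of_lt (degree_map_le) (Pi_degree hp hpn a.2 i.2)
    · rintro ⟨i, a⟩
      exact lt_of_le_of_lt (degree_map_le) (Pi_degree hp hpn a.2 i.2)
    · rintro (⟨i, a⟩ | ⟨i, a⟩)
      · have := Pi_degree hp hpn (n := s + s') (a := p - 1 - a) (i := i)
          (by have := a.2; omega) (by have := i.2; omega)
        rw [add_mul] at this
        exact lt_of_le_of_lt (degree_map_le) this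
      · have := Pi_degree hp hpn (n := s + s') (a := p - 1 - a) (i := s + i)
          (by have := a.2; omega) (by have := i.2; omega)
        rw [add_mul] at this
        exact lt_of_le_of_lt (degree_map_le) this
  -- scaling
  let rs : (Fin s × Fin p) ⊕ (Fin s' × Fin p) → ℚ :=
    Sum.elim (fun x => (p : ℚ) ^ T * ((p : ℚ) ^ sg p x.2 x.1)⁻¹)
      (fun x => (p : ℚ) ^ T * ((p : ℚ) ^ (2 * k0 + 1))⁻¹ * ((p : ℚ) ^ sg p x.2 x.1)⁻¹)
  let cs : (Fin s × Fin p) ⊕ (Fin s' × Fin p) → ℚ :=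
    Sum.elim (fun x => ((p : ℚ) ^ tu p x.2 x.1)⁻¹) (fun x => ((p : ℚ) ^ tu p x.2 (s + x.1))⁻¹)
  let A : Matrix ((Fin s × Fin p) ⊕ (Fin s' × Fin p)) ((Fin s × Fin p) ⊕ (Fin s' × Fin p)) ℚ :=
    Matrix.of fun x y => rs x * GG x y * cs y
  have hA : A.det = 0 := by rw [det_scale, hG]; ring
  -- the limit matrix
  let eq : (Fin s × Fin p) ⊕ (Fin s' × Fin p) ≃ (Fin s ⊕ Fin s') × Fin p :=
    (Equiv.sumProdDistrib _ _ _).symm
  let m0 := gmat (M - 1) E 0 (uv k0) (mono s) (mono s') (monoS s s')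
  let r0 : Fin p → Fin s ⊕ Fin s' → ℚ := fun a =>
    Sum.elim (fun i => ((AA p a ^ (s + (s + s')) * cc p a ^ (2 * (i : ℕ) + 1) : ℤ) : ℚ))
      (fun i => β k0 * ((AA p a ^ (s' + (s + s')) * cc p a ^ (2 * (i : ℕ) + 1) : ℤ) : ℚ))
  let c0 : Fin p → Fin s ⊕ Fin s' → ℚ := fun a j => ((cc p a ^ (2 * jj j + 1) : ℤ) : ℚ)
  let D : Fin p → Matrix (Fin s ⊕ Fin s') (Fin s ⊕ Fin s') ℚ := fun a =>
    Matrix.of fun i j => r0 a i * m0 i j * c0 a j
  let B := (Matrix.blockDiagonal D).submatrix eq eq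
  have hB : Un p hp B.det := by
    rw [Matrix.det_submatrix_equiv_self, Matrix.det_blockDiagonal]
    refine Un.prod _ _ fun a _ => ?_
    rw [show D a = Matrix.of fun i j => r0 a i * m0 i j * c0 a j from rfl, det_scale]
    refine ((Un.prod _ _ fun i _ => ?_).mul h2).mul (Un.prod _ _ fun j _ => ?_)
    · rcases i with i | i
      · simp only [r0, Sum.elim_inl]
        push_cast
        exact ((Un_int (AA_unit hp hpn a.2)).pow _).mul ((Un_int (cc_unit hp hpn a.2)).pow _)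
      · simp only [r0, Sum.elim_inr]
        push_cast
        exact h4.mul (((Un_int (AA_unit hp hpn a.2)).pow _).mul
          ((Un_int (cc_unit hp hpn a.2)).pow _))
    · simp only [c0]
      push_cast
      exact (Un_int (cc_unit hp hpn a.2)).pow _
  -- the congruence of entries
  have hm0a : ∀ (i : Fin s) (j : Fin s ⊕ Fin s'), m0 (Sum.inl i) j =
      lr0 M E (X ^ (2 * (i : ℕ) + 2 * jj j + 1)) := by
    intro i j
    have e1 : monoS s s' j = X ^ jj j := by rcases j with j | j <;> rfl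
    have e2 : ∀ h : ℚ[X], Ph (M - 1) E 0 h = rho0 (M - 1) E h := by
      intro h
      simp only [Ph, G, Pi.zero_apply, zero_mul, Finset.sum_const_zero, add_zero]
    rw [show m0 (Sum.inl i) j = Ph (M - 1) E 0 (mono s i * monoS s s' j) from rfl, e1, e2,
      show mono s i = X ^ (i : ℕ) from rfl, ← pow_add, ← lr0_odd hM]
    congr 2; ring
  have hm0b : ∀ (i : Fin s') (j : Fin s ⊕ Fin s'), β k0 * m0 (Sum.inr i) j =
      lrG M E β k0 (X ^ (2 * (i : ℕ) + 2 * jj j + 1)) := by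
    intro i j
    have e1 : monoS s s' j = X ^ jj j := by rcases j with j | j <;> rfl
    have e3 : 2 * (i : ℕ) + 2 * jj j + 1 = 2 * ((i : ℕ) + jj j) + 1 := by ring
    rw [show m0 (Sum.inr i) j = G (M - 1) E (uv k0) (mono s' i * monoS s s' j) from rfl, e1,
      show mono s' i = X ^ (i : ℕ) from rfl, ← pow_add, G_uv hk0, e3, lrG_odd hM]
  have key0 : ∀ (i : Fin s) (a a' : Fin p) (j : ℕ), j < s + s' →
      Cg p hp ((p : ℚ) ^ T * ((p : ℚ) ^ sg p a i)⁻¹ *
          Ph L e α (zq (Pi p s a i) * zq (Pi p (s + s') (p - 1 - a') j)) * ((p : ℚ) ^ tu p a' j)⁻¹)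
        (if a = a' then ((AA p a ^ (s + (s + s')) * cc p a ^ (2 * (i : ℕ) + 2 * j + 2) : ℤ) : ℚ) *
          lr0 M E (X ^ (2 * (i : ℕ) + 2 * j + 1)) else 0) := by
    intro i a a' j hj
    have h := entry_aux hp hpn (n := s) (N := s + s') a.2 a'.2 i.2 hj (La p M E α) (lr0 M E)
      (fun b hb q => (h1 b hb q).1) (fun b c q => La_C_mul M E α b c q) (lr0_add M E)
      (lr0_C_mul M E) (fun q => (h1 0 hp.pos q).2.2.1) _ (Ph_eq hp hM E α _)
    have e1 : (p : ℚ) ^ T * ((p : ℚ) ^ sg p a i)⁻¹ *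
          Ph L e α (zq (Pi p s a i) * zq (Pi p (s + s') (p - 1 - a') j)) * ((p : ℚ) ^ tu p a' j)⁻¹ =
        ((p : ℚ) ^ sg p a i)⁻¹ * ((p : ℚ) ^ T * Ph L e α
          (zq (Pi p s a i * Pi p (s + s') (p - 1 - a') j))) * ((p : ℚ) ^ tu p a' j)⁻¹ := by
      rw [show zq (Pi p s a i * Pi p (s + s') (p - 1 - a') j) =
        zq (Pi p s a i) * zq (Pi p (s + s') (p - 1 - a') j) from Polynomial.map_mul _]
      ring
    rw [e1]
    convert h using 1
    simp only [Fin.ext_iff]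
  have key3 : ∀ (i : Fin s') (a a' : Fin p) (j : ℕ), j < s + s' →
      Cg p hp ((p : ℚ) ^ T * ((p : ℚ) ^ (2 * k0 + 1))⁻¹ * ((p : ℚ) ^ sg p a i)⁻¹ *
          G L e β (zq (Pi p s' a i) * zq (Pi p (s + s') (p - 1 - a') j)) * ((p : ℚ) ^ tu p a' j)⁻¹)
        (if a = a' then ((AA p a ^ (s' + (s + s')) * cc p a ^ (2 * (i : ℕ) + 2 * j + 2) : ℤ) : ℚ) *
          lrG M E β k0 (X ^ (2 * (i : ℕ) + 2 * j + 1)) else 0) := by
    intro i a a' j hj
    have h := entry_aux hp hpn (n := s') (N := s + s') a.2 a'.2 i.2 hj (LaG p M E β k0)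
      (lrG M E β k0) (fun b hb q => (h1 b hb q).2.1) (fun b c q => LaG_C_mul M E β k0 b c q)
      (lrG_add M E β k0) (lrG_C_mul M E β k0) (fun q => (h1 0 hp.pos q).2.2.2) _ rfl
    have e0 := G_eq hp hM E β hβ0 (zq (Pi p s' a i * Pi p (s + s') (p - 1 - a') j))
    have e1 : (p : ℚ) ^ T * ((p : ℚ) ^ (2 * k0 + 1))⁻¹ * ((p : ℚ) ^ sg p a i)⁻¹ *
          G L e β (zq (Pi p s' a i) * zq (Pi p (s + s') (p - 1 - a') j)) *
            ((p : ℚ) ^ tu p a' j)⁻¹ =
        ((p : ℚ) ^ sg p a i)⁻¹ * (∑ b ∈ range p, LaG p M E β k0 b (ql p b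
          (zq (Pi p s' a i * Pi p (s + s') (p - 1 - a') j)))) * ((p : ℚ) ^ tu p a' j)⁻¹ := by
      have e2 : ∑ b ∈ range p, LaG p M E β k0 b (ql p b
          (zq (Pi p s' a i * Pi p (s + s') (p - 1 - a') j))) =
          ((p : ℚ) ^ (2 * k0 + 1))⁻¹ * ((p : ℚ) ^ T *
          G L e β (zq (Pi p s' a i * Pi p (s + s') (p - 1 - a') j))) := by
        rw [hL, he, hTdef, e0]; field_simp
      rw [e2, show zq (Pi p s' a i * Pi p (s + s') (p - 1 - a') j) =
        zq (Pi p s' a i) * zq (Pi p (s + s') (p - 1 - a') j) from Polynomial.map_mul _]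
      ring
    rw [e1]
    convert h using 1
    simp only [Fin.ext_iff]
  have hcg : ∀ x y, Cg p hp (A x y) (B x y) := by
    have hBe : ∀ x y, B x y = if (eq x).2 = (eq y).2 then
        r0 (eq x).2 (eq x).1 * m0 (eq x).1 (eq y).1 * c0 (eq x).2 (eq y).1 else 0 := by
      intro x y
      simp only [B, Matrix.submatrix_apply, Matrix.blockDiagonal_apply, D, Matrix.of_apply]
    intro x y
    rw [hBe]
    have hy : ∃ (j : Fin s ⊕ Fin s') (a' : Fin p), (eq y) = (j, a') ∧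
        ψ y = zq (Pi p (s + s') (p - 1 - a') (jj j)) ∧ cs y = ((p : ℚ) ^ tu p a' (jj j))⁻¹ := by
      rcases y with ⟨j, a'⟩ | ⟨j, a'⟩
      · exact ⟨Sum.inl j, a', rfl, rfl, rfl⟩
      · exact ⟨Sum.inr j, a', rfl, rfl, rfl⟩
    obtain ⟨j, a', hy1, hy2, hy3⟩ := hy
    rcases x with ⟨i, a⟩ | ⟨i, a⟩
    · have hx1 : eq (Sum.inl (i, a)) = (Sum.inl i, a) := rfl
      have h := key0 i a a' (jj j) (hjj j)
      rw [hx1, hy1]
      have eA : A (Sum.inl (i, a)) y = (p : ℚ) ^ T * ((p : ℚ) ^ sg p a i)⁻¹ *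
          Ph L e α (zq (Pi p s a i) * zq (Pi p (s + s') (p - 1 - a') (jj j))) *
            ((p : ℚ) ^ tu p a' (jj j))⁻¹ := by
        rw [show A (Sum.inl (i, a)) y = rs (Sum.inl (i, a)) * GG (Sum.inl (i, a)) y * cs y from rfl,
          hy3, show GG (Sum.inl (i, a)) y = Ph L e α (φ (i, a) * ψ y) from rfl, hy2]
        rfl
      rw [eA]
      convert h using 1
      refine if_congr Iff.rfl ?_ rfl
      rw [hm0a]
      simp only [r0, c0, Sum.elim_inl]
      push_cast; ring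
    · have hx1 : eq (Sum.inr (i, a)) = (Sum.inr i, a) := rfl
      have h := key3 i a a' (jj j) (hjj j)
      rw [hx1, hy1]
      have eA : A (Sum.inr (i, a)) y = (p : ℚ) ^ T * ((p : ℚ) ^ (2 * k0 + 1))⁻¹ *
          ((p : ℚ) ^ sg p a i)⁻¹ *
          G L e β (zq (Pi p s' a i) * zq (Pi p (s + s') (p - 1 - a') (jj j))) *
            ((p : ℚ) ^ tu p a' (jj j))⁻¹ := by
        rw [show A (Sum.inr (i, a)) y = rs (Sum.inr (i, a)) * GG (Sum.inr (i, a)) y * cs y from rfl,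
          hy3, show GG (Sum.inr (i, a)) y = G L e β (χ (i, a) * ψ y) from rfl, hy2]
        rfl
      rw [eA]
      convert h using 1
      refine if_congr Iff.rfl ?_ rfl
      rw [← hm0b]
      simp only [r0, c0, Sum.elim_inr]
      push_cast; ring
  have hBi : ∀ x y, B x y ∈ Zp p hp := by
    have hX : ∀ n : ℕ, (X ^ n : ℚ[X]) = zq (X ^ n) := fun n => by
      simp only [zq, Polynomial.map_pow, map_X]
    intro x y
    simp only [B, Matrix.submatrix_apply, Matrix.blockDiagonal_apply, D, Matrix.of_apply]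
    split_ifs with hxy
    · refine mul_mem ?_ (Zp_int _)
      rcases (eq x).1 with i | i
      · refine mul_mem ?_ ?_
        · exact Zp_int _
        · rw [hm0a, hX]; exact (h1 0 hp.pos _).2.2.1
      · have e4 : r0 (eq x).2 (Sum.inr i) * m0 (Sum.inr i) (eq y).1 =
            ((AA p (eq x).2 ^ (s' + (s + s')) * cc p (eq x).2 ^ (2 * (i : ℕ) + 1) : ℤ) : ℚ) *
              (β k0 * m0 (Sum.inr i) (eq y).1) := by
          simp only [r0, Sum.elim_inr]; ring
        rw [e4]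
        refine mul_mem (Zp_int _) ?_
        rw [hm0b, hX]; exact (h1 0 hp.pos _).2.2.2
    · exact zero_mem _
  exact (det_cg A B hBi hcg).ne_zero hB hA

end Pool.Agent.Z9
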