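import Pool.Agent.Z9.PPG
import Pool.Agent.Z5.PSelf

/-!
# DIM39: the self-paired class, crude bound

The coefficient of `ε ^ n` of a local expansion has valuation at least `-(n + 1)`.
-/

open Finset Polynomial

namespace Pool.Agent.Z9

open Pool.Agent.Z5 (hser Hs Col VG PG Cls yv gS zz sg2 cl SF OD xser)

variable {q L r : ℕ} {α β : ℕ → ℚ} [hq : Fact q.Prime]

namespace PSelf

theorem kerQ_SG (hβ : VI q β) : SG q 0 (kerQ β) := by
  unfold kerQ
  exact SG.sum _ _ fun k hk => (SG.C (hβ k hk)).mul_int (SG.X.pow_zero _)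

theorem kerP_coeff (hLq : L < q ^ 2) (hα : VI q α) {u : ℕ} (hu : u ≤ L) {n : ℕ} (hn : n < 10) :
    VG q (-((n : ℤ) + 1)) (PowerSeries.coeff n (kerP L α u)) := by
  have h2 : SG q 0 (2 * kerQ α) := SG.two.mul_int (kerQ_SG hα)
  rw [kerP, map_add, PowerSeries.coeff_mk, if_pos hn]
  refine Z5.VG.add (Z5.VG.neg (Z5.VG.add ?_ ?_)) ((h2 n hn).mono (by omega))
  · exact (Z5.PSelf.Hs_VG (q := q) (s := n + 1) (M := u) (by omega)).mono (by push_cast; omega)
  · exact (Z5.VG.int_mul (Z5.PSelf.neg_one_pow_VG n)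
      (Z5.PSelf.Hs_VG (q := q) (s := n + 1) (M := L - u) (by omega))).mono (by push_cast; omega)

theorem xser_SG (u : ℕ) : SG q 0 (xser L u) := by
  rw [xser]
  refine SG.add (SG.C ?_) (SG.two.mul_int SG.X)
  have h := Z5.VG.int (q := q) ((L : ℤ) - 2 * u)
  simpa using h

theorem hser_SG {k : ℤ} (u : ℕ) (f : ℚ[X]) (hf : PG q k f) : SG q k (hser L u f) :=
  SG.aeval ((xser_SG u).pow_zero 2) f hf

theorem tvec_coeff (hLq : L < q ^ 2) (hα : VI q α) (hβ : VI q β) {u : ℕ} (hu : u ≤ L) (c : Col)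
    (h1 : PG q 0 c.1) (h2 : PG q 0 c.2.1) (h3 : PG q 0 c.2.2) {n : ℕ} (hn : n < 10) :
    VG q (-((n : ℤ) + 1)) (PowerSeries.coeff n (tvec L α β u c)) := by
  rw [tvec, map_add, map_add]
  refine Z5.VG.add (Z5.VG.add ?_ ?_) ?_
  · exact (hser_SG u _ h1 n hn).mono (by omega)
  · rw [PowerSeries.coeff_mul]
    refine Z5.VG.sum _ _ fun x hx => ?_
    have h4 : x.1 + x.2 = n := Finset.HasAntidiagonal.mem_antidiagonal.1 hx
    exact (Z5.VG.mul_int (kerP_coeff hLq hα hu (by omega)) (hser_SG u _ h2 _ (by omega))).mono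
      (by omega)
  · exact (((kerQ_SG hβ).mul_int (hser_SG u _ h3)) n hn).mono (by omega)

end PSelf

theorem self_bound (h : ℕ) (hL : L + 1 = 2 * h) (hLq : L < q ^ 2) (hα : VI q α) (hβ : VI q β)
    {κ : Type*} (c : κ → Col) (hc : ∀ y, PG q 0 (c y).1 ∧ PG q 0 (c y).2.1 ∧ PG q 0 (c y).2.2)
    (f : {u : Fin h // cl q L u = r} × Fin 10 → κ) :
    VG q (-(60 * (Fintype.card {u : Fin h // cl q L u = r} : ℤ)))
      ((dmat L α β h c).submatrix
          (fun x : {u : Fin h // cl q L u = r} × Fin 10 => (x.1.1, x.2)) f).det := by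
  have h1 := Z5.VG.det ((dmat L α β h c).submatrix
      (fun x : {u : Fin h // cl q L u = r} × Fin 10 => (x.1.1, x.2)) f)
    (fun x => -(((x.2 : ℕ) : ℤ) + 1)) (fun _ => 0) (by
      intro x y
      rw [add_zero, Matrix.submatrix_apply, dmat, Matrix.of_apply]
      exact PSelf.tvec_coeff hLq hα hβ (by have := x.1.1.2; omega) _ (hc _).1 (hc _).2.1
        (hc _).2.2 x.2.2)
  refine h1.mono ?_
  rw [Finset.sum_const_zero, add_zero, Fintype.sum_prod_type]
  have h2 : ∑ x : Fin 10, -(((x : ℕ) : ℤ) + 1) = -55 := by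
    simp [Fin.sum_univ_succ]
  simp only [h2, Finset.sum_const, Finset.card_univ, nsmul_eq_mul]
  have h3 : (0 : ℤ) ≤ (Fintype.card {u : Fin h // cl q L u = r} : ℤ) := Int.natCast_nonneg _
  linarith

end Pool.Agent.Z9
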