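import Pool.Agent.Z9.PDefs
import Pool.Agent.Z5.PSym

/-!
# DIM39: the symmetry `u ↔ L - u` and the minors of a class
-/

open Finset Polynomial

namespace Pool.Agent.Z9

open Pool.Agent.Z5

variable {q L r K : ℕ} {α β : ℕ → ℚ} [hq : Fact q.Prime]

omit hq in
theorem sg_kerQ (β : ℕ → ℚ) : PowerSeries.rescale (-1 : ℚ) (kerQ β) = kerQ β := by
  unfold kerQ
  rw [map_sum]
  refine Finset.sum_congr rfl fun k _ => ?_
  ext n
  rw [PowerSeries.coeff_rescale, PowerSeries.coeff_C_mul, PowerSeries.coeff_X_pow]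
  split_ifs with h
  · subst h
    rw [pow_mul]
    simp
  · simp

omit hq in
theorem sg_kerP (L : ℕ) (α : ℕ → ℚ) {u : ℕ} (hu : u ≤ L) :
    PowerSeries.rescale (-1 : ℚ) (Z9.kerP L α (L - u)) = Z9.kerP L α u := by
  unfold Z9.kerP
  rw [map_add, map_mul, sg_kerQ, map_ofNat]
  congr 1
  ext k
  rw [PowerSeries.coeff_rescale, PowerSeries.coeff_mk, PowerSeries.coeff_mk]
  split_ifs with h1
  · rw [show L - (L - u) = u by omega]
    have h3 : (-1 : ℚ) ^ k * (-1) ^ k = 1 := by rw [← mul_pow]; simp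
    linear_combination (-Hs (k + 1) u) * h3
  · simp

omit hq in
theorem sg_tvec (L : ℕ) (α β : ℕ → ℚ) {u : ℕ} (hu : u ≤ L) (c : Col) :
    PowerSeries.rescale (-1 : ℚ) (Z9.tvec L α β (L - u) c) = Z9.tvec L α β u c := by
  rw [Z9.tvec, map_add, map_add, map_mul, map_mul, sg_kerP L α hu, sg_kerQ]
  have h1 : ∀ f : ℚ[X], PowerSeries.rescale (-1 : ℚ) (hser L (L - u) f) = hser L u f :=
    fun f => sg_hser hu f
  rw [h1, h1, h1, Z9.tvec]

omit hq in
theorem coeff_tvec_symm {u : ℕ} (hu : u ≤ L) (c : Col) {k : ℕ} (_hk : k < 10) :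
    PowerSeries.coeff k (Z9.tvec L α β (L - u) c)
      = (-1) ^ k * PowerSeries.coeff k (Z9.tvec L α β u c) := by
  rw [← sg_tvec L α β hu c, PowerSeries.coeff_rescale, ← mul_assoc, ← mul_pow]
  simp

/-- the minors of `dmat` on the rows of a class `r` (not the self-paired one) are, up to sign, the
determinants of `cmat`. -/
theorem minor_eq (h : ℕ) (hL : L + 1 = 2 * h) (hc : Cls q L r K) (hr : r < (L - r) % q) :
    ∃ e : Fin K × Fin 10 ≃ {u : Fin h // cl q L u = r} × Fin 10,
      ∀ (κ : Type) (c : κ → Col) (f : {u : Fin h // cl q L u = r} × Fin 10 → κ) (E : ℤ),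
        VG q E (cmat q L α β r K (fun y => c (f (e y)))).det →
        VG q E ((dmat L α β h c).submatrix
          (fun x : {u : Fin h // cl q L u = r} × Fin 10 => (x.1.1, x.2)) f).det := by
  obtain ⟨e0, he0⟩ := exists_class_equiv h hL hc hr
  refine ⟨e0.prodCongr (Equiv.refl _), fun κ c f E hE => ?_⟩
  have hle : ∀ i : Fin K, r + q * i ≤ L := by
    intro i
    have h1 := hc.hL
    have h2 : q * (i : ℕ) ≤ q * (K - 1) := Nat.mul_le_mul_left _ (by have := i.2; omega)
    omega
  let s : Fin K × Fin 10 → ℤ := fun x => if r + q * (x.1 : ℕ) < h then 1 else (-1) ^ (x.2 : ℕ)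
  have h1 : ((dmat L α β h c).submatrix
      (fun x : {u : Fin h // cl q L u = r} × Fin 10 => (x.1.1, x.2)) f).submatrix
      (e0.prodCongr (Equiv.refl _)) (e0.prodCongr (Equiv.refl _)) =
      Matrix.diagonal (fun x => (s x : ℚ)) *
        cmat q L α β r K (fun y => c (f ((e0.prodCongr (Equiv.refl _)) y))) := by
    ext x y
    rw [Matrix.diagonal_mul]
    simp only [Matrix.submatrix_apply, dmat, cmat, Matrix.of_apply, Equiv.prodCongr_apply,
      Prod.map, Equiv.refl_apply]
    rw [he0]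
    simp only [s, yrep]
    split_ifs with h2
    · simp
    · rw [coeff_tvec_symm (hle x.1) _ x.2.2]
      push_cast
      rfl
  rw [← Matrix.det_submatrix_equiv_self (e0.prodCongr (Equiv.refl _)), h1, Matrix.det_mul,
    Matrix.det_diagonal]
  refine VG.int_mul ?_ hE
  rw [← Int.cast_prod]
  exact VG.int _

end Pool.Agent.Z9
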