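import Pool.Agent.Z9.Laplace
import Pool.Agent.Z9.PSym
import Pool.Agent.Z9.PSelf
import Pool.Agent.Z5.PAssem

/-!
# DIM39: assembly of the class bounds

The bound of the valuation of the dual determinant from the bounds for the classes.
-/

open Finset Polynomial

namespace Pool.Agent.Z9

open Pool.Agent.Z5 (hser Hs Col VG PG Cls yv gS zz sg2 cl SF OD image_cl_eq sum_cls card_self
  cls_exists self_card_le_one)

variable {q L : ℕ} {α β : ℕ → ℚ} [hq : Fact q.Prime]

/-- assembly: bounds for all classes give a bound for the determinant -/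
theorem assemble (h2 : q ≠ 2) (h : ℕ) (hL : L + 1 = 2 * h) (hLq : L < q ^ 2) (hα : VI q α)
    (hβ : VI q β) {κ : Type} [Fintype κ] [DecidableEq κ] (eq : Fin h × Fin 10 ≃ κ) (c : κ → Col)
    (hc : ∀ y, PG q 0 (c y).1 ∧ PG q 0 (c y).2.1 ∧ PG q 0 (c y).2.2) (e : ℕ → ℤ) (he : e 0 = 0)
    (hcls : ∀ r K, Cls q L r K → r < (L - r) % q → ∀ f : Fin K × Fin 10 → κ, Function.Injective f →
      VG q (e K) (cmat q L α β r K (fun y => c (f y))).det)
    (B : ℤ) (hB : 2 * B + e (if 2 ∣ (L / q + 1) then L / q + 1 else L / q) ≤
      ((L + 1) % q : ℕ) * e ((L + 1) / q + 1) + (q - (L + 1) % q : ℕ) * e ((L + 1) / q)) :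
    VG q (B - 60 * (L / q + 1 : ℕ)) ((dmat L α β h c).submatrix id eq).det := by
  classical
  set I : Finset ℕ := (univ : Finset (Fin h)).image fun u : Fin h => cl q L u with hI
  let E : ℕ → ℤ := fun g => if g ∈ I then (if g ≠ (L - g) % q then e ((L - g) / q + 1) else
    -(60 * (Fintype.card {u : Fin h // cl q L u = g} : ℤ))) else 0
  have h1 := VG_laplace_ten (q := q) (dmat L α β h c) eq (fun u : Fin h => cl q L u) E ?_
  · refine h1.mono ?_
    have hS : ∑ g ∈ I, E g =
        ∑ g ∈ I.filter (fun g => g ≠ (L - g) % q), e ((L - g) / q + 1) +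
        ∑ g ∈ I.filter (fun g => ¬ g ≠ (L - g) % q),
          -(60 * (Fintype.card {u : Fin h // cl q L u = g} : ℤ)) := by
      rw [← Finset.sum_filter_add_sum_filter_not I (fun g => g ≠ (L - g) % q)]
      congr 1
      · apply Finset.sum_congr rfl
        intro g hg
        rw [mem_filter] at hg
        simp only [E]
        rw [if_pos hg.1, if_pos hg.2]
      · apply Finset.sum_congr rfl
        intro g hg
        rw [mem_filter] at hg
        simp only [E]
        rw [if_pos hg.1, if_neg hg.2]
    have hA : B ≤ ∑ g ∈ I.filter (fun g => g ≠ (L - g) % q), e ((L - g) / q + 1) := by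
      have := sum_cls h hL h2 e he
      rw [← hI] at this
      linarith
    have hB' : -(60 * ((L / q + 1 : ℕ) : ℤ)) ≤ ∑ g ∈ I.filter (fun g => ¬ g ≠ (L - g) % q),
          -(60 * (Fintype.card {u : Fin h // cl q L u = g} : ℤ)) := by
      have hc1 := self_card_le_one (q := q) h hL h2
      rw [← hI] at hc1
      rcases Finset.eq_empty_or_nonempty (I.filter (fun g => ¬ g ≠ (L - g) % q)) with h3 | h3
      · rw [h3, Finset.sum_empty]
        have : (0 : ℤ) ≤ ((L / q + 1 : ℕ) : ℤ) := Int.natCast_nonneg _
        linarith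
      · have h4 : (I.filter (fun g => ¬ g ≠ (L - g) % q)).card = 1 :=
          le_antisymm hc1 (Finset.card_pos.mpr h3)
        obtain ⟨g, hg⟩ := Finset.card_eq_one.mp h4
        rw [hg, Finset.sum_singleton]
        have hgm : g ∈ I.filter (fun g => ¬ g ≠ (L - g) % q) := by
          rw [hg]; exact mem_singleton_self g
        rw [hI, image_cl_eq h hL] at hgm
        simp only [mem_filter, mem_range, not_not] at hgm
        have h5 := card_self h hL h2 hgm.1.1 hgm.2
        have h6 : (Fintype.card {u : Fin h // cl q L u = g} : ℤ) ≤ ((L / q + 1 : ℕ) : ℤ) := by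
          exact_mod_cast h5
        linarith
    rw [hS]
    linarith
  · intro g f hf
    by_cases hg : g ∈ I
    · have hg' := hg
      rw [hI, image_cl_eq h hL] at hg'
      simp only [mem_filter, mem_range] at hg'
      by_cases hs : g ≠ (L - g) % q
      · have hE : E g = e ((L - g) / q + 1) := by
          simp only [E]
          rw [if_pos hg, if_pos hs]
        rw [hE]
        have hlt : g < (L - g) % q := lt_of_le_of_ne hg'.2.1 hs
        have hC := cls_exists hg'.1 hg'.2.2
        obtain ⟨e', he'⟩ := minor_eq (α := α) (β := β) h hL hC hlt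
        apply he' κ c f
        exact hcls g _ hC hlt (fun y => f (e' y)) (hf.comp e'.injective)
      · have hE : E g = -(60 * (Fintype.card {u : Fin h // cl q L u = g} : ℤ)) := by
          simp only [E]
          rw [if_pos hg, if_neg hs]
        rw [hE]
        exact self_bound h hL hLq hα hβ c hc f
    · have hE : E g = 0 := by
        simp only [E]
        rw [if_neg hg]
      have : IsEmpty {u : Fin h // cl q L u = g} := by
        constructor
        rintro ⟨u, hu⟩
        apply hg
        rw [hI, mem_image]
        exact ⟨u, mem_univ _, hu⟩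
      rw [hE, Matrix.det_isEmpty]
      exact VG.one

end Pool.Agent.Z9
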