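import Pool.Agent.Z9.Ranges
import Pool.Agent.Z9.Chord
import Pool.Agent.Z9.SmallPrimes
import Pool.Agent.Z5.PBridge

/-!
# The ranges give `PBounds`
-/

open Finset

namespace Pool.Agent.Z9

open Pool.Agent.Z5 (VG VG_of_den_lt)

theorem pbounds (α β : ℕ → ℚ) : ∃ C : ℝ, ∃ p0 : ℕ, ∀ p ≥ p0,
    ∀ eq : Fin (2 * p) × Fin 10 ≃ (Fin (6 * p) ⊕ Fin (6 * p)) ⊕ Fin (8 * p), DM p α β eq ≠ 0 →
    PBounds C p (fun q => padicValRat q (DM p α β eq)) := by
  obtain ⟨C, hC⟩ := small_primes α β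
  set d : ℕ := ∑ k ∈ Finset.Icc 1 4, ((α k).den + (β k).den) with hd
  refine ⟨max C 300, 529 + d ^ 2, fun p hp eq hD => ?_⟩
  have hp2 : 529 ≤ p := by omega
  have hden : d ^ 2 ≤ p := by omega
  have hC3 : (300 : ℝ) ≤ max C 300 := le_max_right _ _
  have key : ∀ q : ℕ, q.Prime → 4 * p < q ^ 2 → 23 ≤ q ∧ VI q α ∧ VI q β := by
    intro q hq hpq
    have h0 : d < q := by
      by_contra h
      have h1 : q ≤ d := by omega
      have h2 : q ^ 2 ≤ d ^ 2 := Nat.pow_le_pow_left h1 2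
      omega
    have h1 : ∀ k ∈ Finset.Icc 1 4, (α k).den + (β k).den ≤ d := fun k hk =>
      Finset.single_le_sum (f := fun k => (α k).den + (β k).den) (fun _ _ => Nat.zero_le _) hk
    refine ⟨?_, fun k hk => VG_of_den_lt hq ?_, fun k hk => VG_of_den_lt hq ?_⟩
    · by_contra h
      have h1 : q ≤ 22 := by omega
      have h2 : q ^ 2 ≤ 22 ^ 2 := Nat.pow_le_pow_left h1 2
      omega
    · have := h1 k hk
      omega
    · have := h1 k hk
      omega
  have key2 : ∀ q : ℕ, p < q → 4 * p < q ^ 2 := by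
    intro q hq
    nlinarith
  refine ⟨?_, ?_, ?_, ?_, ?_, ?_⟩
  · intro q hq h
    have : Fact q.Prime := ⟨hq⟩
    obtain ⟨-, h2, h3⟩ := key q hq (key2 q (by omega))
    exact (range0 eq h2 h3 h).val hD
  · intro q hq h h'
    have : Fact q.Prime := ⟨hq⟩
    obtain ⟨h1, h2, h3⟩ := key q hq (key2 q (by omega))
    have h4 := (range1 eq h1 h2 h3 h h').val hD
    have h5 : ((5 * q - 20 * p - 200 : ℤ) : ℝ) ≤ ((padicValRat q (DM p α β eq) : ℤ) : ℝ) := by
      exact_mod_cast h4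
    push_cast at h5
    linarith
  · intro q hq h h'
    have : Fact q.Prime := ⟨hq⟩
    obtain ⟨h1, h2, h3⟩ := key q hq (key2 q (by omega))
    have h4 := (range2 eq h1 h2 h3 h h').val hD
    have h5 : ((-6 * p - 200 : ℤ) : ℝ) ≤ ((padicValRat q (DM p α β eq) : ℤ) : ℝ) := by
      exact_mod_cast h4
    push_cast at h5
    linarith
  · intro q hq h h'
    have : Fact q.Prime := ⟨hq⟩
    obtain ⟨h1, h2, h3⟩ := key q hq (key2 q (by omega))
    have h6 : q ≠ 2 * p := by
      rintro rfl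
      exact absurd hq (Nat.not_prime_mul (by norm_num) (by omega))
    have h4 := (range3 eq h1 h2 h3 h (by omega)).val hD
    have h5 : ((32 * p - 19 * q - 300 : ℤ) : ℝ) ≤ ((padicValRat q (DM p α β eq) : ℤ) : ℝ) := by
      exact_mod_cast h4
    push_cast at h5
    linarith
  · intro q hq h h'
    have : Fact q.Prime := ⟨hq⟩
    obtain ⟨h1, h2, h3⟩ := key q hq h
    have h4 := range4 eq h1 h2 h3 h h'
    have h5 := chord hq (by omega : 1 ≤ p) (q := q) (p := p)
    have h6 := chord' hq (by omega : 1 ≤ p) h h'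
    simp only at h4 h5 h6
    set k : ℤ := ((4 * p / q : ℕ) : ℤ) with hk
    have h7 := h4.val hD
    have hkR : (((4 * p / q : ℕ) : ℕ) : ℝ) = (k : ℝ) := by rw [hk]; norm_cast
    have hk0 : (0 : ℝ) ≤ (k : ℝ) := by rw [← hkR]; positivity
    have hq0 : (0 : ℝ) < q := by exact_mod_cast hq.pos
    have hkle : (k : ℝ) ≤ 4 * p / q := by
      rw [← hkR]
      have := @Nat.cast_div_le ℝ _ _ _ (4 * p) q
      push_cast at this
      exact this
    have hsq : ((k : ℝ) + 1) ^ 2 ≤ (4 * p / q + 1) ^ 2 := by gcongr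
    have h300 : 300 * (4 * (p : ℝ) / q + 1) ^ 2 ≤ max C 300 * (4 * p / q + 1) ^ 2 := by
      gcongr
    have h300' : 300 * ((k : ℝ) + 1) ^ 2 ≤ 300 * (4 * (p : ℝ) / q + 1) ^ 2 := by gcongr
    have hp0 : (0 : ℝ) ≤ p := Nat.cast_nonneg p
    generalize padicValNat q (RR p) = W at h5 h6 ⊢
    by_cases hs : q ^ 2 ≤ 16 * p
    · have h9 : (W : ℤ) - 84 * p - 60 * p - 300 * (k + 1) ^ 2 ≤
          padicValRat q (DM p α β eq) := by linarith
      have h8 : (((W : ℤ) - 84 * p - 60 * p - 300 * (k + 1) ^ 2 : ℤ) : ℝ) ≤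
          ((padicValRat q (DM p α β eq) : ℤ) : ℝ) := by exact_mod_cast h9
      rw [if_pos hs]
      push_cast at h8 ⊢
      have h10 : 60 * (p : ℝ) ≤ max C 300 * p := by nlinarith
      linarith
    · have h9 : (W : ℤ) - 84 * p - 300 * (k + 1) ^ 2 ≤
          padicValRat q (DM p α β eq) := by
        have := h5 (by omega) h'
        linarith
      have h8 : (((W : ℤ) - 84 * p - 300 * (k + 1) ^ 2 : ℤ) : ℝ) ≤
          ((padicValRat q (DM p α β eq) : ℤ) : ℝ) := by exact_mod_cast h9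
      rw [if_neg hs]
      push_cast at h8 ⊢
      linarith
  · intro q hq h
    have h1 : 1 ≤ q := hq.pos
    have h3 := hC p (by omega) eq q hq (by nlinarith) hD
    have h4 : C * p * Real.log p ≤ max C 300 * p * Real.log p := by
      have h5 : 0 ≤ Real.log (p : ℝ) := Real.log_nonneg (by exact_mod_cast (by omega : 1 ≤ p))
      have h6 : C ≤ max C 300 := le_max_left _ _
      gcongr
    linarith

end Pool.Agent.Z9
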