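import Pool.Agent.Z5.PML
import Pool.Agent.Z5.PExp
import Pool.Agent.Z9.PExp
import Pool.Agent.Z9.PPG

/-!
# `p`-adic part: the general class bound `gen`
-/

open Finset Polynomial

namespace Pool.Agent.Z9

open Pool.Agent.Z5 (hser Hs Col VG PG Cls yv gS zz sg2 cl SF OD hser_centre ml_det weight_ge)
open Pool.Agent.Z5.VG (pow_self self_prime zpow_self)

namespace Gen

variable {q L r K : ℕ} {α β : ℕ → ℚ} [hq : Fact q.Prime]

/-- the kernels of the generators: `1`, `-q` times the true kernel, `q ^ (-2) kerQ` -/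
noncomputable def kk (q L : ℕ) (α : ℕ → ℚ) (v : PowerSeries ℚ) (r i : ℕ) (s : Fin 3) :
    PowerSeries ℚ :=
  ![1, -(PowerSeries.C (q : ℚ) * PowerSeries.rescale (q : ℚ) (kerP L α (r + q * i))), v] s

omit hq in
theorem aeval_sum (A : ℚ[X]) {N : ℕ} (hN : A.natDegree < N) (y : PowerSeries ℚ) :
    aeval (PowerSeries.C (q : ℚ) * y) A =
      ∑ a : Fin N, PowerSeries.C (A.coeff a * (q : ℚ) ^ (a : ℕ)) * y ^ (a : ℕ) := by
  rw [Polynomial.aeval_eq_sum_range' hN, Finset.sum_range]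
  refine Finset.sum_congr rfl fun a _ => ?_
  rw [PowerSeries.smul_eq_C_mul, mul_pow, ← map_pow, map_mul]
  ring

/-- the weight of the generator `(s, a)` -/
def wt (x y : ℕ) (z : Fin 3 × ℕ) : ℤ := z.2 + ![0, (x : ℤ), (y : ℤ)] z.1

/-- sum of `max 0 (n - a)` over `a < N` -/
theorem sum_tri (N n : ℕ) : ∑ a : Fin N, max 0 ((n : ℤ) - (a : ℕ)) ≤ (n : ℤ) * (n + 1) / 2 := by
  have h1 : ∀ n N : ℕ, ∑ a ∈ range N, max 0 ((n : ℤ) - (a : ℕ)) ≤ ∑ a ∈ range n, ((n : ℤ) - (a : ℕ)) := by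
    intro n N
    have h2 : ∑ a ∈ range n, ((n : ℤ) - (a : ℕ)) = ∑ a ∈ range n, max 0 ((n : ℤ) - (a : ℕ)) := by
      refine Finset.sum_congr rfl fun a ha => ?_
      rw [mem_range] at ha
      rw [max_eq_right]
      omega
    rw [h2]
    rcases le_total N n with h | h
    · exact Finset.sum_le_sum_of_subset_of_nonneg (range_subset_range.2 h) fun _ _ _ => le_max_left _ _
    · rw [← Finset.sum_subset (range_subset_range.2 h)]
      intro a _ ha
      rw [mem_range, not_lt] at ha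
      rw [max_eq_left]
      omega
  have h3 : ∀ n : ℕ, 2 * ∑ a ∈ range n, ((n : ℤ) - (a : ℕ)) = n * (n + 1) := by
    intro n
    induction n with
    | zero => simp
    | succ n ih =>
      rw [Finset.sum_range_succ]
      have h4 : ∑ a ∈ range n, (((n + 1 : ℕ) : ℤ) - (a : ℕ)) =
          ∑ a ∈ range n, ((n : ℤ) - (a : ℕ)) + n := by
        rw [← sub_eq_iff_eq_add', ← Finset.sum_sub_distrib]
        simp
      rw [h4, mul_add, mul_add, ih]
      push_cast
      ring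
  have h5 := h1 n N
  rw [Finset.sum_range] at h5
  have h6 := h3 n
  have h7 : ∑ a ∈ range n, ((n : ℤ) - (a : ℕ)) = (n : ℤ) * (n + 1) / 2 := by omega
  linarith

theorem wt_sum {ι : Type*} [Fintype ι] (x y τ N : ℕ) (hx : x ≤ τ) (hy : y ≤ τ)
    (f : ι → Fin 3 × Fin N) (hf : Function.Injective f) :
    (τ : ℤ) * Fintype.card ι - τ * (τ + 1) / 2 - ((τ : ℤ) - x) * (τ - x + 1) / 2 -
      ((τ : ℤ) - y) * (τ - y + 1) / 2 ≤ ∑ k, wt x y ((f k).1, ((f k).2 : ℕ)) := by
  have h1 := weight_ge (fun z : Fin 3 × Fin N => wt x y (z.1, (z.2 : ℕ))) f hf (τ : ℤ)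
  have h2 : ∑ z : Fin 3 × Fin N, max 0 ((τ : ℤ) - wt x y (z.1, (z.2 : ℕ))) ≤
      (τ : ℤ) * (τ + 1) / 2 + ((τ : ℤ) - x) * (τ - x + 1) / 2 + ((τ : ℤ) - y) * (τ - y + 1) / 2 := by
    rw [Fintype.sum_prod_type, Fin.sum_univ_three]
    have a1 := sum_tri N τ
    have a2 := sum_tri N (τ - x)
    have a3 := sum_tri N (τ - y)
    have e1 : ∑ a : Fin N, max 0 ((τ : ℤ) - wt x y (0, (a : ℕ))) =
        ∑ a : Fin N, max 0 ((τ : ℤ) - (a : ℕ)) := by
      refine Finset.sum_congr rfl fun a _ => ?_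
      simp [wt]
    have e2 : ∑ a : Fin N, max 0 ((τ : ℤ) - wt x y (1, (a : ℕ))) =
        ∑ a : Fin N, max 0 (((τ - x : ℕ) : ℤ) - (a : ℕ)) := by
      refine Finset.sum_congr rfl fun a _ => ?_
      simp only [wt, Matrix.cons_val_one, Matrix.cons_val_zero]
      congr 1
      omega
    have e3 : ∑ a : Fin N, max 0 ((τ : ℤ) - wt x y (2, (a : ℕ))) =
        ∑ a : Fin N, max 0 (((τ - y : ℕ) : ℤ) - (a : ℕ)) := by
      refine Finset.sum_congr rfl fun a _ => ?_
      simp only [wt, Matrix.cons_val]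
      congr 1
      omega
    simp only [e1, e2, e3]
    rw [Nat.cast_sub hx] at a2
    rw [Nat.cast_sub hy] at a3
    rw [Nat.cast_sub hx, Nat.cast_sub hy]
    linarith
  linarith

theorem gen_aux (hc : Cls q L r K) (hL : L < q ^ 2) (hα : VI q α) (hβ : VI q β) (x y τ : ℕ)
    (hx : x ≤ τ) (hy : y ≤ τ) (c : Fin K × Fin 10 → Col) (hT : ∀ k, PG q 0 (c k).1)
    (hP : ∀ k, PG q (x + 1) (c k).2.1) (hQ : ∀ k, PG q ((y : ℤ) - 2) (c k).2.2) :
    VG q (10 * (K : ℤ) * τ - τ * (τ + 1) / 2 - ((τ : ℤ) - x) * (τ - x + 1) / 2 -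
      ((τ : ℤ) - y) * (τ - y + 1) / 2)
      (Matrix.of fun (x y : Fin K × Fin 10) =>
        PowerSeries.coeff (x.2 : ℕ) (sc q L α β r x.1 (c y))).det := by
  classical
  have hK : 1 ≤ K := hc.hK
  have hq0 : (q : ℚ) ≠ 0 := by exact_mod_cast hq.out.ne_zero
  have hqpos : 0 < q := hq.out.pos
  have hKq : K ≤ q := by
    have h1 : q * (K - 1) < q * q := by
      have := hc.hL
      nlinarith [hc.hL, hL]
    have h2 : K - 1 < q := lt_of_mul_lt_mul_left h1 (Nat.zero_le _)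
    omega
  obtain ⟨v, hv, hvQ⟩ := kerQ_sing (q := q) hβ
  choose A hA1 hA2 using fun y => hser_centre (L := L) (r := r) hK (c y).1 (hT y)
  choose B hB1 hB2 using fun y => hser_centre (L := L) (r := r) hK (c y).2.1 (hP y)
  choose D hD1 hD2 using fun y => hser_centre (L := L) (r := r) hK (c y).2.2 (hQ y)
  obtain ⟨N, hN⟩ : ∃ N : ℕ, ∀ y, (A y).natDegree < N ∧ (B y).natDegree < N ∧
      (D y).natDegree < N := by
    refine ⟨∑ y, ((A y).natDegree + (B y).natDegree + (D y).natDegree) + 1, fun y => ?_⟩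
    have h1 := Finset.single_le_sum
      (f := fun y => (A y).natDegree + (B y).natDegree + (D y).natDegree)
      (fun i _ => Nat.zero_le _) (mem_univ y)
    omega
  -- generators and coefficients
  let g : Fin 3 × Fin N → Fin K × Fin 10 → ℚ := fun z i =>
    PowerSeries.coeff (i.2 : ℕ) (yv K i.1 ^ (z.2 : ℕ) * kk q L α v r i.1 z.1)
  let co : Fin K × Fin 10 → Fin 3 × Fin N → ℚ := fun k z =>
    ![(A k).coeff z.2 * (q : ℚ) ^ (z.2 : ℕ), -((B k).coeff z.2 * (q : ℚ) ^ (z.2 : ℕ) * (q : ℚ)⁻¹),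
      (D k).coeff z.2 * (q : ℚ) ^ (z.2 : ℕ) * (q : ℚ) ^ 2] z.1
  have hsc : (Matrix.of fun (x y : Fin K × Fin 10) =>
      PowerSeries.coeff (x.2 : ℕ) (sc q L α β r x.1 (c y))) =
      Matrix.of fun i k => ∑ z, co k z * g z i := by
    ext x y
    simp only [Matrix.of_apply]
    have h1 : sc q L α β r x.1 (c y) = ∑ z : Fin 3 × Fin N,
        PowerSeries.C (co y z) * (yv K x.1 ^ (z.2 : ℕ) * kk q L α v r x.1 z.1) := by
      rw [Fintype.sum_prod_type, Fin.sum_univ_three]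
      simp only [sc, tvec, map_add, map_mul]
      rw [hA2 y _ x.1.2, hB2 y _ x.1.2, hD2 y _ x.1.2, aeval_sum _ (hN y).1, aeval_sum _ (hN y).2.1,
        aeval_sum _ (hN y).2.2, Finset.mul_sum, Finset.mul_sum, hvQ]
      congr 1
      · congr 1
        · refine Finset.sum_congr rfl fun a _ => ?_
          simp [co, kk]
        · refine Finset.sum_congr rfl fun a _ => ?_
          simp only [co, kk, Matrix.cons_val_one, Matrix.cons_val_zero]
          have h2 : PowerSeries.C (-((B y).coeff a * (q : ℚ) ^ (a : ℕ) * (q : ℚ)⁻¹)) *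
              PowerSeries.C (q : ℚ) = -PowerSeries.C ((B y).coeff a * (q : ℚ) ^ (a : ℕ)) := by
            rw [← map_mul, ← map_neg]
            congr 1
            field_simp
          linear_combination (-(yv K ↑x.1 ^ (a : ℕ) *
            PowerSeries.rescale (q : ℚ) (kerP L α (r + q * ↑x.1)))) * (-h2)
      · refine Finset.sum_congr rfl fun a _ => ?_
        simp only [co, kk, Matrix.cons_val]
        rw [map_mul _ _ ((q : ℚ) ^ 2)]
        ring
    rw [h1, map_sum]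
    refine Finset.sum_congr rfl fun z _ => ?_
    rw [PowerSeries.coeff_C_mul]
  rw [hsc]
  -- integrality
  have hkk : ∀ (i : Fin K) (s : Fin 3), SG q 0 (kk q L α v r i s) := by
    intro i s
    fin_cases s
    · simpa [kk] using SG.one (q := q)
    · have h1 := SG.C_mul (VG.self_prime (q := q)) (kerP_sing hc hL hα i.2)
      have h2 : kk q L α v r i 1 = gS K i - (PowerSeries.C (q : ℚ) *
          (PowerSeries.rescale (q : ℚ) (kerP L α (r + q * i)) +
            PowerSeries.C ((q : ℚ)⁻¹) * gS K i)) := by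
        have h3 : PowerSeries.C (q : ℚ) * PowerSeries.C ((q : ℚ)⁻¹) = 1 := by
          rw [← map_mul, mul_inv_cancel₀ hq0, map_one]
        simp only [kk, Matrix.cons_val_one, Matrix.cons_val_zero]
        linear_combination (-(gS K ↑i)) * (-h3)
      change SG q 0 (kk q L α v r i 1)
      rw [h2]
      refine (gS_int hKq i.2).sub (h1.mono ?_)
      norm_num
    · simpa [kk] using hv
  have hg0 : ∀ (z : Fin 3 × Fin N) (i : Fin K × Fin 10), VG q 0 (g z i) := fun z i =>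
    ((yv_int (q := q) (K := K) (i.1 : ℕ)).pow_zero (z.2 : ℕ)).int_mul (hkk i.1 z.1) _ i.2.2
  have hml := ml_det (q := q) g (fun z => wt x y (z.1, (z.2 : ℕ))) (fun _ => 0) co ?_
    (10 * (K : ℤ) * τ - τ * (τ + 1) / 2 - ((τ : ℤ) - x) * (τ - x + 1) / 2 -
      ((τ : ℤ) - y) * (τ - y + 1) / 2) ?_
  · simpa using hml
  · intro k z
    obtain ⟨s, a⟩ := z
    have hqa : VG q ((a : ℕ) : ℤ) ((q : ℚ) ^ (a : ℕ)) := VG.pow_self _
    fin_cases s
    · have h1 := (hA1 k a).mul hqa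
      simp only [co, wt]
      simpa using h1
    · have h1 := (((hB1 k a).mul hqa).mul (VG.zpow_self (q := q) (-1))).neg
      simp only [co, wt]
      refine VG.mono (k := (x : ℤ) + 1 + ((a : ℕ) : ℤ) + -1) ?_ ?_
      · simpa using h1
      · simp
        omega
    · have h1 := ((hD1 k a).mul hqa).mul (VG.pow_self (q := q) 2)
      simp only [co, wt]
      refine VG.mono (k := (y : ℤ) - 2 + ((a : ℕ) : ℤ) + (2 : ℕ)) ?_ ?_
      · simpa using h1
      · simp
        omega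
  · intro f hf
    have hwt := wt_sum x y τ N hx hy f hf
    have h0 : VG q 0 (Matrix.det (Matrix.of fun i k => g (f k) i)) :=
      VG.det_zero _ fun i k => hg0 _ _
    refine h0.mono ?_
    rw [Fintype.card_prod, Fintype.card_fin, Fintype.card_fin] at hwt
    push_cast at hwt
    have e : (τ : ℤ) * (K * 10) = 10 * K * τ := by ring
    rw [e] at hwt
    linarith

end Gen

variable {q L r K : ℕ} {α β : ℕ → ℚ} [hq : Fact q.Prime]

/-- the general class bound -/
theorem gen (hc : Cls q L r K) (hL : L < q ^ 2) (hα : VI q α) (hβ : VI q β) (x y τ : ℕ) (hx : x ≤ τ)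
    (hy : y ≤ τ) (c : Fin K × Fin 10 → Col) (hT : ∀ k, PG q 0 (c k).1)
    (hP : ∀ k, PG q (x + 1) (c k).2.1) (hQ : ∀ k, PG q ((y : ℤ) - 2) (c k).2.2) :
    VG q (10 * (K : ℤ) * τ - τ * (τ + 1) / 2 - (τ - x) * (τ - x + 1) / 2 - (τ - y) * (τ - y + 1) / 2
      - 45 * K) (cmat q L α β r K c).det := by
  have hq0 : (q : ℚ) ≠ 0 := by exact_mod_cast hq.out.ne_zero
  have h1 := Gen.gen_aux hc hL hα hβ x y τ hx hy c hT hP hQ
  rw [cmat_scale] at h1
  have h2 := (VG.zpow_self (q := q) (-(45 * K : ℕ) : ℤ)).mul h1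
  have h3 : (q : ℚ) ^ (-(45 * K : ℕ) : ℤ) * ((q : ℚ) ^ (45 * K) * (cmat q L α β r K c).det) =
      (cmat q L α β r K c).det := by
    rw [zpow_neg, zpow_natCast, ← mul_assoc, inv_mul_cancel₀ (pow_ne_zero _ hq0), one_mul]
  rw [h3] at h2
  refine h2.mono ?_
  push_cast
  linarith

end Pool.Agent.Z9
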