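import Pool.Agent.Z9.PDefs
import Pool.Agent.Z5.PPG
import Pool.Agent.Z5.POm

/-!
# DIM39: classes with one pole

`r < q`, `L - r < q`: everything is integral in `ε`.
-/

open Finset Polynomial

namespace Pool.Agent.Z9

open Pool.Agent.Z5 (hser Hs Col VG PG Cls yv gS zz sg2 cl SF OD)

variable {q L r : ℕ} {α β : ℕ → ℚ} [hq : Fact q.Prime]

namespace K1

/-- the subring of series whose first ten coefficients are integral -/
def SR (q : ℕ) [Fact q.Prime] : Subring (PowerSeries ℚ) where
  carrier := {f | SG q 0 f}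
  mul_mem' := by
    intro f g hf hg n hn
    rw [PowerSeries.coeff_mul]
    refine VG.sum _ _ fun x hx => ?_
    have h := Finset.HasAntidiagonal.mem_antidiagonal.mp hx
    exact VG.int_mul (hf x.1 (by omega)) (hg x.2 (by omega))
  one_mem' := by
    intro n _
    rw [PowerSeries.coeff_one]
    split_ifs
    · exact VG.one
    · exact VG.zero 0
  add_mem' := by
    intro f g hf hg n hn
    rw [map_add]
    exact (hf n hn).add (hg n hn)
  zero_mem' := by
    intro n _
    rw [map_zero]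
    exact VG.zero 0
  neg_mem' := by
    intro f hf n hn
    rw [map_neg]
    exact (hf n hn).neg

theorem mem_SR {f : PowerSeries ℚ} : f ∈ SR q ↔ SG q 0 f := Iff.rfl

theorem C_mem {a : ℚ} (ha : VG q 0 a) : PowerSeries.C a ∈ SR q := by
  intro n _
  rw [PowerSeries.coeff_C]
  split_ifs
  · exact ha
  · exact VG.zero 0

theorem X_mem : (PowerSeries.X : PowerSeries ℚ) ∈ SR q := by
  intro n _
  rw [PowerSeries.coeff_X]
  split_ifs
  · exact VG.one
  · exact VG.zero 0

theorem aeval_mem {f : PowerSeries ℚ} (hf : f ∈ SR q) (A : ℚ[X]) (hA : PG q 0 A) :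
    aeval f A ∈ SR q := by
  rw [Polynomial.aeval_eq_sum_range]
  refine Subring.sum_mem _ fun i _ => ?_
  rw [PowerSeries.smul_eq_C_mul]
  exact Subring.mul_mem _ (C_mem (hA i)) (Subring.pow_mem _ hf i)

theorem hser_mem {h : ℚ[X]} (hh : PG q 0 h) (L u : ℕ) : hser L u h ∈ SR q := by
  refine aeval_mem (Subring.pow_mem _ (Subring.add_mem _ (C_mem ?_) ?_) 2) h hh
  · have := VG.int (q := q) ((L : ℤ) - 2 * u)
    simpa using this
  · have h := Subring.mul_mem _ (C_mem (VG.nat (q := q) 2)) (X_mem (q := q))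
    rwa [map_natCast] at h

theorem Hs_VG {s M : ℕ} (h : M < q) : VG q 0 (Hs s M) := by
  refine VG.sum _ _ fun m hm => ?_
  rw [Finset.mem_Icc] at hm
  rw [one_div, ← inv_pow]
  exact (Pool.Agent.Z5.POm.VG_inv_nat hm.1 (by omega)).pow_zero s

theorem kerQ_mem (hβ : VI q β) : kerQ β ∈ SR q := by
  refine Subring.sum_mem _ fun k hk => ?_
  exact Subring.mul_mem _ (C_mem (hβ k hk)) (Subring.pow_mem _ X_mem _)

theorem kerP_mem (h1 : r < q) (h2 : L - r < q) (hα : VI q α) : kerP L α r ∈ SR q := by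
  refine Subring.add_mem _ ?_ (Subring.mul_mem _ ?_ (kerQ_mem hα))
  · intro n hn
    rw [PowerSeries.coeff_mk, if_pos hn]
    exact VG.neg (VG.add (Hs_VG h1) (VG.int_mul (VG.one.neg.pow_zero n) (Hs_VG h2)))
  · have h := C_mem (VG.nat (q := q) 2)
    rwa [map_natCast] at h

end K1

open K1

theorem k1_reg (hc : Cls q L r 1) (hα : VI q α) (hβ : VI q β) (c : Col) (h1 : PG q 0 c.1)
    (h2 : PG q 0 c.2.1) (h3 : PG q 0 c.2.2) : SG q 0 (tvec L α β r c) := by
  have hU := hc.hU
  have hL := hc.hL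
  have hr := hc.hr
  exact Subring.add_mem (SR q) (Subring.add_mem _ (hser_mem h1 L r)
    (Subring.mul_mem _ (kerP_mem hr (by omega) hα) (hser_mem h2 L r)))
    (Subring.mul_mem _ (kerQ_mem hβ) (hser_mem h3 L r))

end Pool.Agent.Z9
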