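import Pool.Agent.Z9.PPG
import Pool.Agent.Z9.PExp
import Pool.Agent.Z5.PML
import Pool.Agent.Z5.PK2

/-!
# DIM39: classes with two poles, the bounds
-/

open Finset Polynomial

namespace Pool.Agent.Z9

open Pool.Agent.Z5 (hser Hs Col VG PG Cls yv gS zz sg2 cl SF OD uz ml_det weight_ge)

variable {q L r : ℕ} {α β : ℕ → ℚ} [hq : Fact q.Prime]

theorem uz_SG (i : ℕ) : SG q 1 (uz q i) := by
  have := SG.mul (SG.C (q := q) (k := 1) Z5.VG.self_prime) (zz_int (q := q) i)
  exact this.mono (by norm_num)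

theorem sg2_int (i : Fin 2) : SG q 0 (sg2 (i : ℕ)) := by
  unfold sg2
  apply SG.neg
  have h0 : PowerSeries.constantCoeff (1 + PowerSeries.C (1 - 2 * ((i : ℕ) : ℚ)) * PowerSeries.X) = 1 := by
    simp
  apply SG.inv
  · apply SG.add SG.one
    have h : VG q 0 (1 - 2 * ((i : ℕ) : ℚ)) := by
      have := Z5.VG.int (q := q) (1 - 2 * ((i : ℕ) : ℤ))
      push_cast at this
      exact this
    have := SG.mul (SG.C h) (SG.X (q := q))
    simpa using this
  · rw [h0]; exact one_ne_zero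
  · rw [h0, inv_one]; exact Z5.VG.one

theorem aeval_uz_SG {k : ℤ} {A : ℚ[X]} (hA : PG q k A) (i : ℕ) : SG q k (aeval (uz q i) A) :=
  SG.aeval ((uz_SG i).mono (by norm_num)) A hA

/-- truncation of a polynomial in `u = q z` -/
theorem aeval_uz_trunc {k : ℤ} {A : ℚ[X]} (hA : PG q k A) (i m : ℕ) :
    SG q (m + k) (aeval (uz q i) A - ∑ a ∈ range m, PowerSeries.C (A.coeff a * (q : ℚ) ^ a) * zz i ^ a) := by
  have h := Polynomial.aeval_eq_sum_range' (p := A) (n := m + (A.natDegree + 1)) (by omega) (uz q i)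
  rw [h, Finset.sum_range_add, add_sub_assoc]
  have e : ∀ a, A.coeff a • uz q i ^ a = PowerSeries.C (A.coeff a * (q : ℚ) ^ a) * zz i ^ a := by
    intro a
    rw [uz, mul_pow, map_mul, map_pow, PowerSeries.smul_eq_C_mul]
    ring
  have e2 : ∑ a ∈ range m, A.coeff a • uz q i ^ a =
      ∑ a ∈ range m, PowerSeries.C (A.coeff a * (q : ℚ) ^ a) * zz i ^ a :=
    Finset.sum_congr rfl fun a _ => e a
  rw [e2]
  have e3 : (∑ a ∈ range m, PowerSeries.C (A.coeff a * (q : ℚ) ^ a) * zz i ^ a) +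
      (∑ a ∈ range (A.natDegree + 1), A.coeff (m + a) • uz q i ^ (m + a) -
        ∑ a ∈ range m, PowerSeries.C (A.coeff a * (q : ℚ) ^ a) * zz i ^ a) =
      ∑ a ∈ range (A.natDegree + 1), A.coeff (m + a) • uz q i ^ (m + a) := by ring
  rw [e3]
  refine SG.sum _ _ fun a _ => ?_
  rw [PowerSeries.smul_eq_C_mul]
  have h1 := SG.mul (SG.C (hA (m + a))) (SG.pow (uz_SG (q := q) i) (m + a))
  exact h1.mono (by push_cast; omega)

/-- index type of the generators of the lattice of a two-pole class -/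
abbrev Gen2 : Type := (Fin 9 ⊕ Fin 10) ⊕ (Fin 2 × Fin 10)

/-- the generators -/
noncomputable def gen2 : Gen2 → Fin 2 × Fin 10 → ℚ
  | .inl (.inl a), x => PowerSeries.coeff (x.2 : ℕ) (zz x.1 ^ (a : ℕ))
  | .inl (.inr a), x => PowerSeries.coeff (x.2 : ℕ) (zz x.1 ^ (a : ℕ) * sg2 x.1)
  | .inr y, x => if x = y then 1 else 0

/-- their weights -/
def wt2 (k : ℤ) : Gen2 → ℤ
  | .inl (.inl a) => (a : ℕ)
  | .inl (.inr a) => (a : ℕ) + k
  | .inr _ => 9

theorem gen2_int (g : Gen2) (x : Fin 2 × Fin 10) : VG q 0 (gen2 g x) := by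
  rcases g with (a | a) | y
  · have := SG.pow (zz_int (q := q) (x.1 : ℕ)) (a : ℕ)
    exact (this.mono (by simp)) _ x.2.2
  · have := SG.mul (SG.pow (zz_int (q := q) (x.1 : ℕ)) (a : ℕ)) (sg2_int (q := q) x.1)
    exact (this.mono (by simp)) _ x.2.2
  · simp only [gen2]
    split_ifs
    · exact Z5.VG.one
    · exact Z5.VG.zero _

theorem k2_gen (k : ℤ) (hk : -1 ≤ k) (W : ℤ)
    (hW : ∑ x : Gen2, max 0 (9 - wt2 k x) = 180 - W) (c : Fin 2 × Fin 10 → Col)
    (h : ∀ y, Adm2 q k (fun i => sc q L α β r i (c y))) :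
    VG q (W - 90) (cmat q L α β r 2 c).det := by
  choose A B hA hB hE using h
  -- the coefficients
  let rem : Fin 2 × Fin 10 → Fin 2 → PowerSeries ℚ := fun y i =>
    sc q L α β r i (c y) -
      (∑ a ∈ range 9, PowerSeries.C ((A y).coeff a * (q : ℚ) ^ a) * zz i ^ a +
        (∑ a ∈ range 10, PowerSeries.C ((B y).coeff a * (q : ℚ) ^ a) * zz i ^ a) * sg2 i)
  have hrem : ∀ y i, SG q 9 (rem y i) := by
    intro y i
    have h1 := hE y i
    have h2 := aeval_uz_trunc (hA y) (i : ℕ) 9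
    have h3 := SG.mul (aeval_uz_trunc (hB y) (i : ℕ) 10) (sg2_int (q := q) i)
    have h3' := h3.mono (l := 9) (by push_cast; omega)
    have h2' := h2.mono (l := 9) (by norm_num)
    have := SG.add (SG.add h1 h2') h3'
    have e : rem y i = (fun i : Fin 2 => sc q L α β r i (c y)) i -
        (aeval (PowerSeries.C (q : ℚ) * zz i) (A y) +
          aeval (PowerSeries.C (q : ℚ) * zz i) (B y) * sg2 i) +
        (aeval (uz q i) (A y) -
          ∑ a ∈ range 9, PowerSeries.C ((A y).coeff a * (q : ℚ) ^ a) * zz i ^ a) +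
        (aeval (uz q i) (B y) -
          ∑ a ∈ range 10, PowerSeries.C ((B y).coeff a * (q : ℚ) ^ a) * zz i ^ a) * sg2 i := by
      simp only [rem, uz]
      ring
    rw [e]
    exact this
  let co' : Fin 2 × Fin 10 → Gen2 → ℚ := fun y g => match g with
    | .inl (.inl a) => (A y).coeff a * (q : ℚ) ^ (a : ℕ)
    | .inl (.inr a) => (B y).coeff a * (q : ℚ) ^ (a : ℕ)
    | .inr x => PowerSeries.coeff (x.2 : ℕ) (rem y x.1)
  have hco : ∀ y g, VG q (wt2 k g + 0) (co' y g) := by
    intro y g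
    rcases g with (a | a) | x
    · exact ((hA y a).mul (Z5.VG.pow_self (a : ℕ))).mono (by simp only [wt2]; omega)
    · exact ((hB y a).mul (Z5.VG.pow_self (a : ℕ))).mono (by simp only [wt2]; omega)
    · exact (hrem y x.1 _ x.2.2).mono (by simp [wt2])
  have hsum : ∀ y x, ∑ g, co' y g * gen2 g x = PowerSeries.coeff (x.2 : ℕ) (sc q L α β r x.1 (c y)) := by
    intro y x
    rw [Fintype.sum_sum_type, Fintype.sum_sum_type]
    have e1 : ∑ a : Fin 9, co' y (.inl (.inl a)) * gen2 (.inl (.inl a)) x =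
        PowerSeries.coeff (x.2 : ℕ)
          (∑ a ∈ range 9, PowerSeries.C ((A y).coeff a * (q : ℚ) ^ a) * zz x.1 ^ a) := by
      rw [map_sum, Finset.sum_range]
      refine Finset.sum_congr rfl fun a _ => ?_
      rw [PowerSeries.coeff_C_mul]
      rfl
    have e2 : ∑ a : Fin 10, co' y (.inl (.inr a)) * gen2 (.inl (.inr a)) x =
        PowerSeries.coeff (x.2 : ℕ)
          ((∑ a ∈ range 10, PowerSeries.C ((B y).coeff a * (q : ℚ) ^ a) * zz x.1 ^ a) * sg2 x.1) := by
      rw [Finset.sum_mul, map_sum, Finset.sum_range]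
      refine Finset.sum_congr rfl fun a _ => ?_
      rw [mul_assoc (PowerSeries.C _), PowerSeries.coeff_C_mul]
      rfl
    have e3 : ∑ z : Fin 2 × Fin 10, co' y (.inr z) * gen2 (.inr z) x =
        PowerSeries.coeff (x.2 : ℕ) (rem y x.1) := by
      simp only [co', gen2]
      rw [Finset.sum_eq_single x]
      · simp
      · intro b _ hb; rw [if_neg (Ne.symm hb), mul_zero]
      · intro h; exact absurd (Finset.mem_univ _) h
    rw [e1, e2, e3, ← map_add, ← map_add]
    congr 1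
    simp only [rem]
    ring
  have hw : ∀ f : Fin 2 × Fin 10 → Gen2, Function.Injective f → W ≤ ∑ x, wt2 k (f x) := by
    intro f hf
    have h1 := weight_ge (wt2 k) f hf 9
    rw [hW] at h1
    have h3 : Fintype.card (Fin 2 × Fin 10) = 20 := by simp
    rw [h3] at h1
    push_cast at h1
    omega
  have key := ml_det (q := q) gen2 (wt2 k) (fun _ => 0) co' hco W (fun f hf => by
    have h1 : VG q 0 (Matrix.det (Matrix.of fun i x => gen2 (f x) i)) :=
      Z5.VG.det_zero _ fun i j => gen2_int _ _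
    exact h1.mono (by have := hw f hf; omega))
  have emat : (Matrix.of fun (i x : Fin 2 × Fin 10) => ∑ g, co' x g * gen2 g i) =
      (Matrix.of fun (x y : Fin 2 × Fin 10) =>
        PowerSeries.coeff (x.2 : ℕ) (sc q L α β r x.1 (c y))) := by
    ext i x
    exact hsum x i
  rw [emat, cmat_scale] at key
  have hq0 : (q : ℚ) ≠ 0 := by exact_mod_cast hq.out.ne_zero
  have h5 := (Z5.VG.zpow_self (q := q) (-90)).mul key
  have e5 : (q : ℚ) ^ (-90 : ℤ) * ((q : ℚ) ^ (45 * 2) * (cmat q L α β r 2 c).det) =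
      (cmat q L α β r 2 c).det := by
    rw [← mul_assoc, ← zpow_natCast, ← zpow_add₀ hq0]
    norm_num
  rw [e5] at h5
  refine h5.mono ?_
  rw [Finset.sum_const_zero]
  omega

theorem k2_zero (c : Fin 2 × Fin 10 → Col) (h : ∀ y, Adm2 q 0 (fun i => sc q L α β r i (c y))) :
    VG q 0 (cmat q L α β r 2 c).det := by
  have h1 := k2_gen 0 (by norm_num) 90 (by
    rw [Fintype.sum_sum_type, Fintype.sum_sum_type]
    simp [wt2, Fin.sum_univ_succ]) c h
  exact h1.mono (by norm_num)

theorem k2_neg (c : Fin 2 × Fin 10 → Col) (h : ∀ y, Adm2 q (-1) (fun i => sc q L α β r i (c y))) :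
    VG q (-10) (cmat q L α β r 2 c).det := by
  have h1 := k2_gen (-1) (by norm_num) 80 (by
    rw [Fintype.sum_sum_type, Fintype.sum_sum_type]
    simp [wt2, Fin.sum_univ_succ]) c h
  exact h1.mono (by norm_num)

end Pool.Agent.Z9
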