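import Pool.Agent.Z9.PDefs

/-!
# Scaling of the `P`- and `Q`-columns
-/

open Finset Polynomial

namespace Pool.Agent.Z9

open Pool.Agent.Z5 (hser Hs Col VG PG Cls yv gS zz sg2 cl SF OD)

/-- the standard columns with the `P`-columns multiplied by `x`, the `Q`-columns by `y` -/
noncomputable def scz (a b m : ℕ) (x y : ℚ) : (Fin a ⊕ Fin b) ⊕ Fin m → Col :=
  Sum.elim (Sum.elim (fun i : Fin a => ((0, C x * X ^ (i : ℕ), 0) : Col))
      (fun i : Fin b => ((0, 0, C y * X ^ (i : ℕ)) : Col))) (fun i : Fin m => ((X ^ (i : ℕ), 0, 0) : Col))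

theorem hser_C_mul' (L u : ℕ) (r : ℚ) (f : ℚ[X]) :
    hser L u (C r * f) = PowerSeries.C r * hser L u f := by
  rw [hser, hser, map_mul, aeval_C]
  rfl

theorem coeff_tvec_smul (L : ℕ) (α β : ℕ → ℚ) (u n : ℕ) (r : ℚ) (c : Col) :
    PowerSeries.coeff n (tvec L α β u (C r * c.1, C r * c.2.1, C r * c.2.2)) =
      r * PowerSeries.coeff n (tvec L α β u c) := by
  rw [tvec, tvec, hser_C_mul', hser_C_mul', hser_C_mul', ← PowerSeries.coeff_C_mul]
  congr 1
  ring

/-- scaling of the `P`- and `Q`-columns -/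
theorem scale_det {L : ℕ} {α β : ℕ → ℚ} {h a b m : ℕ}
    (eq : Fin h × Fin 10 ≃ (Fin a ⊕ Fin b) ⊕ Fin m) (x y : ℚ) :
    ((dmat L α β h (scz a b m x y)).submatrix id eq).det =
    x ^ a * y ^ b * ((dmat L α β h (stdc a b m)).submatrix id eq).det := by
  classical
  set s : (Fin a ⊕ Fin b) ⊕ Fin m → ℚ := Sum.elim (Sum.elim (fun _ => x) (fun _ => y)) (fun _ => 1)
    with hs
  have h0 : ∀ j, scz a b m x y j =
      (C (s j) * (stdc a b m j).1, C (s j) * (stdc a b m j).2.1, C (s j) * (stdc a b m j).2.2) := by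
    intro j
    rcases j with (j | j) | j <;> simp [hs, scz, stdc]
  have h1 : (dmat L α β h (scz a b m x y)).submatrix id eq = Matrix.of fun i j =>
      s (eq j) * ((dmat L α β h (stdc a b m)).submatrix id eq) i j := by
    ext i j
    simp only [Matrix.submatrix_apply, Matrix.of_apply, dmat, id]
    rw [h0, coeff_tvec_smul]
  rw [h1, Matrix.det_mul_row, Equiv.prod_comp eq s]
  congr 1
  rw [Fintype.prod_sum_type, Fintype.prod_sum_type]
  simp [hs]

end Pool.Agent.Z9
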