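import Pool.Agent.Z9.PAssem
import Pool.Agent.Z9.PRep
import Pool.Agent.Z9.PGen
import Pool.Agent.Z9.PK1
import Pool.Agent.Z9.PK2
import Pool.Agent.Z9.PK2R

/-!
# DIM39: the bounds in the ranges of primes

`N = L + 1 = 4 p`, `a = b = 6 p`, `m = 8 p`.
-/

open Finset Polynomial

namespace Pool.Agent.Z9

open Pool.Agent.Z5 (hser Hs Col VG PG Cls yv gS zz sg2 cl SF OD)

variable {q : ℕ} {α β : ℕ → ℚ} [hq : Fact q.Prime]

theorem scz_PG {a b m : ℕ} {x y : ℚ} {i j : ℤ} (hx : VG q i x) (hy : VG q j y)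
    (t : (Fin a ⊕ Fin b) ⊕ Fin m) :
    PG q 0 (scz a b m x y t).1 ∧ PG q i (scz a b m x y t).2.1 ∧ PG q j (scz a b m x y t).2.2 := by
  rcases t with (t | t) | t
  · refine ⟨Z5.PG.zero 0, ?_, Z5.PG.zero j⟩
    have h := Z5.PG.C_mul hx (Z5.PG.pow_zero (Z5.PG.X (q := q)) (t : ℕ))
    rwa [add_zero] at h
  · refine ⟨Z5.PG.zero 0, Z5.PG.zero i, ?_⟩
    have h := Z5.PG.C_mul hy (Z5.PG.pow_zero (Z5.PG.X (q := q)) (t : ℕ))
    rwa [add_zero] at h
  · exact ⟨Z5.PG.pow_zero Z5.PG.X _, Z5.PG.zero i, Z5.PG.zero j⟩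

theorem VG_of_scaled {N : ℕ} {x y : ℚ} {v : ℤ} (h : y = (q : ℚ) ^ N * x) (hy : VG q v y) :
    VG q (v - N) x := by
  have h0 : (q : ℚ) ≠ 0 := by exact_mod_cast hq.out.ne_zero
  have h1 : x = (q : ℚ) ^ (-(N : ℤ)) * y := by
    rw [h, zpow_neg, zpow_natCast, inv_mul_cancel_left₀ (pow_ne_zero _ h0)]
  rw [h1]
  refine ((Z5.VG.zpow_self (-(N : ℤ))).mul hy).mono ?_
  linarith

/-- classes with one pole: the matrix is integral -/
theorem k1_det {L r : ℕ} (hc : Cls q L r 1) (hα : VI q α) (hβ : VI q β)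
    (c : Fin 1 × Fin 10 → Col)
    (h : ∀ y, PG q 0 (c y).1 ∧ PG q 0 (c y).2.1 ∧ PG q 0 (c y).2.2) :
    VG q 0 (cmat q L α β r 1 c).det := by
  have h1 := Z5.VG.det (q := q) (cmat q L α β r 1 c) (fun _ => 0) (fun _ => 0) (fun i j => ?_)
  · simpa using h1
  · have h2 : r + q * (i.1 : ℕ) = r := by
      have : (i.1 : ℕ) = 0 := by have := i.1.2; omega
      rw [this, mul_zero, add_zero]
    show VG q (0 + 0) (PowerSeries.coeff (i.2 : ℕ) (tvec L α β (r + q * (i.1 : ℕ)) (c j)))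
    rw [h2, add_zero]
    exact k1_reg hc hα hβ (c j) (h j).1 (h j).2.1 (h j).2.2 _ i.2.2

/-- the number of poles of a class -/
theorem cls_range {L r K k : ℕ} (hc : Cls q L r K) (hk : (L + 1) / q = k) : K = k ∨ K = k + 1 := by
  have h0 : 0 < q := hq.out.pos
  have a1 := hc.hL
  have a2 := hc.hU
  have a3 := hc.hr
  have a4 := hc.hK
  have b1 : k * q ≤ L + 1 := by rw [← hk]; exact Nat.div_mul_le_self _ _
  have b2 : L + 1 < (k + 1) * q := (Nat.div_lt_iff_lt_mul h0).mp (by rw [hk]; omega)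
  by_contra hcon
  rcases Nat.lt_or_ge K k with h1 | h1
  · have : (K + 1) * q ≤ k * q := Nat.mul_le_mul_right _ h1
    have h2 : (K + 1) * q = q * K + q := by ring
    omega
  · have h3 : k + 2 ≤ K := by omega
    have : q * (k + 1) ≤ q * (K - 1) := Nat.mul_le_mul_left _ (by omega)
    have h2 : q * (k + 1) = (k + 1) * q := by ring
    omega

variable {p : ℕ} (eq : Fin (2 * p) × Fin 10 ≃ (Fin (6 * p) ⊕ Fin (6 * p)) ⊕ Fin (8 * p))

/-- from the scaled columns to `DM` -/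
theorem DM_of_scz {x y : ℕ} {v : ℤ}
    (h : VG q v ((dmat (4 * p - 1) α β (2 * p)
      (scz (6 * p) (6 * p) (8 * p) ((q : ℚ) ^ x) ((q : ℚ) ^ y))).submatrix id eq).det) :
    VG q (v - (x + y) * (6 * p)) (DM p α β eq) := by
  have h1 := scale_det (α := α) (β := β) (L := 4 * p - 1) eq ((q : ℚ) ^ x) ((q : ℚ) ^ y)
  have h2 : ((dmat (4 * p - 1) α β (2 * p)
      (scz (6 * p) (6 * p) (8 * p) ((q : ℚ) ^ x) ((q : ℚ) ^ y))).submatrix id eq).det =
      (q : ℚ) ^ ((x + y) * (6 * p)) * DM p α β eq := by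
    rw [h1]
    unfold DM
    rw [← pow_mul, ← pow_mul, ← pow_add]
    congr 2
    ring
  refine (VG_of_scaled h2 h).mono ?_
  push_cast
  exact le_refl _

theorem range0 (hα : VI q α) (hβ : VI q β) (h : 4 * p ≤ q) : VG q 0 (DM p α β eq) := by
  unfold DM
  have h1 := Z5.VG.det (q := q) ((dmat (4 * p - 1) α β (2 * p)
    (stdc (6 * p) (6 * p) (8 * p))).submatrix id eq) (fun _ => 0) (fun _ => 0) (fun i j => ?_)
  · simpa using h1
  · have hi := i.1.2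
    have hc : Cls q (4 * p - 1) (i.1 : ℕ) 1 := by
      constructor
      · omega
      · exact le_refl _
      · omega
      · omega
    show VG q (0 + 0) (PowerSeries.coeff (i.2 : ℕ) (tvec (4 * p - 1) α β (i.1 : ℕ)
      (stdc (6 * p) (6 * p) (8 * p) (eq j))))
    rw [add_zero]
    have hst : ∀ t : (Fin (6 * p) ⊕ Fin (6 * p)) ⊕ Fin (8 * p),
        PG q 0 (stdc (6 * p) (6 * p) (8 * p) t).1 ∧
        PG q 0 (stdc (6 * p) (6 * p) (8 * p) t).2.1 ∧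
        PG q 0 (stdc (6 * p) (6 * p) (8 * p) t).2.2 := by
      rintro ((t | t) | t)
      · exact ⟨Z5.PG.zero 0, Z5.PG.pow_zero Z5.PG.X _, Z5.PG.zero 0⟩
      · exact ⟨Z5.PG.zero 0, Z5.PG.zero 0, Z5.PG.pow_zero Z5.PG.X _⟩
      · exact ⟨Z5.PG.pow_zero Z5.PG.X _, Z5.PG.zero 0, Z5.PG.zero 0⟩
    exact k1_reg hc hα hβ _ (hst (eq j)).1 (hst (eq j)).2.1 (hst (eq j)).2.2 _ i.2.2

theorem range1 (h23 : 23 ≤ q) (hα : VI q α) (hβ : VI q β) (h : 2 * p < q) (h' : q < 4 * p) :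
    VG q (5 * q - 20 * p - 200 : ℤ) (DM p α β eq) := by
  have h0 : 0 < q := by omega
  have h2 : q ≠ 2 := by omega
  have hL : (4 * p - 1) + 1 = 2 * (2 * p) := by omega
  have hLq : 4 * p - 1 < q ^ 2 := by nlinarith
  have h3 : (4 * p - 1 + 1) / q = 1 := by rw [Nat.div_eq_iff h0]; omega
  have h4 : (4 * p - 1) / q = 1 := by rw [Nat.div_eq_iff h0]; omega
  have h7 := Nat.div_add_mod (4 * p - 1 + 1) q
  rw [h3] at h7
  have h8 : (4 * p - 1 + 1) % q = 4 * p - q := by omega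
  have hPG := scz_PG (q := q) (a := 6 * p) (b := 6 * p) (m := 8 * p) (x := (q : ℚ) ^ 0)
    (y := (q : ℚ) ^ 0) (i := 0) (j := 0) (by rw [pow_zero]; exact Z5.VG.one)
    (by rw [pow_zero]; exact Z5.VG.one)
  have hres := assemble h2 (2 * p) hL hLq hα hβ eq
    (scz (6 * p) (6 * p) (8 * p) ((q : ℚ) ^ 0) ((q : ℚ) ^ 0)) hPG
    (fun K => if K = 2 then -10 else 0) (by norm_num) (fun r K hc hr f _ => by
      rcases cls_range hc h3 with rfl | rfl
      · simp only [OfNat.one_ne_ofNat, if_false]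
        exact k1_det hc hα hβ _ (fun y => hPG (f y))
      · show VG q (-10) _
        exact k2_neg _ (fun y => k2_reg h23 hc hα hβ _ (hPG (f y)).1 (hPG (f y)).2.1
          (hPG (f y)).2.2))
    (-5 * (4 * p - q)) (by
      rw [h3, h4, h8]
      norm_num
      omega)
  refine (DM_of_scz eq hres).mono ?_
  rw [h4]
  push_cast
  linarith

theorem range2 (h23 : 23 ≤ q) (hα : VI q α) (hβ : VI q β) (h : 2 * p < q) (h' : q < 4 * p) :
    VG q (-6 * p - 200 : ℤ) (DM p α β eq) := by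
  have h0 : 0 < q := by omega
  have h2 : q ≠ 2 := by omega
  have hL : (4 * p - 1) + 1 = 2 * (2 * p) := by omega
  have hLq : 4 * p - 1 < q ^ 2 := by nlinarith
  have h3 : (4 * p - 1 + 1) / q = 1 := by rw [Nat.div_eq_iff h0]; omega
  have h4 : (4 * p - 1) / q = 1 := by rw [Nat.div_eq_iff h0]; omega
  have hPG := scz_PG (q := q) (a := 6 * p) (b := 6 * p) (m := 8 * p) (x := (q : ℚ) ^ 1)
    (y := (q : ℚ) ^ 0) (i := 1) (j := 0) (by exact_mod_cast Z5.VG.zpow_self (q := q) 1)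
    (by rw [pow_zero]; exact Z5.VG.one)
  have hPG0 : ∀ t, PG q 0 (scz (6 * p) (6 * p) (8 * p) ((q : ℚ) ^ 1) ((q : ℚ) ^ 0) t).1 ∧
      PG q 0 (scz (6 * p) (6 * p) (8 * p) ((q : ℚ) ^ 1) ((q : ℚ) ^ 0) t).2.1 ∧
      PG q 0 (scz (6 * p) (6 * p) (8 * p) ((q : ℚ) ^ 1) ((q : ℚ) ^ 0) t).2.2 := fun t =>
    ⟨(hPG t).1, (hPG t).2.1.mono (by norm_num), (hPG t).2.2⟩
  have hres := assemble h2 (2 * p) hL hLq hα hβ eq
    (scz (6 * p) (6 * p) (8 * p) ((q : ℚ) ^ 1) ((q : ℚ) ^ 0)) hPG0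
    (fun _ => 0) rfl (fun r K hc hr f _ => by
      rcases cls_range hc h3 with rfl | rfl
      · exact k1_det hc hα hβ _ (fun y => hPG0 (f y))
      · exact k2_zero _ (fun y => k2_reg1 h23 hc hα hβ _ (hPG (f y)).1 (hPG (f y)).2.1
          (hPG (f y)).2.2))
    0 (by norm_num)
  refine (DM_of_scz eq hres).mono ?_
  rw [h4]
  push_cast
  linarith

theorem range3 (h23 : 23 ≤ q) (hα : VI q α) (hβ : VI q β) (h : 4 * p < 3 * q) (h' : q < 2 * p) :
    VG q (32 * p - 19 * q - 300 : ℤ) (DM p α β eq) := by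
  have h0 : 0 < q := by omega
  have h2 : q ≠ 2 := by omega
  have hL : (4 * p - 1) + 1 = 2 * (2 * p) := by omega
  have hLq : 4 * p - 1 < q ^ 2 := by nlinarith
  have h3 : (4 * p - 1 + 1) / q = 2 := by rw [Nat.div_eq_iff h0]; omega
  have h4 : (4 * p - 1) / q = 2 := by rw [Nat.div_eq_iff h0]; omega
  have h7 := Nat.div_add_mod (4 * p - 1 + 1) q
  rw [h3] at h7
  have h8 : (4 * p - 1 + 1) % q = 4 * p - 2 * q := by omega
  have hPG := scz_PG (q := q) (a := 6 * p) (b := 6 * p) (m := 8 * p) (x := (q : ℚ) ^ 1)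
    (y := (q : ℚ) ^ 0) (i := 1) (j := 0) (by exact_mod_cast Z5.VG.zpow_self (q := q) 1)
    (by rw [pow_zero]; exact Z5.VG.one)
  have hPG0 : ∀ t, PG q 0 (scz (6 * p) (6 * p) (8 * p) ((q : ℚ) ^ 1) ((q : ℚ) ^ 0) t).1 ∧
      PG q 0 (scz (6 * p) (6 * p) (8 * p) ((q : ℚ) ^ 1) ((q : ℚ) ^ 0) t).2.1 ∧
      PG q 0 (scz (6 * p) (6 * p) (8 * p) ((q : ℚ) ^ 1) ((q : ℚ) ^ 0) t).2.2 := fun t =>
    ⟨(hPG t).1, (hPG t).2.1.mono (by norm_num), (hPG t).2.2⟩
  have hres := assemble h2 (2 * p) hL hLq hα hβ eq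
    (scz (6 * p) (6 * p) (8 * p) ((q : ℚ) ^ 1) ((q : ℚ) ^ 0)) hPG0
    (fun K => if K = 3 then 19 else 0) (by norm_num) (fun r K hc hr f _ => by
      rcases cls_range hc h3 with rfl | rfl
      · show VG q 0 _
        exact k2_zero _ (fun y => k2_reg1 h23 hc hα hβ _ (hPG (f y)).1 (hPG (f y)).2.1
          (hPG (f y)).2.2)
      · show VG q 19 _
        have hg := gen hc hLq hα hβ 0 2 10 (by norm_num) (by norm_num)
          (fun y => scz (6 * p) (6 * p) (8 * p) ((q : ℚ) ^ 1) ((q : ℚ) ^ 0) (f y))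
          (fun y => (hPG (f y)).1) (fun y => by simpa using (hPG (f y)).2.1)
          (fun y => by simpa using (hPG (f y)).2.2)
        exact hg.mono (by norm_num))
    (19 * (2 * p - q)) (by
      rw [h3, h4, h8]
      norm_num
      omega)
  refine (DM_of_scz eq hres).mono ?_
  rw [h4]
  push_cast
  linarith

/-- the bounds for the classes with `k` and `k + 1` poles -/
def e9 (k K : ℕ) : ℤ := if K = k then 23 * (k : ℤ) ^ 2 - 50 * k else
    if K = k + 1 then 23 * (k : ℤ) ^ 2 - 10 * k - 33 else 0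

theorem e9_zero {k : ℕ} (h : 0 < k) : e9 k 0 = 0 := by
  unfold e9
  rw [if_neg (by omega), if_neg (by omega)]

theorem e9_self (k : ℕ) : e9 k k = 23 * (k : ℤ) ^ 2 - 50 * k := if_pos rfl

theorem e9_succ (k : ℕ) : e9 k (k + 1) = 23 * (k : ℤ) ^ 2 - 10 * k - 33 := by
  unfold e9
  rw [if_neg (by omega), if_pos rfl]

theorem e9_le (k K : ℕ) : e9 k K ≤ 23 * (k : ℤ) ^ 2 := by
  have h7 : (0 : ℤ) ≤ (k : ℤ) := Int.natCast_nonneg _
  unfold e9
  split_ifs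
  · linarith
  · linarith
  · positivity

theorem two_tri (n : ℤ) : 2 * (n * (n + 1) / 2) = n * (n + 1) :=
  Int.mul_ediv_cancel' (even_iff_two_dvd.mp (Int.even_mul_succ_self n))

/-- `k = ⌊4 p / q⌋ ≥ 3` -/
theorem range4 (h23 : 23 ≤ q) (hα : VI q α) (hβ : VI q β) (hpq : 4 * p < q ^ 2) (h : 3 * q ≤ 4 * p) :
    let k : ℤ := (4 * p / q : ℕ)
    VG q (68 * k * p - 60 * p - 17 * q * (k * (k + 1) / 2) - 300 * (k + 1) ^ 2) (DM p α β eq) := by
  intro k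
  have h0 : 0 < q := by omega
  have h2 : q ≠ 2 := by omega
  have hL1 : (4 * p - 1) + 1 = 4 * p := by omega
  have hL : (4 * p - 1) + 1 = 2 * (2 * p) := by omega
  have hLq : 4 * p - 1 < q ^ 2 := by omega
  obtain ⟨kn, hkn⟩ : ∃ kn : ℕ, kn = 4 * p / q := ⟨_, rfl⟩
  have hk3 : 3 ≤ kn := by rw [hkn]; exact (Nat.le_div_iff_mul_le h0).mpr h
  have h3 : (4 * p - 1 + 1) / q = kn := by rw [hL1, hkn]
  have hdm := Nat.div_add_mod (4 * p - 1 + 1) q
  have hml := Nat.mod_lt (4 * p - 1 + 1) h0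
  rw [h3, hL1] at hdm
  rw [hL1] at hml
  have hkk : k = (kn : ℤ) := by rw [hkn]
  -- the scaled columns
  have hPG := scz_PG (q := q) (a := 6 * p) (b := 6 * p) (m := 8 * p) (x := (q : ℚ) ^ (kn + 1))
    (y := (q : ℚ) ^ (kn - 2)) (i := (kn : ℤ) + 1) (j := (kn : ℤ) - 2)
    (by exact_mod_cast Z5.VG.pow_self (q := q) (kn + 1))
    (by
      have h5 := Z5.VG.pow_self (q := q) (kn - 2)
      have h6 : ((kn - 2 : ℕ) : ℤ) = (kn : ℤ) - 2 := by omega
      rwa [h6] at h5)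
  have hPG0 : ∀ t, PG q 0 (scz (6 * p) (6 * p) (8 * p) ((q : ℚ) ^ (kn + 1)) ((q : ℚ) ^ (kn - 2)) t).1 ∧
      PG q 0 (scz (6 * p) (6 * p) (8 * p) ((q : ℚ) ^ (kn + 1)) ((q : ℚ) ^ (kn - 2)) t).2.1 ∧
      PG q 0 (scz (6 * p) (6 * p) (8 * p) ((q : ℚ) ^ (kn + 1)) ((q : ℚ) ^ (kn - 2)) t).2.2 :=
    fun t => ⟨(hPG t).1, (hPG t).2.1.mono (by omega), (hPG t).2.2.mono (by omega)⟩
  have hcls : ∀ r K, Cls q (4 * p - 1) r K → r < (4 * p - 1 - r) % q →
      ∀ f : Fin K × Fin 10 → (Fin (6 * p) ⊕ Fin (6 * p)) ⊕ Fin (8 * p), Function.Injective f →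
      VG q (e9 kn K) (cmat q (4 * p - 1) α β r K (fun y =>
        scz (6 * p) (6 * p) (8 * p) ((q : ℚ) ^ (kn + 1)) ((q : ℚ) ^ (kn - 2)) (f y))).det := by
    intro r K hc hr f _
    rcases cls_range hc h3 with h5 | h5
    · subst h5
      have hg := gen hc hLq hα hβ K K (4 * K) (by omega) (by omega)
        (fun y => scz (6 * p) (6 * p) (8 * p) ((q : ℚ) ^ (K + 1)) ((q : ℚ) ^ (K - 2)) (f y))
        (fun y => (hPG (f y)).1) (fun y => (hPG (f y)).2.1) (fun y => (hPG (f y)).2.2)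
      refine hg.mono ?_
      rw [e9_self]
      have t1 := two_tri ((4 * K : ℕ) : ℤ)
      have t2 := two_tri (((4 * K : ℕ) : ℤ) - K)
      push_cast at t1 t2 ⊢
      linarith
    · subst h5
      have hg := gen hc hLq hα hβ kn kn (4 * kn + 3) (by omega) (by omega)
        (fun y => scz (6 * p) (6 * p) (8 * p) ((q : ℚ) ^ (kn + 1)) ((q : ℚ) ^ (kn - 2)) (f y))
        (fun y => (hPG (f y)).1) (fun y => (hPG (f y)).2.1) (fun y => (hPG (f y)).2.2)
      refine hg.mono ?_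
      rw [e9_succ]
      have t1 := two_tri ((4 * kn + 3 : ℕ) : ℤ)
      have t2 := two_tri (((4 * kn + 3 : ℕ) : ℤ) - kn)
      push_cast at t1 t2 ⊢
      linarith
  have hT := two_tri (kn : ℤ)
  obtain ⟨T, hTd⟩ : ∃ T : ℤ, T = (kn : ℤ) * (kn + 1) / 2 := ⟨_, rfl⟩
  rw [← hTd] at hT
  have hres := assemble h2 (2 * p) hL hLq hα hβ eq
    (scz (6 * p) (6 * p) (8 * p) ((q : ℚ) ^ (kn + 1)) ((q : ℚ) ^ (kn - 2))) hPG0
    (e9 kn) (e9_zero (by omega)) hcls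
    (80 * kn * p - 66 * p - 17 * q * T - 12 * kn ^ 2) (by
      have h9 := e9_le kn (if 2 ∣ ((4 * p - 1) / q + 1) then (4 * p - 1) / q + 1 else (4 * p - 1) / q)
      have h10 : ((4 * p % q : ℕ) : ℤ) = 4 * p - q * kn := by
        have : ((q * kn + 4 * p % q : ℕ) : ℤ) = ((4 * p : ℕ) : ℤ) := by rw [hdm]
        push_cast at this ⊢
        linarith
      have h11 : ((q - 4 * p % q : ℕ) : ℤ) = q - (4 * p - q * kn) := by
        rw [Nat.cast_sub hml.le, h10]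
      have h12 : (17 * (q : ℤ)) * (2 * T) = (17 * (q : ℤ)) * (kn * (kn + 1)) := by rw [hT]
      rw [h3, hL1, e9_self, e9_succ, h10, h11]
      nlinarith [h9, h12, sq_nonneg (kn : ℤ)])
  refine (DM_of_scz eq hres).mono ?_
  have h13 : (((4 * p - 1) / q + 1 : ℕ) : ℤ) ≤ kn + 1 := by
    have : (4 * p - 1) / q ≤ kn := by
      rw [hkn]
      exact Nat.div_le_div_right (by omega)
    push_cast
    have h14 : (((4 * p - 1) / q : ℕ) : ℤ) ≤ kn := by exact_mod_cast this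
    linarith
  have h6 : ((kn - 2 : ℕ) : ℤ) = (kn : ℤ) - 2 := by omega
  have h7 : (0 : ℤ) ≤ (kn : ℤ) := Int.natCast_nonneg _
  rw [hkk, ← hTd, h6]
  push_cast at h13 ⊢
  nlinarith

end Pool.Agent.Z9
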